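import Pool.Agent.RC.Base

/-!
# Sharp CLR inequality for radial potentials in `ℝ³`: module ANG
(MP_4c716f_mp; architect: helper86). See PAPER.md in this folder.
-/

set_option autoImplicit false

namespace Pool.Agent.RC

open MeasureTheory Matrix Finset Filter Topology
open scoped ComplexConjugate ComplexOrder ContDiff

namespace ANG

/-! ### Linearity of the rotational derivatives -/

theorem pd3_sub {f g : V3 → ℂ} (hf : Differentiable ℝ f) (hg : Differentiable ℝ g) (k : Fin 3)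
    (x : V3) : pd3 k (fun y => f y - g y) x = pd3 k f x - pd3 k g x := by
  unfold pd3
  rw [fderiv_fun_sub (hf x) (hg x)]
  rfl

theorem pd3_cmul {f : V3 → ℂ} (hf : Differentiable ℝ f) (c : ℂ) (k : Fin 3)
    (x : V3) : pd3 k (fun y => c * f y) x = c * pd3 k f x := by
  unfold pd3
  rw [fderiv_const_mul (hf x) c]
  rfl

theorem pd3_sum {ι : Type*} (A : Finset ι) {f : ι → V3 → ℂ} (hf : ∀ i, Differentiable ℝ (f i))
    (k : Fin 3) (x : V3) : pd3 k (fun y => ∑ i ∈ A, f i y) x = ∑ i ∈ A, pd3 k (f i) x := by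
  unfold pd3
  rw [fderiv_fun_sum fun i _ => hf i x, ContinuousLinearMap.sum_apply]

theorem Dr_sub {f g : V3 → ℂ} (hf : Differentiable ℝ f) (hg : Differentiable ℝ g) (i : Fin 3)
    (x : V3) : Dr i (fun y => f y - g y) x = Dr i f x - Dr i g x := by
  unfold Dr
  rw [pd3_sub hf hg, pd3_sub hf hg]
  ring

theorem Dr_lin {ι : Type*} (A : Finset ι) (c : ι → ℂ) {f : ι → V3 → ℂ}
    (hf : ∀ i, Differentiable ℝ (f i)) (i : Fin 3) (x : V3) :
    Dr i (fun y => ∑ j ∈ A, c j * f j y) x = ∑ j ∈ A, c j * Dr i (f j) x := by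
  unfold Dr
  rw [pd3_sum A (f := fun j y => c j * f j y) (fun j => (hf j).const_mul (c j)),
    pd3_sum A (f := fun j y => c j * f j y) (fun j => (hf j).const_mul (c j)),
    Finset.mul_sum, Finset.mul_sum, ← Finset.sum_sub_distrib]
  refine Finset.sum_congr rfl fun j _ => ?_
  rw [pd3_cmul (hf j), pd3_cmul (hf j)]
  ring

/-- The form of the rotational energy. -/
noncomputable def T (f h : V3 → ℂ) : ℂ := ∑ i, pr (Dr i f) (Dr i h)

theorem T_self (f : V3 → ℂ) : T f f = ((∑ i, ∫ s, ‖Dr i f (om s)‖ ^ 2 ∂sig : ℝ) : ℂ) := by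
  unfold T
  rw [Complex.ofReal_sum]
  exact Finset.sum_congr rfl fun i _ => pr_self _

theorem T_symm (f h : V3 → ℂ) : T h f = conj (T f h) := by
  unfold T
  rw [map_sum]
  exact Finset.sum_congr rfl fun i _ => pr_symm _ _

theorem diff {f : V3 → ℂ} (hf : ContDiff ℝ ∞ f) : Differentiable ℝ f :=
  hf.differentiable (by simp)

section

variable (h1 : ROT_Stmt)

include h1

theorem T_left {f g : V3 → ℂ} (hf : ContDiff ℝ ∞ f) (hg : ContDiff ℝ ∞ g) :
    T f g = -∑ i, pr (Dr i (Dr i f)) g := by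
  unfold T
  rw [← Finset.sum_neg_distrib]
  refine Finset.sum_congr rfl fun i _ => ?_
  have := h1.2.2 (Dr i f) g (h1.1 f hf i) hg i
  show pr (Dr i f) (Dr i g) = -pr (Dr i (Dr i f)) g
  unfold pr
  rw [this, neg_neg]

theorem T_right {f g : V3 → ℂ} (hf : ContDiff ℝ ∞ f) (hg : ContDiff ℝ ∞ g) :
    T f g = -∑ i, pr f (Dr i (Dr i g)) := by
  unfold T
  rw [← Finset.sum_neg_distrib]
  refine Finset.sum_congr rfl fun i _ => ?_
  have := h1.2.2 f (Dr i g) hf (h1.1 g hg i) i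
  exact this

end

/-! ### Orthogonal families -/

/-- An orthonormal family (some members may vanish on the sphere). -/
structure Fam (E : ℕ → V3 → ℂ) : Prop where
  sm : ∀ n, ContDiff ℝ ∞ (E n)
  ort : ∀ m n, m ≠ n → pr (E m) (E n) = 0
  nrm : ∀ n, pr (E n) (E n) = 1 ∨ ∀ s, E n (om s) = 0

/-- The projection. -/
noncomputable def P (E : ℕ → V3 → ℂ) (n : ℕ) (g : V3 → ℂ) : V3 → ℂ :=
  fun x => ∑ k ∈ range n, pr g (E k) * E k x

theorem P_smooth {E : ℕ → V3 → ℂ} (hE : Fam E) (n : ℕ) (g : V3 → ℂ) : ContDiff ℝ ∞ (P E n g) := by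
  unfold P
  exact ContDiff.sum fun k _ => contDiff_const.mul (hE.sm k)

theorem pr_zero_right {g e : V3 → ℂ} (h : ∀ s, e (om s) = 0) : pr g e = 0 := by
  unfold pr
  simp [h]

theorem pr_P {E : ℕ → V3 → ℂ} (hE : Fam E) (n : ℕ) (g : V3 → ℂ) {k : ℕ} (hk : k ∈ range n) :
    pr (P E n g) (E k) = pr g (E k) := by
  unfold P
  rw [pr_sum_left (range n) (g := fun j x => pr g (E j) * E j x)
    (fun j => continuous_const.mul (hE.sm j).continuous) (hE.sm k).continuous]
  rw [Finset.sum_eq_single k]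
  · rw [pr_smul_left]
    rcases hE.nrm k with h | h
    · rw [h, mul_one]
    · rw [pr_zero_right h, pr_zero_right h, mul_zero]
  · intro j _ hj
    rw [pr_smul_left, hE.ort j k hj, mul_zero]
  · intro h
    exact absurd hk h

/-- Real form of a sum. -/
theorem sum_real (n : ℕ) (a : ℕ → ℝ) (c : ℕ → ℂ) :
    ∑ k ∈ range n, conj (c k) * ((a k : ℂ) * c k) =
      ((∑ k ∈ range n, a k * ‖c k‖ ^ 2 : ℝ) : ℂ) := by
  rw [Complex.ofReal_sum]
  refine Finset.sum_congr rfl fun k _ => ?_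
  have : conj (c k) * c k = ((‖c k‖ ^ 2 : ℝ) : ℂ) := by
    rw [mul_comm, Complex.mul_conj']
    push_cast
    rfl
  rw [Complex.ofReal_mul, ← this]
  ring

theorem proj {E : ℕ → V3 → ℂ} (hE : Fam E) (n : ℕ) {g : V3 → ℂ} (hg : Continuous g) :
    (∫ s, ‖g (om s) - P E n g (om s)‖ ^ 2 ∂sig) =
      (∫ s, ‖g (om s)‖ ^ 2 ∂sig) - ∑ k ∈ range n, ‖pr g (E k)‖ ^ 2 := by
  have hP : Continuous (P E n g) := (P_smooth hE n g).continuous
  have hgP : Continuous (fun x => g x - P E n g x) := hg.sub hP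
  have hr : ∀ f : V3 → ℂ, Continuous f →
      pr f (P E n g) = ∑ k ∈ range n, conj (pr g (E k)) * pr f (E k) := by
    intro f hf
    unfold P
    rw [pr_sum_right (range n) (e := fun j x => pr g (E j) * E j x)
      (fun j => continuous_const.mul (hE.sm j).continuous) hf]
    exact Finset.sum_congr rfl fun k _ => pr_smul_right _ _ _
  have hσ : ∑ k ∈ range n, conj (pr g (E k)) * pr g (E k) =
      ((∑ k ∈ range n, ‖pr g (E k)‖ ^ 2 : ℝ) : ℂ) := by
    have := sum_real n (fun _ => 1) (fun k => pr g (E k))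
    simpa using this
  have e1 : pr g (P E n g) = ((∑ k ∈ range n, ‖pr g (E k)‖ ^ 2 : ℝ) : ℂ) := by
    rw [hr g hg, hσ]
  have e2 : pr (P E n g) g = ((∑ k ∈ range n, ‖pr g (E k)‖ ^ 2 : ℝ) : ℂ) := by
    rw [pr_symm, e1, Complex.conj_ofReal]
  have e3 : pr (P E n g) (P E n g) = ((∑ k ∈ range n, ‖pr g (E k)‖ ^ 2 : ℝ) : ℂ) := by
    rw [hr _ hP, ← hσ]
    exact Finset.sum_congr rfl fun k hk => by rw [pr_P hE n g hk]
  have e4 := pr_self (fun x => g x - P E n g x)
  rw [pr_sub_left hg hP hgP, pr_sub_right hg hg hP, pr_sub_right hP hg hP, e1, e2, e3,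
    pr_self] at e4
  have e5 : (((∫ s, ‖g (om s)‖ ^ 2 ∂sig) - (∑ k ∈ range n, ‖pr g (E k)‖ ^ 2) : ℝ) : ℂ) =
      ((∫ s, ‖g (om s) - P E n g (om s)‖ ^ 2 ∂sig : ℝ) : ℂ) := by
    rw [← e4]
    push_cast
    ring
  exact (Complex.ofReal_injective e5).symm

theorem bessel {E : ℕ → V3 → ℂ} (hE : Fam E) (n : ℕ) : Bess E n := by
  intro g hg
  have h := proj hE n hg
  have h0 : 0 ≤ ∫ s, ‖g (om s) - P E n g (om s)‖ ^ 2 ∂sig :=
    integral_nonneg fun s => by positivity
  linarith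

/-! ### The rotational energy -/

/-- Lower bound of the rotational energy, given the eigenvalue property. -/
theorem energy (h1 : ROT_Stmt) {E : ℕ → V3 → ℂ} (hE : Fam E) (a : ℕ → ℝ)
    (heig : ∀ k, ∀ g : V3 → ℂ, ContDiff ℝ ∞ g → T g (E k) = (a k : ℂ) * pr g (E k)) (n : ℕ)
    {g : V3 → ℂ} (hg : ContDiff ℝ ∞ g) :
    ∑ k ∈ range n, a k * ‖pr g (E k)‖ ^ 2 ≤ ∑ i, ∫ s, ‖Dr i g (om s)‖ ^ 2 ∂sig := by
  have hP : ContDiff ℝ ∞ (P E n g) := P_smooth hE n g
  have hDg : ∀ i, Continuous (Dr i g) := fun i => (h1.1 g hg i).continuous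
  have hDP : ∀ i, Continuous (Dr i (P E n g)) := fun i => (h1.1 _ hP i).continuous
  have hDE : ∀ i k, Continuous (Dr i (E k)) := fun i k => (h1.1 _ (hE.sm k) i).continuous
  have hDlin : ∀ i x, Dr i (P E n g) x = ∑ k ∈ range n, pr g (E k) * Dr i (E k) x := by
    intro i x
    exact Dr_lin (range n) (fun k => pr g (E k)) (fun k => diff (hE.sm k)) i x
  have hr : ∀ f : V3 → ℂ, ContDiff ℝ ∞ f →
      T f (P E n g) = ∑ k ∈ range n, conj (pr g (E k)) * ((a k : ℂ) * pr f (E k)) := by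
    intro f hf
    have : T f (P E n g) = ∑ k ∈ range n, conj (pr g (E k)) * T f (E k) := by
      unfold T
      simp only [Finset.mul_sum]
      rw [Finset.sum_comm]
      refine Finset.sum_congr rfl fun i _ => ?_
      have e0 : pr (Dr i f) (Dr i (P E n g)) =
          pr (Dr i f) (fun x => ∑ k ∈ range n, pr g (E k) * Dr i (E k) x) :=
        pr_congr (fun s => rfl) (fun s => hDlin i (om s))
      rw [e0, pr_sum_right (range n) (e := fun j x => pr g (E j) * Dr i (E j) x)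
        (fun j => continuous_const.mul (hDE i j)) (h1.1 f hf i).continuous]
      exact Finset.sum_congr rfl fun k _ => pr_smul_right _ _ _
    rw [this]
    exact Finset.sum_congr rfl fun k _ => by rw [heig k f hf]
  have hσ := sum_real n a (fun k => pr g (E k))
  have e1 : T g (P E n g) = ((∑ k ∈ range n, a k * ‖pr g (E k)‖ ^ 2 : ℝ) : ℂ) := by
    rw [hr g hg, hσ]
  have e2 : T (P E n g) g = ((∑ k ∈ range n, a k * ‖pr g (E k)‖ ^ 2 : ℝ) : ℂ) := by
    rw [T_symm, e1, Complex.conj_ofReal]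
  have e3 : T (P E n g) (P E n g) = ((∑ k ∈ range n, a k * ‖pr g (E k)‖ ^ 2 : ℝ) : ℂ) := by
    rw [hr _ hP, ← hσ]
    exact Finset.sum_congr rfl fun k hk => by rw [pr_P hE n g hk]
  have e4 : T (fun x => g x - P E n g x) (fun x => g x - P E n g x) =
      T g g - T g (P E n g) - (T (P E n g) g - T (P E n g) (P E n g)) := by
    unfold T
    rw [← Finset.sum_sub_distrib, ← Finset.sum_sub_distrib, ← Finset.sum_sub_distrib]
    refine Finset.sum_congr rfl fun i _ => ?_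
    have e0 : pr (Dr i fun x => g x - P E n g x) (Dr i fun x => g x - P E n g x) =
        pr (fun x => Dr i g x - Dr i (P E n g) x) (fun x => Dr i g x - Dr i (P E n g) x) :=
      pr_congr (fun s => Dr_sub (diff hg) (diff hP) i _) (fun s => Dr_sub (diff hg) (diff hP) i _)
    have hc : Continuous (fun x => Dr i g x - Dr i (P E n g) x) := (hDg i).sub (hDP i)
    rw [e0, pr_sub_left (hDg i) (hDP i) hc, pr_sub_right (hDg i) (hDg i) (hDP i),
      pr_sub_right (hDP i) (hDg i) (hDP i)]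
  rw [T_self, e1, e2, e3, T_self g] at e4
  have e5 : (∑ i, ∫ s, ‖Dr i (fun x => g x - P E n g x) (om s)‖ ^ 2 ∂sig) =
      (∑ i, ∫ s, ‖Dr i g (om s)‖ ^ 2 ∂sig) - ∑ k ∈ range n, a k * ‖pr g (E k)‖ ^ 2 := by
    apply Complex.ofReal_injective
    rw [e4]
    push_cast
    ring
  have h0 : 0 ≤ ∑ i, ∫ s, ‖Dr i (fun x => g x - P E n g x) (om s)‖ ^ 2 ∂sig :=
    Finset.sum_nonneg fun i _ => integral_nonneg fun s => by positivity
  linarith

theorem degLt_mono {m n : ℕ} (h : m ≤ n) {p : MvPolynomial (Fin 3) ℂ} (hp : DegLt m p) :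
    DegLt n p := fun k hk => lt_of_lt_of_le (hp k hk) h

theorem degLt_exists (p : MvPolynomial (Fin 3) ℂ) (L : ℕ) : ∃ M, L ≤ M ∧ DegLt M p := by
  refine ⟨max L (p.support.sup (fun m => ∑ i, m i) + 1), le_max_left _ _, ?_⟩
  intro m hm
  have : (∑ i, m i) ≤ p.support.sup (fun m => ∑ i, m i) :=
    Finset.le_sup (f := fun m : Fin 3 →₀ ℕ => ∑ i, m i) hm
  exact lt_of_lt_of_le (Nat.lt_succ_of_le this) (le_max_right _ _)

end ANG

open ANG in
/-- The module theorem. -/
theorem ang (h1 : ROT_Stmt) (h2 : PLY_Stmt) (h3 : DNS_Stmt) (h4 : GRS_Stmt) : ANG_Stmt := by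
  obtain ⟨e, hdeg, hort, hnrm, hexp⟩ := h4
  set E : ℕ → V3 → ℂ := fun n => evp (e n) with hEdef
  have hE : Fam E := ⟨fun n => h2.1 (e n), hort, hnrm⟩
  have hEc : ∀ n, Continuous (E n) := fun n => (hE.sm n).continuous
  -- low degree polynomials are orthogonal to `E k`
  have hlow : ∀ (l k : ℕ) (r : MvPolynomial (Fin 3) ℂ), l ^ 2 ≤ k → DegLt l r →
      pr (E k) (evp r) = 0 := by
    intro l k r hlk hr
    have e0 : pr (E k) (evp r) = pr (E k)
        (fun x => ∑ n ∈ range (l ^ 2), pr (evp r) (evp (e n)) * E n x) :=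
      pr_congr (fun s => rfl) (fun s => hexp l r hr s)
    rw [e0, pr_sum_right (range (l ^ 2)) (e := fun n x => pr (evp r) (evp (e n)) * E n x)
      (fun n => continuous_const.mul (hEc n)) (hEc k)]
    refine Finset.sum_eq_zero fun n hn => ?_
    have hne : k ≠ n := by
      have := Finset.mem_range.1 hn
      omega
    rw [pr_smul_right, hort k n hne, mul_zero]
  -- the eigenvalue equation on the sphere
  have heq : ∀ k s, -(∑ i, Dr i (Dr i (E k)) (om s)) =
      ((k.sqrt : ℂ) * (k.sqrt + 1)) * E k (om s) := by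
    intro k
    obtain ⟨q, hq, hqs⟩ := h2.2.2 k.sqrt (e k) (hdeg k)
    have hQc : ContDiff ℝ ∞ (evp q) := h2.1 q
    have hlk : k.sqrt ^ 2 ≤ k := by
      rw [pow_two]
      exact Nat.sqrt_le k
    have z1 : T (E k) (evp q) = 0 := by
      rw [T_right h1 (hE.sm k) hQc, neg_eq_zero]
      refine Finset.sum_eq_zero fun i _ => ?_
      obtain ⟨q1, hq1, hq1s⟩ := h2.2.1 q i
      obtain ⟨q2, hq2, hq2s⟩ := h2.2.1 q1 i
      have hfun : Dr i (evp q) = evp q1 := funext hq1s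
      have hfun2 : Dr i (Dr i (evp q)) = evp q2 := by
        rw [hfun]
        exact funext hq2s
      rw [hfun2]
      exact hlow k.sqrt k q2 hlk (hq2 _ (hq1 _ hq))
    have z2 : ∑ i, pr (Dr i (Dr i (E k))) (evp q) = 0 := by
      have := T_left h1 (hE.sm k) hQc
      rw [z1] at this
      exact neg_eq_zero.1 this.symm
    have z3 : pr (evp q) (evp q) = 0 := by
      have hD2c : ∀ i, Continuous (Dr i (Dr i (E k))) := fun i =>
        (h1.1 _ (h1.1 _ (hE.sm k) i) i).continuous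
      have e0 : pr (evp q) (evp q) = pr (fun x => (-1) * (∑ i ∈ univ, Dr i (Dr i (E k)) x) -
          ((k.sqrt : ℂ) * (k.sqrt + 1)) * E k x) (evp q) := by
        refine pr_congr (fun s => ?_) (fun s => rfl)
        have := hqs s
        rw [show evp (e k) = E k from rfl] at this
        rw [neg_one_mul, this]
        ring
      have hsum : Continuous (fun x => ∑ i ∈ univ, Dr i (Dr i (E k)) x) :=
        continuous_finsetSum _ fun i _ => hD2c i
      have hc1 : Continuous (fun x => (-1 : ℂ) * (∑ i ∈ univ, Dr i (Dr i (E k)) x)) :=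
        continuous_const.mul hsum
      have hc2 : Continuous (fun x => ((k.sqrt : ℂ) * (k.sqrt + 1)) * E k x) :=
        continuous_const.mul (hEc k)
      rw [e0, pr_sub_left hc1 hc2 hQc.continuous, pr_smul_left, pr_smul_left,
        pr_sum_left univ (g := fun i x => Dr i (Dr i (E k)) x) hD2c hQc.continuous, z2,
        hlow k.sqrt k q hlk hq]
      ring
    intro s
    have := hqs s
    rw [pr_self_zero hQc.continuous z3 s, add_zero] at this
    exact this
  have heig : ∀ k, ∀ g : V3 → ℂ, ContDiff ℝ ∞ g →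
      T g (E k) = ((((k.sqrt : ℝ) * (k.sqrt + 1) : ℝ)) : ℂ) * pr g (E k) := by
    intro k g hg
    have hD2c : ∀ i, Continuous (Dr i (Dr i (E k))) := fun i =>
      (h1.1 _ (h1.1 _ (hE.sm k) i) i).continuous
    rw [T_right h1 hg (hE.sm k)]
    have e0 : pr g (fun x => (-1) * ∑ i ∈ univ, Dr i (Dr i (E k)) x) =
        pr g (fun x => ((k.sqrt : ℂ) * (k.sqrt + 1)) * E k x) := by
      refine pr_congr (fun s => rfl) (fun s => ?_)
      rw [neg_one_mul]
      exact heq k s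
    rw [pr_smul_right, pr_smul_right,
      pr_sum_right univ (e := fun i x => Dr i (Dr i (E k)) x) hD2c hg.continuous] at e0
    have c1 : conj (-1 : ℂ) = -1 := by simp
    have c2 : conj ((k.sqrt : ℂ) * (k.sqrt + 1)) = ((((k.sqrt : ℝ) * (k.sqrt + 1) : ℝ)) : ℂ) := by
      simp
    rw [c1, c2, neg_one_mul] at e0
    exact e0
  refine ⟨E, hE.sm, fun L => ⟨bessel hE _, ?_⟩⟩
  intro g hg
  set Λ : ℝ := ∑ i, ∫ s, ‖Dr i g (om s)‖ ^ 2 ∂sig with hΛ
  set c : ℕ → ℝ := fun k => ‖pr g (E k)‖ ^ 2 with hc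
  have hc0 : ∀ k, 0 ≤ c k := fun k => by positivity
  set G : ℝ := ∫ s, ‖g (om s)‖ ^ 2 ∂sig with hG
  show (∑ k ∈ range (L ^ 2), ((k.sqrt : ℝ) * (k.sqrt + 1)) * c k) +
      (L : ℝ) * (L + 1) * (G - ∑ k ∈ range (L ^ 2), c k) ≤ Λ
  have hL0 : (0 : ℝ) ≤ (L : ℝ) * (L + 1) := by positivity
  refine le_of_forall_pos_le_add fun δ hδ => ?_
  set ε : ℝ := δ / ((L : ℝ) * (L + 1) + 1) with hε
  have hε0 : 0 < ε := by positivity
  obtain ⟨p, hp⟩ := h3 g hg.continuous ε hε0
  obtain ⟨M, hLM, hpM⟩ := degLt_exists p L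
  -- the energy bound
  have hen := energy h1 hE (fun k => (k.sqrt : ℝ) * (k.sqrt + 1)) heig (M ^ 2) hg
  -- the tail
  have hsub : L ^ 2 ≤ M ^ 2 := Nat.pow_le_pow_left hLM 2
  have hsplit : ∀ f : ℕ → ℝ, ∑ k ∈ range (M ^ 2), f k =
      (∑ k ∈ range (L ^ 2), f k) + ∑ k ∈ Finset.Ico (L ^ 2) (M ^ 2), f k := fun f =>
    (Finset.sum_range_add_sum_Ico f hsub).symm
  have htail : (L : ℝ) * (L + 1) * ∑ k ∈ Finset.Ico (L ^ 2) (M ^ 2), c k ≤
      ∑ k ∈ Finset.Ico (L ^ 2) (M ^ 2), ((k.sqrt : ℝ) * (k.sqrt + 1)) * c k := by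
    rw [Finset.mul_sum]
    refine Finset.sum_le_sum fun k hk => ?_
    refine mul_le_mul_of_nonneg_right ?_ (hc0 k)
    have hLk : L ≤ k.sqrt := Nat.le_sqrt'.2 (Finset.mem_Ico.1 hk).1
    have hLk' : (L : ℝ) ≤ k.sqrt := by exact_mod_cast hLk
    have hL' : (0 : ℝ) ≤ L := Nat.cast_nonneg L
    nlinarith
  -- the approximation
  have hpc : Continuous (evp p) := (h2.1 p).continuous
  have happ : G - ∑ k ∈ range (M ^ 2), c k ≤ ε := by
    have hh : Continuous (fun x => g x - evp p x) := hg.continuous.sub hpc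
    have i1 := proj hE (M ^ 2) hh
    have i2 := proj hE (M ^ 2) hg.continuous
    have i3 : ∀ s, (fun x => g x - evp p x) (om s) - P E (M ^ 2) (fun x => g x - evp p x) (om s) =
        g (om s) - P E (M ^ 2) g (om s) := by
      intro s
      have j1 : P E (M ^ 2) (fun x => g x - evp p x) (om s) =
          P E (M ^ 2) g (om s) - ∑ k ∈ range (M ^ 2), pr (evp p) (evp (e k)) * E k (om s) := by
        unfold P
        rw [← Finset.sum_sub_distrib]
        refine Finset.sum_congr rfl fun k _ => ?_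
        rw [pr_sub_left hg.continuous hpc (hEc k)]
        show (pr g (E k) - pr (evp p) (E k)) * E k (om s) = _
        ring
      rw [j1]
      show g (om s) - evp p (om s) - _ = _
      have j2 := hexp M p hpM s
      rw [show (∑ n ∈ range (M ^ 2), pr (evp p) (evp (e n)) * evp (e n) (om s)) =
        ∑ k ∈ range (M ^ 2), pr (evp p) (evp (e k)) * E k (om s) from rfl] at j2
      rw [j2]
      ring
    simp only [i3] at i1
    rw [i2] at i1
    have i4 : 0 ≤ ∑ k ∈ range (M ^ 2), ‖pr (fun x => g x - evp p x) (E k)‖ ^ 2 :=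
      Finset.sum_nonneg fun k _ => by positivity
    show G - ∑ k ∈ range (M ^ 2), ‖pr g (E k)‖ ^ 2 ≤ ε
    linarith
  have hs1 := hsplit c
  have hs2 := hsplit (fun k => ((k.sqrt : ℝ) * (k.sqrt + 1)) * c k)
  have hen' : ∑ k ∈ range (M ^ 2), ((k.sqrt : ℝ) * (k.sqrt + 1)) * c k ≤ Λ := hen
  have hm : (L : ℝ) * (L + 1) * (G - ∑ k ∈ range (L ^ 2), c k) ≤
      (L : ℝ) * (L + 1) * (ε + ∑ k ∈ Finset.Ico (L ^ 2) (M ^ 2), c k) :=
    mul_le_mul_of_nonneg_left (by linarith) hL0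
  have hεδ : (L : ℝ) * (L + 1) * ε ≤ δ := by
    rw [hε, mul_div_assoc', div_le_iff₀ (by positivity)]
    nlinarith
  have hm2 : (L : ℝ) * (L + 1) * (ε + ∑ k ∈ Finset.Ico (L ^ 2) (M ^ 2), c k) =
      (L : ℝ) * (L + 1) * ε + (L : ℝ) * (L + 1) * ∑ k ∈ Finset.Ico (L ^ 2) (M ^ 2), c k := by
    ring
  linarith

end Pool.Agent.RC
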