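import Pool.Agent.RC.Base

/-!
# Module ASA: assembly of level A
(MP_4c716f_mp; architect: helper86). See PAPER.md in this folder.
-/

set_option autoImplicit false

namespace Pool.Agent.RC

open MeasureTheory Matrix Finset Filter Topology
open scoped ComplexConjugate ComplexOrder ContDiff
open Pool.Agent.LT (TestFn IsH1v IsH1d IsEigenfunctionD)

namespace ASA

/-- Counting of `k < L²` with `√k + 1/2 < κ`. -/
theorem count (L : ℕ) (κ : ℝ) (hκ : 0 < κ) :
    (((univ : Finset (Fin (L ^ 2))).filter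
      fun k : Fin (L ^ 2) => (((k : ℕ).sqrt : ℝ) + 1 / 2) < κ).card : ℝ) ≤ 4 * κ ^ 2 := by
  classical
  by_cases h : κ ≤ 1 / 2
  · have he : ((univ : Finset (Fin (L ^ 2))).filter
        fun k : Fin (L ^ 2) => (((k : ℕ).sqrt : ℝ) + 1 / 2) < κ) = ∅ := by
      refine Finset.filter_eq_empty_iff.2 (fun k _ hk => ?_)
      have : (0 : ℝ) ≤ ((k : ℕ).sqrt : ℝ) := Nat.cast_nonneg _
      linarith
    rw [he]
    simp only [Finset.card_empty, Nat.cast_zero]
    positivity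
  · rw [not_le] at h
    set M : ℕ := ⌈κ - 1 / 2⌉₊ with hM
    have hM1 : κ - 1 / 2 ≤ M := Nat.le_ceil _
    have hM2 : (M : ℝ) < κ - 1 / 2 + 1 := Nat.ceil_lt_add_one (by linarith)
    have hcard : ((univ : Finset (Fin (L ^ 2))).filter
        fun k : Fin (L ^ 2) => (((k : ℕ).sqrt : ℝ) + 1 / 2) < κ).card ≤ (range (M * M)).card := by
      refine Finset.card_le_card_of_injOn (fun k => (k : ℕ)) ?_ ?_
      · intro k hk
        have hk2 : (((k : ℕ).sqrt : ℝ) + 1 / 2) < κ := by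
          have := (Finset.mem_filter.1 (Finset.mem_coe.1 hk)).2
          exact this
        have h3 : ((k : ℕ).sqrt : ℝ) < M := by linarith
        have h4 : (k : ℕ).sqrt < M := by exact_mod_cast h3
        rw [Finset.mem_coe, Finset.mem_range]
        exact Nat.sqrt_lt.1 h4
      · intro a _ b _ hab
        exact Fin.ext hab
    rw [Finset.card_range] at hcard
    have h5 : (((univ : Finset (Fin (L ^ 2))).filter
        fun k : Fin (L ^ 2) => (((k : ℕ).sqrt : ℝ) + 1 / 2) < κ).card : ℝ) ≤ (M : ℝ) * M := by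
      exact_mod_cast hcard
    have h6 : (M : ℝ) ≤ 2 * κ := by linarith
    have h7 : (0 : ℝ) ≤ M := Nat.cast_nonneg _
    nlinarith

/-- Quadratic form of a Gram matrix. -/
theorem quad {α : Type*} [MeasurableSpace α] {μ : Measure α} {N : ℕ} (c : Fin N → ℂ) (w : α → ℝ)
    (g : Fin N → α → ℂ)
    (hint : ∀ i j, Integrable (fun y => (w y : ℂ) * (g i y * conj (g j y))) μ) :
    star c ⬝ᵥ ((Matrix.of fun i j => ∫ y, (w y : ℂ) * (g i y * conj (g j y)) ∂μ) *ᵥ c) =
      ((∫ y, w y * ‖∑ j, conj (c j) * g j y‖ ^ 2 ∂μ : ℝ) : ℂ) := by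
  rw [← integral_complex_ofReal]
  have h1 : ∀ y, ((w y * ‖∑ j, conj (c j) * g j y‖ ^ 2 : ℝ) : ℂ) =
      ∑ i, ∑ j, conj (c i) * c j * ((w y : ℂ) * (g i y * conj (g j y))) := by
    intro y
    push_cast
    rw [← Complex.mul_conj', map_sum, Finset.sum_mul_sum, Finset.mul_sum]
    refine Finset.sum_congr rfl (fun i _ => ?_)
    rw [Finset.mul_sum]
    refine Finset.sum_congr rfl (fun j _ => ?_)
    rw [map_mul, Complex.conj_conj]
    ring
  simp_rw [h1]
  rw [integral_finsetSum _ (fun i _ => integrable_finsetSum _ fun j _ => (hint i j).const_mul _)]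
  rw [dotProduct]
  refine Finset.sum_congr rfl (fun i _ => ?_)
  rw [integral_finsetSum _ (fun j _ => (hint i j).const_mul _), mulVec, dotProduct,
    Finset.mul_sum]
  refine Finset.sum_congr rfl (fun j _ => ?_)
  rw [integral_const_mul, Matrix.of_apply, Pi.star_apply]
  show conj (c i) * _ = _
  ring

theorem kin_quad {N : ℕ} (c : Fin N → ℂ) (g : Fin N → Fin 3 → V3 → ℂ)
    (hint : ∀ k i j, Integrable (fun y => g i k y * conj (g j k y))) :
    star c ⬝ᵥ (kinM g *ᵥ c) = ((∑ k, ∫ y, ‖∑ j, conj (c j) * g j k y‖ ^ 2 : ℝ) : ℂ) := by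
  have h1 : kinM g = ∑ k, (Matrix.of fun i j =>
      ∫ y, (((1 : ℝ)) : ℂ) * (g i k y * conj (g j k y)) : Matrix (Fin N) (Fin N) ℂ) := by
    ext i j
    rw [Matrix.sum_apply]
    simp [kinM]
  rw [h1, Matrix.sum_mulVec, dotProduct_sum]
  push_cast
  refine Finset.sum_congr rfl (fun k _ => ?_)
  have h2 := quad (μ := (volume : Measure V3)) c (fun _ => (1 : ℝ)) (fun j => g j k) (by
    intro i j
    simpa using hint k i j)
  simp only [one_mul] at h2
  exact h2

theorem pot_quad {N : ℕ} (c : Fin N → ℂ) (U : V3 → ℝ) (ψ : Fin N → V3 → ℂ)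
    (hint : ∀ i j, Integrable (fun y => (U y : ℂ) * (ψ i y * conj (ψ j y)))) :
    star c ⬝ᵥ (potM U ψ *ᵥ c) = ((∫ y, U y * ‖∑ j, conj (c j) * ψ j y‖ ^ 2 : ℝ) : ℂ) :=
  quad (μ := (volume : Measure V3)) c U ψ hint

theorem int_test {f g : V3 → ℂ} (hf : Continuous f) (hfs : HasCompactSupport f)
    (hg : Continuous g) : Integrable (fun y => f y * conj (g y)) := by
  refine (hf.mul (Complex.continuous_conj.comp hg)).integrable_of_hasCompactSupport ?_
  exact hfs.mul_right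

theorem pd_cont {f : V3 → ℂ} (hf : TestFn 3 f) (k : Fin 3) :
    Continuous (pd3 k f) ∧ HasCompactSupport (pd3 k f) := by
  refine ⟨?_, ?_⟩
  · have := hf.1.continuous_fderiv (by norm_num : (∞ : WithTop ℕ∞) ≠ 0)
    exact this.clm_apply continuous_const
  · exact hf.2.fderiv_apply (𝕜 := ℝ) (Pi.single k 1)

theorem pd_sum {N : ℕ} {f : Fin N → V3 → ℂ} (hf : ∀ j, TestFn 3 (f j)) (c : Fin N → ℂ) (k : Fin 3)
    (x : V3) : pd3 k (fun x => ∑ j, c j * f j x) x = ∑ j, c j * pd3 k (f j) x := by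
  have hd : ∀ j, HasFDerivAt (f j) (fderiv ℝ (f j) x) x := fun j =>
    ((hf j).1.differentiable (by norm_num : (∞ : WithTop ℕ∞) ≠ 0) x).hasFDerivAt
  have h1 : HasFDerivAt (fun x => ∑ j, c j * f j x) (∑ j, c j • fderiv ℝ (f j) x) x :=
    HasFDerivAt.fun_sum fun j _ => (hd j).const_mul (c j)
  unfold pd3
  rw [h1.fderiv]
  simp

theorem sum_xk {N K : ℕ} (c : Fin N → ℂ) (k : Fin K) (v : Fin N × Fin K → ℂ) :
    ∑ p, conj (xk c k p) * v p = ∑ j, conj (c j) * v (j, k) := by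
  classical
  rw [Fintype.sum_prod_type]
  refine Finset.sum_congr rfl (fun j _ => ?_)
  rw [Finset.sum_eq_single k]
  · simp [xk]
  · intro b _ hb
    simp [xk, hb]
  · simp

theorem col_quad {ι : Type*} [Fintype ι] {m : ℕ} (B : Matrix ι (Fin m) ℂ) (H : Matrix ι ι ℂ)
    (i : Fin m) : (Bᴴ * H * B) i i = star (fun p => B p i) ⬝ᵥ (H *ᵥ fun p => B p i) := by
  rw [Matrix.mul_assoc, Matrix.mul_apply']
  rfl

end ASA

open ASA in
theorem asa : ASA_Stmt := by
  intro hRDW hANG hCHN hENR hCNT hKN1 hMTX N f U hf hU hPD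
  have hπ := Real.pi_pos
  obtain ⟨-, hWm, hW0, ⟨B, hWB⟩, hWs, hWint⟩ := hRDW U hU
  obtain ⟨L, hL⟩ : ∃ L : ℕ, ∀ t, Wf U t ≤ ((L : ℝ) + 1 / 2) ^ 2 := by
    obtain ⟨L, hL⟩ := exists_nat_ge B
    refine ⟨L, fun t => (hWB t).trans (hL.trans ?_)⟩
    have : (0 : ℝ) ≤ L := Nat.cast_nonneg _
    nlinarith
  obtain ⟨e, he, hBG⟩ := hANG
  obtain ⟨hBess, hGap⟩ := hBG L
  have hu : ∀ p : Fin N × Fin (L ^ 2), IsH1v (ch (f p.1) (e p.2)) (ch' (f p.1) (e p.2)) :=
    fun p => hCHN.1 _ (hf p.1) _ (he _)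
  obtain ⟨hG, hH, hker, hquad, hBGB⟩ := hMTX N (L ^ 2) (fun p => ch (f p.1) (e p.2))
    (fun p => ch' (f p.1) (e p.2)) (Wf U) hu hWm hW0 ⟨B, hWB⟩ _ _ rfl rfl
  set G : Matrix (Fin N × Fin (L ^ 2)) (Fin N × Fin (L ^ 2)) ℂ :=
    Matrix.of (fun p q => ∫ t, ch (f p.1) (e p.2) t * conj (ch (f q.1) (e q.2) t)) with hGdef
  set H : Matrix (Fin N × Fin (L ^ 2)) (Fin N × Fin (L ^ 2)) ℂ :=
    Matrix.of (fun p q => (∫ t, ch' (f p.1) (e p.2) t * conj (ch' (f q.1) (e q.2) t)) -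
      ∫ t, (Wf U t : ℂ) * (ch (f p.1) (e p.2) t * conj (ch (f q.1) (e q.2) t))) with hHdef
  have key : (N : ℝ) ≤ 4 * (4 / (3 * √3 * Real.pi) * ∫ t, Wf U t ^ ((3 : ℝ) / 2)) := by
    refine hCNT N (L ^ 2) G H (fun k => (((k : ℕ).sqrt : ℝ) + 1 / 2)) _ hG hH hker ?_ ?_ ?_ ?_
    · intro k
      positivity
    · intro κ hκ
      exact count L κ hκ
    · intro c hc
      -- the function `f_c`
      set fc : V3 → ℂ := fun x => ∑ j, conj (c j) * f j x with hfc
      obtain ⟨hfcA, hfcch⟩ := hCHN.2 N f (fun j => conj (c j)) hf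
      have e1 : ∀ k : Fin (L ^ 2), (star (xk c k) ⬝ᵥ
          ((H + (((((k : ℕ).sqrt : ℝ) + 1 / 2) ^ 2 : ℝ) : ℂ) • G) *ᵥ xk c k)).re =
          (∫ t, ‖ch' fc (e k) t‖ ^ 2) - (∫ t, Wf U t * ‖ch fc (e k) t‖ ^ 2) +
            (((k : ℕ).sqrt : ℝ) + 1 / 2) ^ 2 * ∫ t, ‖ch fc (e k) t‖ ^ 2 := by
        intro k
        obtain ⟨-, q1, q2⟩ := hquad (xk c k)
        have s1 : ∀ t, ∑ p, conj (xk c k p) * ch (f p.1) (e p.2) t = ch fc (e k) t := by
          intro t
          rw [sum_xk c k (fun p => ch (f p.1) (e p.2) t)]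
          exact ((hfcch (e k) (he k) t).1).symm
        have s2 : ∀ t, ∑ p, conj (xk c k p) * ch' (f p.1) (e p.2) t = ch' fc (e k) t := by
          intro t
          rw [sum_xk c k (fun p => ch' (f p.1) (e p.2) t)]
          exact ((hfcch (e k) (he k) t).2).symm
        simp_rw [s1] at q1 q2
        simp_rw [s2] at q2
        rw [Matrix.add_mulVec, Matrix.smul_mulVec, dotProduct_add, dotProduct_smul, q1, q2,
          smul_eq_mul, ← Complex.ofReal_mul, ← Complex.ofReal_add, Complex.ofReal_re]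
      have e2 : ∑ k : Fin (L ^ 2), (star (xk c k) ⬝ᵥ
          ((H + (((((k : ℕ).sqrt : ℝ) + 1 / 2) ^ 2 : ℝ) : ℂ) • G) *ᵥ xk c k)).re =
          ∑ k ∈ range (L ^ 2), ((∫ t, ‖ch' fc (e k) t‖ ^ 2) -
            (∫ t, Wf U t * ‖ch fc (e k) t‖ ^ 2) +
            ((k.sqrt : ℝ) + 1 / 2) ^ 2 * ∫ t, ‖ch fc (e k) t‖ ^ 2) := by
        rw [Finset.sum_range]
        exact Finset.sum_congr rfl fun k _ => e1 k
      show ∑ k : Fin (L ^ 2), (star (xk c k) ⬝ᵥ
          ((H + (((((k : ℕ).sqrt : ℝ) + 1 / 2) ^ 2 : ℝ) : ℂ) • G) *ᵥ xk c k)).re < 0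
      rw [e2]
      refine lt_of_le_of_lt (hENR fc hfcA U hU e he L hBess hGap hL) ?_
      -- the matrix side
      have t1 : ∀ k i j, Integrable (fun y => (grd (f i)) k y * conj ((grd (f j)) k y)) := by
        intro k i j
        exact int_test (pd_cont (hf i).1 k).1 (pd_cont (hf i).1 k).2 (pd_cont (hf j).1 k).1
      obtain ⟨BU, hBU⟩ := hU.bdd
      have t2 : ∀ i j, Integrable (fun y => (U y : ℂ) * (f i y * conj (f j y))) := by
        intro i j
        have i1 := int_test (hf i).1.1.continuous (hf i).1.2 (hf j).1.1.continuous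
        have i2 : AEStronglyMeasurable (fun y => (U y : ℂ)) (volume : Measure V3) :=
          Complex.continuous_ofReal.comp_aestronglyMeasurable hU.meas
        refine i1.bdd_mul i2 (c := BU) (Filter.Eventually.of_forall fun y => ?_)
        rw [Complex.norm_real, Real.norm_eq_abs, abs_of_nonneg (hU.nonneg y)]
        exact hBU y
      have q1 := kin_quad c (fun j => grd (f j)) t1
      have q2 := pot_quad c U f t2
      have q3 := hPD.re_dotProduct_pos hc
      rw [Matrix.sub_mulVec, dotProduct_sub, q1, q2, ← Complex.ofReal_sub] at q3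
      have q4 : (0 : ℝ) < (∫ y, U y * ‖∑ j, conj (c j) * f j y‖ ^ 2) -
          ∑ k, ∫ y, ‖∑ j, conj (c j) * grd (f j) k y‖ ^ 2 := by
        simpa using q3
      have q5 : ∀ k, ∫ y, ‖∑ j, conj (c j) * grd (f j) k y‖ ^ 2 = ∫ y, ‖pd3 k fc y‖ ^ 2 := by
        intro k
        congr 1
        funext y
        rw [hfc, pd_sum (fun j => (hf j).1) (fun j => conj (c j)) k y]
        rfl
      simp_rw [q5] at q4
      linarith
    · intro m Bm μ hB1 hB2
      have o1 : ∀ i, IsH1v (fun t => ∑ p : Fin N × Fin (L ^ 2),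
          conj (Bm p i) * ch (f p.1) (e p.2) t)
          (fun t => ∑ p : Fin N × Fin (L ^ 2), conj (Bm p i) * ch' (f p.1) (e p.2) t) :=
        fun i => (hquad (fun p => Bm p i)).1
      have o2 : ∀ i j, ∫ t, (∑ p : Fin N × Fin (L ^ 2), conj (Bm p i) * ch (f p.1) (e p.2) t) *
          conj (∑ p : Fin N × Fin (L ^ 2), conj (Bm p j) * ch (f p.1) (e p.2) t) =
          if i = j then 1 else 0 := by
        intro i j
        rw [← hBGB m Bm i j, hB1, Matrix.one_apply]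
      have o3 : ∀ i, -μ i = (∫ t, Wf U t *
          ‖∑ p : Fin N × Fin (L ^ 2), conj (Bm p i) * ch (f p.1) (e p.2) t‖ ^ 2) -
          ∫ t, ‖∑ p : Fin N × Fin (L ^ 2), conj (Bm p i) * ch' (f p.1) (e p.2) t‖ ^ 2 := by
        intro i
        have r1 := (hquad (fun p => Bm p i)).2.2
        rw [← col_quad Bm H i, hB2, Matrix.diagonal_apply_eq] at r1
        have r2 := Complex.ofReal_injective r1
        linarith
      rw [Finset.sum_congr rfl fun i _ => o3 i]
      exact hKN1 m _ _ (Wf U) o1 o2 hWm hW0 ⟨B, hWB⟩ hWs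
  have hfin : 4 * (4 / (3 * √3 * Real.pi) * ∫ t, Wf U t ^ ((3 : ℝ) / 2)) =
      C0 * ∫ x, U x ^ ((3 : ℝ) / 2) := by
    rw [← hWint, C0]
    have h3 : (√3 : ℝ) ≠ 0 := by positivity
    field_simp
  rw [← hfin]
  exact key

end Pool.Agent.RC
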