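import Pool.Agent.RC.Base

/-!
# CHN: channel functions are in `H¹(ℝ)`; linearity
-/

set_option autoImplicit false

namespace Pool.Agent.RC

open MeasureTheory Matrix Finset Filter Topology
open scoped ComplexConjugate ComplexOrder ContDiff
open Pool.Agent.LT (TestFn IsH1v)

namespace CHN

lemma diff_of {f : V3 → ℂ} (hf : ContDiff ℝ ∞ f) : Differentiable ℝ f :=
  hf.differentiable (by simp)

lemma cont_pd3 {f : V3 → ℂ} (hf : ContDiff ℝ ∞ f) (k : Fin 3) : Continuous (pd3 k f) :=
  (hf.continuous_fderiv (by simp)).clm_apply continuous_const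

/-- The directional derivative. -/
lemma fderiv_sum (f : V3 → ℂ) (y v : V3) : fderiv ℝ f y v = ∑ k, (v k : ℂ) * pd3 k f y := by
  have h : v = ∑ k, v k • (Pi.single k (1 : ℝ) : V3) := by
    ext i
    simp [Finset.sum_apply, Pi.single_apply]
  conv_lhs => rw [h]
  rw [map_sum]
  refine Finset.sum_congr rfl fun k _ => ?_
  rw [map_smul, Complex.real_smul]
  rfl

lemma hasDerivAt_fl {f : V3 → ℂ} (hf : ContDiff ℝ ∞ f) (x : V3) (t : ℝ) :
    HasDerivAt (fun t => fl f t x) (fl' f t x) t := by
  have h1 : HasDerivAt (fun t : ℝ => Real.exp t • x) (Real.exp t • x) t :=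
    (Real.hasDerivAt_exp t).smul_const x
  have h2 : HasDerivAt (fun t : ℝ => f (Real.exp t • x))
      (fderiv ℝ f (Real.exp t • x) (Real.exp t • x)) t :=
    ((diff_of hf).differentiableAt.hasFDerivAt).comp_hasDerivAt t h1
  have h3 : HasDerivAt (fun t : ℝ => Real.exp (t / 2)) (Real.exp (t / 2) * (1 / 2)) t :=
    ((hasDerivAt_id t).div_const 2).exp
  have h4 : HasDerivAt (fun t : ℝ => ((Real.exp (t / 2) : ℝ) : ℂ))
      ((Real.exp (t / 2) * (1 / 2) : ℝ) : ℂ) t := h3.ofReal_comp
  have h5 := h4.mul h2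
  refine h5.congr_deriv ?_
  rw [fderiv_sum]
  unfold fl'
  simp only [Pi.smul_apply, smul_eq_mul]
  push_cast
  ring

/-- Joint continuity. -/
lemma cont_fl {f : V3 → ℂ} (hf : ContDiff ℝ ∞ f) : Continuous (fun p : ℝ × V3 => fl f p.1 p.2) := by
  unfold fl
  have h1 : Continuous (fun p : ℝ × V3 => Real.exp p.1 • p.2) := by fun_prop
  have h2 := hf.continuous.comp h1
  have h3 : Continuous (fun p : ℝ × V3 => ((Real.exp (p.1 / 2) : ℝ) : ℂ)) := by fun_prop
  exact h3.mul h2

lemma cont_fl' {f : V3 → ℂ} (hf : ContDiff ℝ ∞ f) :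
    Continuous (fun p : ℝ × V3 => fl' f p.1 p.2) := by
  unfold fl'
  have h1 : Continuous (fun p : ℝ × V3 => Real.exp p.1 • p.2) := by fun_prop
  have h2 := hf.continuous.comp h1
  have h3 : Continuous (fun p : ℝ × V3 => ((Real.exp (p.1 / 2) : ℝ) : ℂ)) := by fun_prop
  refine h3.mul ((continuous_const.mul h2).add ?_)
  refine continuous_finsetSum _ fun k _ => ?_
  have h4 : Continuous (fun p : ℝ × V3 => ((Real.exp p.1 * p.2 k : ℝ) : ℂ)) := by fun_prop
  exact h4.mul ((cont_pd3 hf k).comp h1)

lemma nsq_exp (t : ℝ) (s : S2) : nsq (Real.exp t • om s) = Real.exp (2 * t) := nsq_pol t s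

/-- Vanishing for large `|t|`. -/
lemma vanish {f : V3 → ℂ} (hf : A0 f) : ∃ T : ℝ, ∀ t, T < |t| → ∀ s : S2,
    fl f t (om s) = 0 ∧ fl' f t (om s) = 0 := by
  obtain ⟨⟨hf1, hf2⟩, ε, hε, hf3⟩ := hf
  have hcn : Continuous nsq := by unfold nsq; fun_prop
  obtain ⟨R, hR⟩ : ∃ R, ∀ x ∈ tsupport f, nsq x ≤ R := by
    obtain ⟨R, hR⟩ := (IsCompact.bddAbove_image hf2 hcn.continuousOn)
    exact ⟨R, fun x hx => hR ⟨x, hx, rfl⟩⟩
  -- vanishing of the function and of its derivative
  have key : ∀ t, (Real.exp (2 * t) < ε ∨ R < Real.exp (2 * t)) → ∀ s : S2,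
      f (Real.exp t • om s) = 0 ∧ ∀ k, pd3 k f (Real.exp t • om s) = 0 := by
    intro t ht s
    have hev : f =ᶠ[𝓝 (Real.exp t • om s)] fun _ => 0 := by
      rcases ht with ht | ht
      · have : {x | nsq x < ε} ∈ 𝓝 (Real.exp t • om s) :=
          (isOpen_lt hcn continuous_const).mem_nhds (by
            change nsq (Real.exp t • om s) < ε
            rw [nsq_exp]
            exact ht)
        filter_upwards [this] with x hx using hf3 x hx
      · have : {x | R < nsq x} ∈ 𝓝 (Real.exp t • om s) :=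
          (isOpen_lt continuous_const hcn).mem_nhds (by
            change R < nsq (Real.exp t • om s)
            rw [nsq_exp]
            exact ht)
        filter_upwards [this] with x hx
        by_contra h0
        exact absurd (hR x (subset_tsupport f h0)) (not_le.2 hx)
    refine ⟨hev.eq_of_nhds, fun k => ?_⟩
    unfold pd3
    rw [hev.fderiv_eq]
    simp
  refine ⟨max (-Real.log ε) (Real.log (max R 1)) + 1, fun t ht s => ?_⟩
  have hcase : Real.exp (2 * t) < ε ∨ R < Real.exp (2 * t) := by
    rcases lt_or_ge t 0 with h0 | h0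
    · left
      rw [abs_of_neg h0] at ht
      have h1 : -Real.log ε < -t := by
        have := le_max_left (-Real.log ε) (Real.log (max R 1))
        linarith
      have h2 : 2 * t < Real.log ε := by linarith
      calc Real.exp (2 * t) < Real.exp (Real.log ε) := Real.exp_lt_exp.2 h2
        _ = ε := Real.exp_log hε
    · right
      rw [abs_of_nonneg h0] at ht
      have h1 : Real.log (max R 1) < t := by
        have := le_max_right (-Real.log ε) (Real.log (max R 1))
        linarith
      have hp : (0 : ℝ) < max R 1 := lt_of_lt_of_le one_pos (le_max_right _ _)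
      calc R ≤ max R 1 := le_max_left _ _
        _ = Real.exp (Real.log (max R 1)) := (Real.exp_log hp).symm
        _ < Real.exp (2 * t) := Real.exp_lt_exp.2 (by linarith)
  obtain ⟨h1, h2⟩ := key t hcase s
  constructor
  · unfold fl; rw [h1, mul_zero]
  · unfold fl'
    rw [h1]
    simp [h2]

/-- A continuous function on `ℝ × S²` that vanishes for large `|t|` is bounded. -/
lemma bdd_of {G : ℝ × S2 → ℂ} (hG : Continuous G) (T : ℝ) (hT : ∀ t, T < |t| → ∀ s, G (t, s) = 0) :
    ∃ C, ∀ p, ‖G p‖ ≤ C := by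
  have hcs : CompactSpace S2 := Metric.sphere.compactSpace _ _
  have hK : IsCompact (Set.Icc (-T) T ×ˢ (Set.univ : Set S2)) := isCompact_Icc.prod isCompact_univ
  obtain ⟨C, hC⟩ := hK.bddAbove_image hG.norm.continuousOn
  refine ⟨max C 0, fun p => ?_⟩
  by_cases h : T < |p.1|
  · have := hT p.1 h p.2
    rw [show G p = G (p.1, p.2) from rfl, this, norm_zero]
    exact le_max_right _ _
  · refine le_trans (hC ⟨p, ⟨?_, trivial⟩, rfl⟩) (le_max_left _ _)
    rw [Set.mem_Icc]
    exact abs_le.1 (not_lt.1 h)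

/-- Integration over the sphere. -/
lemma cont_int {G : ℝ × S2 → ℂ} (hG : Continuous G) (C : ℝ) (hC : ∀ p, ‖G p‖ ≤ C) :
    Continuous (fun t => ∫ s, G (t, s) ∂sig) := by
  refine continuous_of_dominated (bound := fun _ => C) ?_ ?_ (integrable_const C) ?_
  · intro t
    exact (int_sph (hG.comp (Continuous.prodMk_right t))).aestronglyMeasurable
  · intro t
    exact Eventually.of_forall fun s => hC (t, s)
  · exact Eventually.of_forall fun s => hG.comp (Continuous.prodMk_left s)

theorem h1v (f : V3 → ℂ) (hf : A0 f) (e : V3 → ℂ) (he : ContDiff ℝ ∞ e) :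
    IsH1v (ch f e) (ch' f e) := by
  obtain ⟨T, hT⟩ := vanish hf
  let G : ℝ × S2 → ℂ := fun p => fl f p.1 (om p.2) * conj (e (om p.2))
  let G' : ℝ × S2 → ℂ := fun p => fl' f p.1 (om p.2) * conj (e (om p.2))
  have hom : Continuous (fun p : ℝ × S2 => (p.1, om p.2)) :=
    continuous_fst.prodMk (continuous_om.comp continuous_snd)
  have hec : Continuous (fun p : ℝ × S2 => conj (e (om p.2))) :=
    Complex.continuous_conj.comp (he.continuous.comp (continuous_om.comp continuous_snd))
  have hG : Continuous G := ((cont_fl hf.1.1).comp hom).mul hec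
  have hG' : Continuous G' := ((cont_fl' hf.1.1).comp hom).mul hec
  have hGT : ∀ t, T < |t| → ∀ s, G (t, s) = 0 := by
    intro t ht s
    change fl f t (om s) * _ = 0
    rw [(hT t ht s).1, zero_mul]
  have hGT' : ∀ t, T < |t| → ∀ s, G' (t, s) = 0 := by
    intro t ht s
    change fl' f t (om s) * _ = 0
    rw [(hT t ht s).2, zero_mul]
  obtain ⟨C, hC⟩ := bdd_of hG T hGT
  obtain ⟨C', hC'⟩ := bdd_of hG' T hGT'
  have hch : ch f e = fun t => ∫ s, G (t, s) ∂sig := rfl
  have hch' : ch' f e = fun t => ∫ s, G' (t, s) ∂sig := rfl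
  have hc : Continuous (ch f e) := by rw [hch]; exact cont_int hG C hC
  have hc' : Continuous (ch' f e) := by rw [hch']; exact cont_int hG' C' hC'
  have hcs : HasCompactSupport (ch f e) := by
    refine HasCompactSupport.intro (isCompact_Icc (a := -T) (b := T)) fun t ht => ?_
    have h1 : T < |t| := by
      by_contra h
      exact ht (Set.mem_Icc.2 (abs_le.1 (not_lt.1 h)))
    rw [hch]
    simp [hGT t h1]
  have hcs' : HasCompactSupport (ch' f e) := by
    refine HasCompactSupport.intro (isCompact_Icc (a := -T) (b := T)) fun t ht => ?_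
    have h1 : T < |t| := by
      by_contra h
      exact ht (Set.mem_Icc.2 (abs_le.1 (not_lt.1 h)))
    rw [hch']
    simp [hGT' t h1]
  refine ⟨hc.memLp_of_hasCompactSupport hcs, hc'.memLp_of_hasCompactSupport hcs', ?_⟩
  intro a b
  have hder : ∀ t, HasDerivAt (ch f e) (ch' f e t) t := by
    intro t
    rw [hch]
    refine (hasDerivAt_integral_of_dominated_loc_of_deriv_le (F := fun t s => G (t, s))
      (F' := fun t s => G' (t, s)) (bound := fun _ => C') (s := Set.univ) Filter.univ_mem ?_ ?_ ?_ ?_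
      (integrable_const C') ?_).2
    · exact Eventually.of_forall fun t =>
        (int_sph (hG.comp (Continuous.prodMk_right t))).aestronglyMeasurable
    · exact int_sph (hG.comp (Continuous.prodMk_right t))
    · exact (int_sph (hG'.comp (Continuous.prodMk_right t))).aestronglyMeasurable
    · exact Eventually.of_forall fun s t _ => hC' (t, s)
    · exact Eventually.of_forall fun s t _ =>
        (hasDerivAt_fl hf.1.1 (om s) t).mul_const (conj (e (om s)))
  rw [intervalIntegral.integral_eq_sub_of_hasDerivAt (fun t _ => hder t)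
    (hc'.intervalIntegrable a b)]

/-! ### Linearity -/

theorem a0_sum (N : ℕ) (f : Fin N → V3 → ℂ) (c : Fin N → ℂ) (hf : ∀ j, A0 (f j)) :
    A0 (fun x => ∑ j, c j * f j x) := by
  refine ⟨⟨?_, ?_⟩, ?_⟩
  · exact ContDiff.sum fun j _ => contDiff_const.mul (hf j).1.1
  · refine HasCompactSupport.intro (K := ⋃ j, tsupport (f j))
      (isCompact_iUnion fun j => (hf j).1.2) fun x hx => ?_
    refine Finset.sum_eq_zero fun j _ => ?_
    have h1 : x ∉ tsupport (f j) := fun h => hx (Set.mem_iUnion.2 ⟨j, h⟩)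
    rw [image_eq_zero_of_notMem_tsupport h1, mul_zero]
  · choose ε hε hf3 using fun j => (hf j).2
    have h1 : ∀ᶠ δ : ℝ in 𝓝[>] 0, ∀ j, δ ≤ ε j := by
      rw [eventually_all]
      intro j
      exact eventually_nhdsWithin_of_eventually_nhds
        ((gt_mem_nhds (hε j)).mono fun δ hδ => le_of_lt hδ)
    obtain ⟨δ, hδ1, hδ2⟩ := (h1.and (self_mem_nhdsWithin)).exists
    refine ⟨δ, hδ2, fun x hx => ?_⟩
    refine Finset.sum_eq_zero fun j _ => ?_
    rw [hf3 j x (lt_of_lt_of_le hx (hδ1 j)), mul_zero]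

lemma pd3_sum (N : ℕ) (f : Fin N → V3 → ℂ) (c : Fin N → ℂ) (hf : ∀ j, A0 (f j)) (k : Fin 3)
    (x : V3) : pd3 k (fun x => ∑ j, c j * f j x) x = ∑ j, c j * pd3 k (f j) x := by
  unfold pd3
  have h1 : HasFDerivAt (fun x => ∑ j, c j * f j x) (∑ j, c j • fderiv ℝ (f j) x) x :=
    HasFDerivAt.fun_sum fun j _ =>
      ((diff_of (hf j).1.1).differentiableAt.hasFDerivAt).const_mul (c j)
  rw [h1.fderiv, _root_.sum_apply]
  rfl

theorem lin (N : ℕ) (f : Fin N → V3 → ℂ) (c : Fin N → ℂ) (hf : ∀ j, A0 (f j)) (e : V3 → ℂ)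
    (he : ContDiff ℝ ∞ e) (t : ℝ) :
    ch (fun x => ∑ j, c j * f j x) e t = ∑ j, c j * ch (f j) e t ∧
      ch' (fun x => ∑ j, c j * f j x) e t = ∑ j, c j * ch' (f j) e t := by
  have hct : ∀ j, Continuous (fl (f j) t) := fun j =>
    (cont_fl (hf j).1.1).comp (Continuous.prodMk_right t)
  have hct' : ∀ j, Continuous (fl' (f j) t) := fun j =>
    (cont_fl' (hf j).1.1).comp (Continuous.prodMk_right t)
  constructor
  · have h1 : fl (fun x => ∑ j, c j * f j x) t = fun x => ∑ j, c j * fl (f j) t x := by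
      funext x
      unfold fl
      rw [Finset.mul_sum]
      exact Finset.sum_congr rfl fun j _ => by ring
    unfold ch
    rw [h1, pr_sum_left (g := fun j x => c j * fl (f j) t x) _
      (fun j => continuous_const.mul (hct j)) he.continuous]
    exact Finset.sum_congr rfl fun j _ => pr_smul_left _ _ _
  · have h1 : fl' (fun x => ∑ j, c j * f j x) t = fun x => ∑ j, c j * fl' (f j) t x := by
      funext x
      unfold fl'
      simp only [pd3_sum N f c hf, Finset.mul_sum, mul_add]
      rw [Finset.sum_comm, ← Finset.sum_add_distrib]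
      refine Finset.sum_congr rfl fun j _ => ?_
      congr 1
      · ring
      · exact Finset.sum_congr rfl fun k _ => by ring
    unfold ch'
    rw [h1, pr_sum_left (g := fun j x => c j * fl' (f j) t x) _
      (fun j => continuous_const.mul (hct' j)) he.continuous]
    exact Finset.sum_congr rfl fun j _ => pr_smul_left _ _ _

end CHN

open CHN in
/-- CHN: channel functions are in `H¹(ℝ)`; linearity. -/
theorem chn : CHN_Stmt :=
  ⟨fun f hf e he => h1v f hf e he, fun N f c hf => ⟨a0_sum N f c hf,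
    fun e he t => lin N f c hf e he t⟩⟩

end Pool.Agent.RC
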