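import Pool.Agent.RC.Base

/-!
# Sharp CLR inequality for radial potentials in `ℝ³`: counting
-/

set_option autoImplicit false

namespace Pool.Agent.RC

open MeasureTheory Matrix Finset Filter Topology
open scoped ComplexConjugate ComplexOrder ContDiff

namespace CNT

theorem xk_add {N K : ℕ} (c d : Fin N → ℂ) (k : Fin K) : xk (c + d) k = xk c k + xk d k := by
  funext p
  simp only [xk, Pi.add_apply]
  split_ifs <;> simp

theorem xk_smul {N K : ℕ} (r : ℂ) (c : Fin N → ℂ) (k : Fin K) : xk (r • c) k = r • xk c k := by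
  funext p
  simp only [xk, Pi.smul_apply]
  split_ifs <;> simp

/-- The quadratic form in the coordinates `Bᴴ G x`. -/
theorem form {ι : Type} [Fintype ι] [DecidableEq ι] {m : ℕ} (G H : Matrix ι ι ℂ)
    (hG : G.IsHermitian) (B : Matrix ι (Fin m) ℂ) (μ : Fin m → ℝ) (h1 : G = G * B * Bᴴ * G)
    (h2 : H = G * B * Matrix.diagonal (fun i => (μ i : ℂ)) * Bᴴ * G) (a : ℝ) (x : ι → ℂ) :
    (star x ⬝ᵥ ((H + ((a ^ 2 : ℝ) : ℂ) • G) *ᵥ x)).re =
      ∑ i, (μ i + a ^ 2) * ‖(Bᴴ *ᵥ (G *ᵥ x)) i‖ ^ 2 := by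
  set y := Bᴴ *ᵥ (G *ᵥ x) with hy
  have hD : ∀ d : Fin m → ℂ, star x ⬝ᵥ ((G * B * Matrix.diagonal d * Bᴴ * G) *ᵥ x) =
      ∑ i, d i * ((‖y i‖ ^ 2 : ℝ) : ℂ) := by
    intro d
    have h3 : (G * B * Matrix.diagonal d * Bᴴ * G) *ᵥ x =
        (G * B) *ᵥ (Matrix.diagonal d *ᵥ y) := by
      rw [hy]
      simp only [Matrix.mulVec_mulVec, Matrix.mul_assoc]
    have h4 : star x ᵥ* (G * B) = star y := by
      rw [hy, Matrix.star_mulVec, Matrix.star_mulVec, Matrix.conjTranspose_conjTranspose,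
        Matrix.vecMul_vecMul, hG.eq]
    rw [h3, Matrix.dotProduct_mulVec, h4, dotProduct]
    refine Finset.sum_congr rfl (fun i _ => ?_)
    rw [Matrix.mulVec_diagonal, Pi.star_apply]
    have h5 : star (y i) * y i = ((‖y i‖ ^ 2 : ℝ) : ℂ) := by
      rw [Complex.star_def, Complex.conj_mul']
      push_cast
      rfl
    rw [← h5]
    ring
  have hGG : G = G * B * Matrix.diagonal (fun _ : Fin m => (1 : ℂ)) * Bᴴ * G := by
    rw [Matrix.diagonal_one, Matrix.mul_one]
    exact h1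
  have hA : star x ⬝ᵥ (G *ᵥ x) = ∑ i, (1 : ℂ) * ((‖y i‖ ^ 2 : ℝ) : ℂ) := by
    rw [← hD (fun _ => 1), ← hGG]
  have hB : star x ⬝ᵥ (H *ᵥ x) = ∑ i, (μ i : ℂ) * ((‖y i‖ ^ 2 : ℝ) : ℂ) := by
    rw [← hD (fun i => (μ i : ℂ)), ← h2]
  have hC : star x ⬝ᵥ ((H + ((a ^ 2 : ℝ) : ℂ) • G) *ᵥ x) =
      ((∑ i, (μ i + a ^ 2) * ‖y i‖ ^ 2 : ℝ) : ℂ) := by
    rw [Matrix.add_mulVec, Matrix.smul_mulVec, dotProduct_add, dotProduct_smul, hA, hB,
      smul_eq_mul, Finset.mul_sum, ← Finset.sum_add_distrib]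
    push_cast
    refine Finset.sum_congr rfl (fun i _ => ?_)
    ring
  rw [hC, Complex.ofReal_re]

/-- The number of pairs. -/
theorem count {m K : ℕ} (a : Fin K → ℝ) (μ : Fin m → ℝ) (ha : ∀ k, 0 < a k)
    (hc : ∀ κ : ℝ, 0 < κ → ((univ.filter fun k => a k < κ).card : ℝ) ≤ 4 * κ ^ 2) :
    ((univ.filter fun p : Fin m × Fin K => μ p.1 + a p.2 ^ 2 < 0).card : ℝ) ≤
      ∑ i ∈ univ.filter (fun i => μ i < 0), 4 * -μ i := by
  have h1 : (univ.filter fun p : Fin m × Fin K => μ p.1 + a p.2 ^ 2 < 0).card =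
      ∑ i : Fin m, (univ.filter fun k : Fin K => μ i + a k ^ 2 < 0).card := by
    simp only [Finset.card_filter]
    exact Fintype.sum_prod_type _
  rw [h1]
  push_cast
  rw [Finset.sum_filter]
  refine Finset.sum_le_sum (fun i _ => ?_)
  split_ifs with h
  · have h0 : 0 < -μ i := by linarith
    have h2 := hc (√(-μ i)) (Real.sqrt_pos.2 h0)
    rw [Real.sq_sqrt h0.le] at h2
    refine le_trans ?_ h2
    have h3 : (univ.filter fun k : Fin K => μ i + a k ^ 2 < 0) ⊆
        univ.filter fun k => a k < √(-μ i) := by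
      intro k hk
      rw [Finset.mem_filter] at hk ⊢
      refine ⟨hk.1, Real.lt_sqrt_of_sq_lt ?_⟩
      linarith [hk.2]
    exact_mod_cast Finset.card_le_card h3
  · have h3 : (univ.filter fun k : Fin K => μ i + a k ^ 2 < 0) = ∅ := by
      rw [Finset.filter_eq_empty_iff]
      intro k _ hk
      have := sq_nonneg (a k)
      exact h (by linarith)
    rw [h3]
    simp

end CNT

open CNT in
/-- CNT: counting. -/
theorem cnt (h : DGN_Stmt) : CNT_Stmt := by
  classical
  intro N K G H a Λ hG hH hker ha hc hneg hsup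
  obtain ⟨m, B, μ, hB1, hB2, hB3, hB4⟩ := h (Fin N × Fin K) G H hG hH hker
  set I := univ.filter (fun p : Fin m × Fin K => μ p.1 + a p.2 ^ 2 < 0) with hI
  -- the linear map
  let T : (Fin N → ℂ) →ₗ[ℂ] (I → ℂ) :=
    { toFun := fun c p => (Bᴴ *ᵥ (G *ᵥ xk c p.1.2)) p.1.1
      map_add' := by
        intro c d
        funext p
        simp only [xk_add, Matrix.mulVec_add, Pi.add_apply]
      map_smul' := by
        intro r c
        funext p
        simp only [xk_smul, Matrix.mulVec_smul, Pi.smul_apply, RingHom.id_apply] }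
  have hT : Function.Injective T := by
    rw [← LinearMap.ker_eq_bot, LinearMap.ker_eq_bot']
    intro c hTc
    by_contra hne
    have h1 := hneg c hne
    have h2 : 0 ≤ ∑ k, (star (xk c k) ⬝ᵥ ((H + ((a k ^ 2 : ℝ) : ℂ) • G) *ᵥ xk c k)).re := by
      refine Finset.sum_nonneg (fun k _ => ?_)
      rw [form G H hG.1 B μ hB3 hB4 (a k) (xk c k)]
      refine Finset.sum_nonneg (fun i _ => ?_)
      by_cases hik : μ i + a k ^ 2 < 0
      · have h3 : (⟨i, k⟩ : Fin m × Fin K) ∈ I := by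
          rw [hI, Finset.mem_filter]
          exact ⟨Finset.mem_univ _, hik⟩
        have h4 : (Bᴴ *ᵥ (G *ᵥ xk c k)) i = 0 := congrFun hTc ⟨⟨i, k⟩, h3⟩
        rw [h4]
        simp
      · exact mul_nonneg (not_lt.1 hik) (by positivity)
    linarith
  have hcard : N ≤ I.card := by
    have h1 := LinearMap.finrank_le_finrank_of_injective hT
    rw [Module.finrank_fintype_fun_eq_card, Module.finrank_fintype_fun_eq_card, Fintype.card_fin,
      Fintype.card_coe] at h1
    exact h1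
  have h2 := count a μ ha hc
  -- the submatrix
  set P := univ.filter (fun i => μ i < 0) with hP
  let e : Fin P.card → Fin m := fun j => (P.equivFin.symm j : Fin m)
  have he : Function.Injective e := by
    intro j j' hj
    exact P.equivFin.symm.injective (Subtype.ext hj)
  have h3 := hsup P.card (B.submatrix id e) (fun j => μ (e j)) (by
    have : (B.submatrix id e)ᴴ * G * B.submatrix id e = (Bᴴ * G * B).submatrix e e := by
      ext i j
      simp [Matrix.mul_apply]
    rw [this, hB1]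
    exact Matrix.submatrix_one e he) (by
    have : (B.submatrix id e)ᴴ * H * B.submatrix id e = (Bᴴ * H * B).submatrix e e := by
      ext i j
      simp [Matrix.mul_apply]
    rw [this, hB2]
    exact Matrix.submatrix_diagonal _ e he)
  have h4 : ∑ j, -μ (e j) = ∑ i ∈ P, -μ i := by
    rw [← Finset.sum_coe_sort P (fun i => -μ i)]
    exact Equiv.sum_comp P.equivFin.symm (fun i : P => -μ i)
  rw [h4] at h3
  have h5 : (N : ℝ) ≤ (I.card : ℝ) := by exact_mod_cast hcard
  rw [← Finset.mul_sum] at h2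
  linarith

end Pool.Agent.RC
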