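import Pool.Agent.RC.Base

/-!
# Cutoffs near the origin (module CUT of MP_4c716f_mp)
-/

set_option autoImplicit false

namespace Pool.Agent.RC

open MeasureTheory Matrix Finset Filter Topology
open scoped ComplexConjugate ComplexOrder ContDiff
open Pool.Agent.LT (TestFn)

namespace CUT

/-- a bump function -/
noncomputable def bmp : ContDiffBump (0 : V3) := ⟨1, 2, one_pos, one_lt_two⟩

/-- its complex valued version -/
noncomputable def bc (x : V3) : ℂ := ((bmp x : ℝ) : ℂ)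

theorem bc_smooth : ContDiff ℝ ∞ bc := Complex.ofRealCLM.contDiff.comp bmp.contDiff

theorem bc_supp : HasCompactSupport bc :=
  bmp.hasCompactSupport.comp_left (g := fun a : ℝ => (a : ℂ)) Complex.ofReal_zero

theorem bc_one {x : V3} (h : ‖x‖ ≤ 1) : bc x = 1 := by
  unfold bc
  rw [bmp.one_of_mem_closedBall (by rw [mem_closedBall_zero_iff]; exact h), Complex.ofReal_one]

theorem bc_zero {x : V3} (h : 2 ≤ ‖x‖) : bc x = 0 := by
  unfold bc
  rw [bmp.zero_of_le_dist (by rw [dist_zero_right]; exact h), Complex.ofReal_zero]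

/-- the cut function -/
noncomputable def cf (n : ℕ) (f : V3 → ℂ) (x : V3) : ℂ := (1 - bc (((n : ℝ) + 1) • x)) * f x

theorem cf_test (n : ℕ) {f : V3 → ℂ} (hf : TestFn 3 f) : TestFn 3 (cf n f) := by
  refine ⟨?_, ?_⟩
  · refine (contDiff_const.sub ?_).mul hf.1
    exact bc_smooth.comp (contDiff_const_smul _)
  · exact hf.2.mul_left

theorem norm_sq_le (x : V3) : ‖x‖ ^ 2 ≤ nsq x := by
  obtain ⟨i, hi⟩ : ∃ i, ‖x‖ ≤ ‖x i‖ := by
    by_contra hcon
    push Not at hcon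
    have h0 : 0 < ‖x‖ := (norm_nonneg _).trans_lt (hcon 0)
    exact lt_irrefl _ ((pi_norm_lt_iff h0).2 hcon)
  calc ‖x‖ ^ 2 ≤ ‖x i‖ ^ 2 := by gcongr
    _ = x i ^ 2 := by rw [Real.norm_eq_abs, sq_abs]
    _ ≤ nsq x := Finset.single_le_sum (f := fun i => x i ^ 2) (fun i _ => sq_nonneg _)
        (mem_univ i)

theorem nsq_le (x : V3) : nsq x ≤ 3 * ‖x‖ ^ 2 := by
  unfold nsq
  calc ∑ i, x i ^ 2 ≤ ∑ _i : Fin 3, ‖x‖ ^ 2 := by
        refine Finset.sum_le_sum fun i _ => ?_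
        have h := norm_le_pi_norm x i
        rw [Real.norm_eq_abs] at h
        rw [← sq_abs]
        gcongr
    _ = 3 * ‖x‖ ^ 2 := by simp

theorem cf_A0 (n : ℕ) {f : V3 → ℂ} (hf : TestFn 3 f) : A0 (cf n f) := by
  refine ⟨cf_test n hf, (1 / ((n : ℝ) + 1)) ^ 2, by positivity, fun x hx => ?_⟩
  have hn : (0 : ℝ) < (n : ℝ) + 1 := by positivity
  have h1 : ‖x‖ ^ 2 < (1 / ((n : ℝ) + 1)) ^ 2 := (norm_sq_le x).trans_lt hx
  have h2 : ‖x‖ < 1 / ((n : ℝ) + 1) := lt_of_pow_lt_pow_left₀ 2 (by positivity) h1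
  have h3 : ‖((n : ℝ) + 1) • x‖ ≤ 1 := by
    rw [norm_smul, Real.norm_of_nonneg hn.le]
    rw [lt_div_iff₀ hn] at h2
    linarith [mul_comm ‖x‖ ((n : ℝ) + 1)]
  unfold cf
  rw [bc_one h3, sub_self, zero_mul]

theorem pd_cf (n : ℕ) {f : V3 → ℂ} (hf : ContDiff ℝ ∞ f) (k : Fin 3) (x : V3) :
    pd3 k f x - pd3 k (cf n f) x = bc (((n : ℝ) + 1) • x) * pd3 k f x +
      (((n : ℝ) + 1 : ℝ) : ℂ) * pd3 k bc (((n : ℝ) + 1) • x) * f x := by
  set N : ℝ := (n : ℝ) + 1 with hN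
  have hb : DifferentiableAt ℝ bc (N • x) := (bc_smooth.differentiable (by simp)).differentiableAt
  have hf1 : HasFDerivAt f (fderiv ℝ f x) x :=
    ((hf.differentiable (by simp)).differentiableAt).hasFDerivAt
  have h1 : HasFDerivAt (fun x : V3 => N • x) (N • ContinuousLinearMap.id ℝ V3) x :=
    (hasFDerivAt_id x).const_smul N
  have h2 : HasFDerivAt (fun x : V3 => bc (N • x))
      ((fderiv ℝ bc (N • x)).comp (N • ContinuousLinearMap.id ℝ V3)) x := hb.hasFDerivAt.comp x h1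
  have h3 := (h2.const_sub 1).mul hf1
  have h4 : fderiv ℝ (cf n f) x = _ := h3.fderiv
  unfold pd3
  rw [h4]
  simp
  ring

theorem bdd_supp {g : V3 → ℂ} (hg : Continuous g) (hs : HasCompactSupport g) :
    ∃ B : ℝ, 0 ≤ B ∧ ∀ x, ‖g x‖ ≤ B := by
  obtain ⟨B, hB⟩ := hs.exists_bound_of_continuous hg
  exact ⟨B, (norm_nonneg _).trans (hB 0), hB⟩

theorem pd_cont {g : V3 → ℂ} (hg : ContDiff ℝ ∞ g) (k : Fin 3) : Continuous (pd3 k g) :=
  (hg.continuous_fderiv (by simp)).clm_apply continuous_const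

theorem pd_supp {g : V3 → ℂ} (hg : HasCompactSupport g) (k : Fin 3) :
    HasCompactSupport (pd3 k g) :=
  (hg.fderiv (𝕜 := ℝ)).comp_left (g := fun L : V3 →L[ℝ] ℂ => L (Pi.single k 1)) (by simp)

theorem int_sq {g : V3 → ℂ} (hg : Continuous g) (hs : HasCompactSupport g) :
    Integrable (fun x => ‖g x‖ ^ 2) (volume : Measure V3) :=
  (hg.memLp_of_hasCompactSupport hs (p := 2)).integrable_norm_pow (by norm_num)

theorem est {f : V3 → ℂ} (hf : TestFn 3 f) (k : Fin 3) :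
    ∃ C : ℝ, 0 ≤ C ∧ ∀ n : ℕ, ∫ x, ‖pd3 k f x - pd3 k (cf n f) x‖ ^ 2 ≤ C / ((n : ℝ) + 1) := by
  obtain ⟨A, hA0, hA⟩ := bdd_supp (pd_cont hf.1 k) (pd_supp hf.2 k)
  obtain ⟨B, hB0, hB⟩ := bdd_supp hf.1.continuous hf.2
  set I1 : ℝ := ∫ x, ‖bc x‖ ^ 2 with hI1
  set I2 : ℝ := ∫ x, ‖pd3 k bc x‖ ^ 2 with hI2
  have hI1' : 0 ≤ I1 := integral_nonneg fun x => by positivity
  have hI2' : 0 ≤ I2 := integral_nonneg fun x => by positivity
  have i1 := int_sq bc_smooth.continuous bc_supp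
  have i2 := int_sq (pd_cont bc_smooth k) (pd_supp bc_supp k)
  refine ⟨2 * A ^ 2 * I1 + 2 * B ^ 2 * I2, by positivity, fun n => ?_⟩
  have hn : (0 : ℝ) < (n : ℝ) + 1 := by positivity
  have hn1 : (1 : ℝ) ≤ (n : ℝ) + 1 := by linarith [(Nat.cast_nonneg n : (0 : ℝ) ≤ n)]
  set N : ℝ := (n : ℝ) + 1 with hN
  have c1 : ∫ x : V3, ‖bc (N • x)‖ ^ 2 = (N ^ 3)⁻¹ * I1 := by
    have h := Measure.integral_comp_smul (volume : Measure V3) (fun x => ‖bc x‖ ^ 2) N
    rw [h, smul_eq_mul]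
    congr 1
    rw [abs_of_pos (by positivity)]
    simp
  have c2 : ∫ x : V3, ‖pd3 k bc (N • x)‖ ^ 2 = (N ^ 3)⁻¹ * I2 := by
    have h := Measure.integral_comp_smul (volume : Measure V3) (fun x => ‖pd3 k bc x‖ ^ 2) N
    rw [h, smul_eq_mul]
    congr 1
    rw [abs_of_pos (by positivity)]
    simp
  have j1 : Integrable (fun x : V3 => ‖bc (N • x)‖ ^ 2) volume :=
    i1.comp_smul hn.ne'
  have j2 : Integrable (fun x : V3 => ‖pd3 k bc (N • x)‖ ^ 2) volume :=
    i2.comp_smul hn.ne'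
  have hpt : ∀ x, ‖pd3 k f x - pd3 k (cf n f) x‖ ^ 2 ≤
      2 * A ^ 2 * ‖bc (N • x)‖ ^ 2 + 2 * (N ^ 2 * B ^ 2) * ‖pd3 k bc (N • x)‖ ^ 2 := by
    intro x
    rw [pd_cf n hf.1 k x]
    have h1 : ‖bc (N • x) * pd3 k f x + ((N : ℝ) : ℂ) * pd3 k bc (N • x) * f x‖ ≤
        ‖bc (N • x)‖ * A + N * ‖pd3 k bc (N • x)‖ * B := by
      refine (norm_add_le _ _).trans (add_le_add ?_ ?_)
      · rw [norm_mul]
        exact mul_le_mul_of_nonneg_left (hA x) (norm_nonneg _)
      · rw [norm_mul, norm_mul, Complex.norm_real, Real.norm_of_nonneg hn.le]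
        exact mul_le_mul_of_nonneg_left (hB x) (by positivity)
    calc ‖bc (N • x) * pd3 k f x + ((N : ℝ) : ℂ) * pd3 k bc (N • x) * f x‖ ^ 2
        ≤ (‖bc (N • x)‖ * A + N * ‖pd3 k bc (N • x)‖ * B) ^ 2 := by gcongr
      _ ≤ _ := by
        nlinarith [sq_nonneg (‖bc (N • x)‖ * A - N * ‖pd3 k bc (N • x)‖ * B)]
  calc ∫ x, ‖pd3 k f x - pd3 k (cf n f) x‖ ^ 2
      ≤ ∫ x, (2 * A ^ 2 * ‖bc (N • x)‖ ^ 2 +
          2 * (N ^ 2 * B ^ 2) * ‖pd3 k bc (N • x)‖ ^ 2) := by
        refine integral_mono_of_nonneg (Eventually.of_forall fun x => by positivity) ?_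
          (Eventually.of_forall hpt)
        exact (j1.const_mul _).add (j2.const_mul _)
    _ = 2 * A ^ 2 * ((N ^ 3)⁻¹ * I1) + 2 * (N ^ 2 * B ^ 2) * ((N ^ 3)⁻¹ * I2) := by
        rw [integral_add (j1.const_mul _) (j2.const_mul _), integral_const_mul,
          integral_const_mul, c1, c2]
    _ ≤ (2 * A ^ 2 * I1 + 2 * B ^ 2 * I2) / N := by
        have e1 : 2 * A ^ 2 * ((N ^ 3)⁻¹ * I1) + 2 * (N ^ 2 * B ^ 2) * ((N ^ 3)⁻¹ * I2) =
            2 * A ^ 2 * I1 / N ^ 3 + 2 * B ^ 2 * I2 / N := by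
          field_simp
        rw [e1, add_div]
        have e2 : N ≤ N ^ 3 := by nlinarith [sq_nonneg N]
        have : 2 * A ^ 2 * I1 / N ^ 3 ≤ 2 * A ^ 2 * I1 / N := by
          gcongr
        linarith

theorem potM_herm {N : ℕ} (U : V3 → ℝ) (f : Fin N → V3 → ℂ) : (potM U f).IsHermitian := by
  ext i j
  simp only [potM, conjTranspose_apply, of_apply]
  rw [RCLike.star_def, ← integral_conj]
  refine integral_congr_ae (Eventually.of_forall fun y => ?_)
  simp [mul_comm]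

theorem kinM_herm {N : ℕ} (g : Fin N → Fin 3 → V3 → ℂ) : (kinM g).IsHermitian := by
  ext i j
  simp only [kinM, conjTranspose_apply, of_apply]
  rw [RCLike.star_def, map_sum]
  refine Finset.sum_congr rfl fun k _ => ?_
  rw [← integral_conj]
  refine integral_congr_ae (Eventually.of_forall fun y => ?_)
  simp [mul_comm]

end CUT

open CUT

/-- Level A implies level T. -/
theorem cut : CUT_Stmt := by
  intro hA N f U hf hU hpd
  -- the potential matrices are eventually constant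
  have hP : ∀ i j, Tendsto (fun n => potM U (fun l => cf n (f l)) i j) atTop
      (𝓝 (potM U f i j)) := by
    intro i j
    obtain ⟨ε, R, hε, hsupp⟩ := hU.supp
    obtain ⟨n0, hn0⟩ := exists_nat_gt (12 / ε)
    refine tendsto_const_nhds.congr' ?_
    filter_upwards [eventually_ge_atTop n0] with n hn
    simp only [potM, of_apply]
    refine integral_congr_ae (Eventually.of_forall fun x => ?_)
    by_cases hx : U x = 0
    · simp [hx]
    · have h1 := (hsupp x hx).1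
      have h2 := h1.trans (nsq_le x)
      have h3 : 2 ≤ ‖((n : ℝ) + 1) • x‖ := by
        have hn1 : (n0 : ℝ) ≤ n := by exact_mod_cast hn
        have hnn : (0 : ℝ) < (n : ℝ) + 1 := by positivity
        rw [norm_smul, Real.norm_of_nonneg hnn.le]
        have h4 : 12 / ε < (n : ℝ) + 1 := by linarith
        rw [div_lt_iff₀ hε] at h4
        have h5 : (1 : ℝ) ≤ (n : ℝ) + 1 := by linarith [(Nat.cast_nonneg n : (0 : ℝ) ≤ n)]
        have h6 : (2 : ℝ) ^ 2 ≤ (((n : ℝ) + 1) * ‖x‖) ^ 2 := by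
          have h7 : ((n : ℝ) + 1) * ε ≤ ((n : ℝ) + 1) * (3 * ‖x‖ ^ 2) :=
            mul_le_mul_of_nonneg_left h2 hnn.le
          have h8 : ((n : ℝ) + 1) * ‖x‖ ^ 2 ≤ (((n : ℝ) + 1) * ‖x‖) ^ 2 := by
            rw [mul_pow]
            refine mul_le_mul_of_nonneg_right ?_ (by positivity)
            nlinarith
          linarith
        exact (pow_le_pow_iff_left₀ (by norm_num) (by positivity) two_ne_zero).1 h6
      simp only [cf, bc_zero h3, sub_zero, one_mul]
  -- the kinetic matrices converge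
  have hK : ∀ i j, Tendsto (fun n => kinM (fun l => grd (cf n (f l))) i j) atTop
      (𝓝 (kinM (fun l => grd (f l)) i j)) := by
    intro i j
    simp only [kinM, of_apply, grd]
    refine tendsto_finsetSum _ fun k _ => ?_
    obtain ⟨Ci, hCi0, hCi⟩ := est (hf i) k
    obtain ⟨Cj, hCj0, hCj⟩ := est (hf j) k
    have hlim : Tendsto (fun n : ℕ => (Ci + Cj) / ((n : ℝ) + 1)) atTop (𝓝 0) := by
      have := (tendsto_one_div_add_atTop_nhds_zero_nat (𝕜 := ℝ)).const_mul (Ci + Cj)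
      simp only [mul_zero, mul_one_div] at this
      exact this
    refine LT.kinH1_inner (LT.kinH1_testFn_deriv_memLp (hf i) k)
      (LT.kinH1_testFn_deriv_memLp (hf j) k)
      (fun n => LT.kinH1_testFn_deriv_memLp (cf_test n (hf i)) k)
      (fun n => LT.kinH1_testFn_deriv_memLp (cf_test n (hf j)) k) (fun n => ?_) (fun n => ?_) hlim
    · refine (hCi n).trans ?_
      gcongr
      linarith
    · refine (hCj n).trans ?_
      gcongr
      linarith
  have hev := posDef_eventually hpd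
    (M := fun n => potM U (fun l => cf n (f l)) - kinM (fun l => grd (cf n (f l))))
    (fun n => (potM_herm _ _).sub (kinM_herm _)) (fun i j => by
      simp only [Matrix.sub_apply]
      exact (hP i j).sub (hK i j))
  obtain ⟨n, hn⟩ := hev.exists
  exact hA N (fun l => cf n (f l)) U (fun l => cf_A0 n (hf l)) hU hn

end Pool.Agent.RC
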