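import Pool.Agent.RC.Base

/-!
# Sharp CLR inequality for radial potentials in `ℝ³`: module DGN
(MP_4c716f_mp; architect: helper86). Simultaneous diagonalisation of a semidefinite and a
Hermitian form. See PAPER.md in this folder.
-/

set_option autoImplicit false

namespace Pool.Agent.RC

open Matrix
open scoped ComplexOrder

namespace DGN

/-- Spectral theorem in the form `Uᴴ U = 1`, `A = U D Uᴴ`. -/
theorem spec {κ : Type} [Fintype κ] [DecidableEq κ] (A : Matrix κ κ ℂ) (hA : A.IsHermitian) :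
    ∃ (U : Matrix κ κ ℂ), Uᴴ * U = 1 ∧ U * Uᴴ = 1 ∧
      A = U * Matrix.diagonal (fun i => (hA.eigenvalues i : ℂ)) * Uᴴ := by
  refine ⟨hA.eigenvectorUnitary, ?_, ?_, ?_⟩
  · exact Unitary.coe_star_mul_self hA.eigenvectorUnitary
  · exact Unitary.coe_mul_star_self hA.eigenvectorUnitary
  · conv_lhs => rw [hA.spectral_theorem, Unitary.conjStarAlgAut_apply]
    rfl

/-- Real diagonal matrices over `ℂ`. -/
noncomputable def dg {κ : Type} [DecidableEq κ] (μ : κ → ℝ) : Matrix κ κ ℂ :=
  Matrix.diagonal (fun i => (μ i : ℂ))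

theorem mul_eq_zero_of_ker {ι κ : Type} [Fintype ι] [Fintype κ] [DecidableEq κ]
    (G H : Matrix ι ι ℂ) (hk : ∀ x, G *ᵥ x = 0 → H *ᵥ x = 0) (X : Matrix ι κ ℂ)
    (hX : G * X = 0) : H * X = 0 := by
  ext i j
  have h1 : G *ᵥ (fun p => X p j) = 0 := by
    ext p
    have := congrFun (congrFun hX p) j
    simpa [Matrix.mul_apply, Matrix.mulVec, dotProduct] using this
  have h2 := congrFun (hk _ h1) i
  simpa [Matrix.mul_apply, Matrix.mulVec, dotProduct] using h2

/-- The statement with an arbitrary index type. -/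
theorem main {ι : Type} [Fintype ι] [DecidableEq ι] (G H : Matrix ι ι ℂ) (hG : G.PosSemidef)
    (hH : H.IsHermitian) (hk : ∀ x, G *ᵥ x = 0 → H *ᵥ x = 0) :
    ∃ (J : Type) (_ : Fintype J) (_ : DecidableEq J) (B : Matrix ι J ℂ) (μ : J → ℝ),
      Bᴴ * G * B = 1 ∧ Bᴴ * H * B = dg μ ∧ G = G * (B * Bᴴ) * G ∧
      H = G * (B * dg μ * Bᴴ) * G := by
  obtain ⟨U, hU1, hU2, hU⟩ := spec G hG.1
  set lam : ι → ℝ := hG.1.eigenvalues with hlam
  have hlam0 : ∀ i, 0 ≤ lam i := fun i => hG.eigenvalues_nonneg i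
  let J : Type := {i : ι // lam i ≠ 0}
  let r : ι → ℂ := fun i => ((√(lam i))⁻¹ : ℝ)
  -- B0 = U restricted to the columns with non zero eigenvalue, scaled
  let B0 : Matrix ι J ℂ := Matrix.of fun p j => U p j.1 * r j.1
  let E : Matrix ι J ℂ := Matrix.of fun p j => if p = j.1 then r j.1 else 0
  have hB0 : B0 = U * E := by
    ext p j
    simp only [B0, E, Matrix.of_apply, Matrix.mul_apply]
    simp
  have hconj : ∀ i, (starRingEnd ℂ) (r i) = r i := fun i => Complex.conj_ofReal _
  have hr : ∀ j : J, r j.1 * (lam j.1 : ℂ) * r j.1 = 1 := by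
    intro j
    have h1 : 0 < lam j.1 := lt_of_le_of_ne (hlam0 _) (Ne.symm j.2)
    have h2 : (√(lam j.1))⁻¹ * lam j.1 * (√(lam j.1))⁻¹ = 1 := by
      have h3 := Real.mul_self_sqrt h1.le
      have h4 : √(lam j.1) ≠ 0 := (Real.sqrt_pos.2 h1).ne'
      field_simp
      nlinarith
    simp only [r]
    exact_mod_cast h2
  have hEGE : Eᴴ * Matrix.diagonal (fun i => (lam i : ℂ)) * E = 1 := by
    ext j k
    simp only [E, Matrix.mul_apply, Matrix.conjTranspose_apply, Matrix.of_apply,
      Matrix.diagonal_apply, Matrix.one_apply]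
    by_cases hjk : j = k
    · subst hjk
      simp [hconj, hr j]
    · have : (j.1 : ι) ≠ k.1 := fun h => hjk (Subtype.ext h)
      simp [hjk, this, Ne.symm this]
  have h1 : B0ᴴ * G * B0 = 1 := by
    rw [hB0, hU, Matrix.conjTranspose_mul]
    calc Eᴴ * Uᴴ * (U * Matrix.diagonal (fun i => (lam i : ℂ)) * Uᴴ) * (U * E)
        = Eᴴ * (Uᴴ * U) * Matrix.diagonal (fun i => (lam i : ℂ)) * (Uᴴ * U) * E := by
          simp only [Matrix.mul_assoc]
      _ = 1 := by rw [hU1]; simp [hEGE]
  let P : Matrix ι ι ℂ := B0 * B0ᴴ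
  have hPh : Pᴴ = P := by simp [P]
  have hGPG : G * P * G = G := by
    have h2 : Matrix.diagonal (fun i => (lam i : ℂ)) * (E * Eᴴ) *
        Matrix.diagonal (fun i => (lam i : ℂ)) = Matrix.diagonal (fun i => (lam i : ℂ)) := by
      ext p q
      rw [Matrix.mul_diagonal, Matrix.diagonal_mul, Matrix.diagonal_apply]
      have h3 : (E * Eᴴ) p q = if p = q then (if lam p = 0 then 0 else r p * r p) else 0 := by
        simp only [E, Matrix.mul_apply, Matrix.conjTranspose_apply, Matrix.of_apply]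
        by_cases hpq : p = q
        · subst hpq
          by_cases hp : lam p = 0
          · rw [Finset.sum_eq_zero]
            · simp [hp]
            · intro j _
              have : p ≠ j.1 := fun h => j.2 (h ▸ hp)
              simp [this]
          · rw [Finset.sum_eq_single (⟨p, hp⟩ : J)]
            · simp [hp, hconj]
            · intro j _ hj
              have : p ≠ j.1 := fun h => hj (Subtype.ext h.symm)
              simp [this]
            · intro h; exact absurd (Finset.mem_univ _) h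
        · rw [Finset.sum_eq_zero]
          · simp [hpq]
          · intro j _
            by_cases h : p = j.1
            · have : q ≠ j.1 := fun h' => hpq (h.trans h'.symm)
              simp [this]
            · simp [h]
      rw [h3]
      by_cases hpq : p = q
      · subst hpq
        by_cases hp : lam p = 0
        · simp [hp]
        · have := hr ⟨p, hp⟩
          simp only [if_true, if_neg hp]
          linear_combination (lam p : ℂ) * this
      · simp [hpq]
    simp only [P]
    rw [hB0, Matrix.conjTranspose_mul]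
    calc G * (U * E * (Eᴴ * Uᴴ)) * G
        = U * Matrix.diagonal (fun i => (lam i : ℂ)) * Uᴴ * (U * E * (Eᴴ * Uᴴ)) *
          (U * Matrix.diagonal (fun i => (lam i : ℂ)) * Uᴴ) := by rw [← hU]
      _ = U * (Matrix.diagonal (fun i => (lam i : ℂ)) * (Uᴴ * U) * (E * Eᴴ) * (Uᴴ * U) *
          Matrix.diagonal (fun i => (lam i : ℂ))) * Uᴴ := by simp only [Matrix.mul_assoc]
      _ = U * Matrix.diagonal (fun i => (lam i : ℂ)) * Uᴴ := by
          rw [hU1, Matrix.mul_one, Matrix.mul_one, h2]
      _ = G := hU.symm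
  have hHPG : H * P * G = H := by
    have h2 : G * (1 - P * G) = 0 := by
      rw [Matrix.mul_sub, Matrix.mul_one, ← Matrix.mul_assoc, hGPG, sub_self]
    have h3 := mul_eq_zero_of_ker G H hk _ h2
    rw [Matrix.mul_sub, Matrix.mul_one, sub_eq_zero, ← Matrix.mul_assoc] at h3
    exact h3.symm
  have hGPH : G * P * H = H := by
    have h2 := congrArg Matrix.conjTranspose hHPG
    rw [Matrix.conjTranspose_mul, Matrix.conjTranspose_mul, hPh, hG.1.eq, hH.eq] at h2
    rw [← Matrix.mul_assoc] at h2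
    exact h2
  have hH0 : (B0ᴴ * H * B0).IsHermitian := by
    unfold Matrix.IsHermitian
    rw [Matrix.conjTranspose_mul, Matrix.conjTranspose_mul, Matrix.conjTranspose_conjTranspose,
      hH.eq, Matrix.mul_assoc]
  obtain ⟨V, hV1, hV2, hV⟩ := spec (B0ᴴ * H * B0) hH0
  refine ⟨J, inferInstance, inferInstance, B0 * V, hH0.eigenvalues, ?_, ?_, ?_, ?_⟩
  · rw [Matrix.conjTranspose_mul]
    calc Vᴴ * B0ᴴ * G * (B0 * V) = Vᴴ * (B0ᴴ * G * B0) * V := by simp only [Matrix.mul_assoc]
      _ = 1 := by rw [h1, Matrix.mul_one, hV1]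
  · rw [Matrix.conjTranspose_mul]
    calc Vᴴ * B0ᴴ * H * (B0 * V) = Vᴴ * (B0ᴴ * H * B0) * V := by simp only [Matrix.mul_assoc]
      _ = Vᴴ * (V * Matrix.diagonal (fun i => (hH0.eigenvalues i : ℂ)) * Vᴴ) * V := by rw [← hV]
      _ = (Vᴴ * V) * Matrix.diagonal (fun i => (hH0.eigenvalues i : ℂ)) * (Vᴴ * V) := by
          simp only [Matrix.mul_assoc]
      _ = dg hH0.eigenvalues := by rw [hV1, Matrix.one_mul, Matrix.mul_one]; rfl
  · rw [Matrix.conjTranspose_mul]
    calc G = G * P * G := hGPG.symm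
      _ = G * (B0 * (V * Vᴴ) * B0ᴴ) * G := by rw [hV2, Matrix.mul_one]
      _ = G * (B0 * V * (Vᴴ * B0ᴴ)) * G := by simp only [Matrix.mul_assoc]
  · rw [Matrix.conjTranspose_mul]
    calc H = G * P * H := hGPH.symm
      _ = G * P * (H * P * G) := by rw [hHPG]
      _ = G * (B0 * (B0ᴴ * H * B0) * B0ᴴ) * G := by simp only [P, Matrix.mul_assoc]
      _ = G * (B0 * (V * Matrix.diagonal (fun i => (hH0.eigenvalues i : ℂ)) * Vᴴ) * B0ᴴ) * G := by
          rw [← hV]
      _ = G * (B0 * V * dg hH0.eigenvalues * (Vᴴ * B0ᴴ)) * G := by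
          simp only [dg, Matrix.mul_assoc]

end DGN

theorem dgn : DGN_Stmt := by
  intro ι _ _ G H hG hH hk
  obtain ⟨J, _, _, B, μ, h1, h2, h3, h4⟩ := DGN.main G H hG hH hk
  let e : J ≃ Fin (Fintype.card J) := Fintype.equivFin J
  have hB : ∀ X : Matrix J J ℂ, B.submatrix id e.symm * X.submatrix e.symm e.symm *
      (B.submatrix id e.symm)ᴴ = B * X * Bᴴ := by
    intro X
    rw [Matrix.conjTranspose_submatrix, Matrix.submatrix_mul_equiv, Matrix.submatrix_mul_equiv,
      Matrix.submatrix_id_id]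
  have hA : ∀ A : Matrix ι ι ℂ, (B.submatrix id e.symm)ᴴ * A * B.submatrix id e.symm =
      (Bᴴ * A * B).submatrix e.symm e.symm := by
    intro A
    ext i j
    simp [Matrix.mul_apply, Matrix.submatrix_apply]
  have hd : Matrix.diagonal (fun i => ((μ (e.symm i) : ℝ) : ℂ)) =
      (DGN.dg μ).submatrix e.symm e.symm := by
    rw [DGN.dg, Matrix.submatrix_diagonal_equiv]
    rfl
  refine ⟨Fintype.card J, B.submatrix id e.symm, fun i => μ (e.symm i), ?_, ?_, ?_, ?_⟩
  · rw [hA, h1, Matrix.submatrix_one_equiv]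
  · rw [hA, h2, hd]
  · have h5 := hB 1
    rw [Matrix.submatrix_one_equiv, Matrix.mul_one, Matrix.mul_one] at h5
    calc G = G * (B * Bᴴ) * G := h3
      _ = G * (B.submatrix id e.symm * (B.submatrix id e.symm)ᴴ) * G := by rw [h5]
      _ = _ := by simp only [Matrix.mul_assoc]
  · have h5 := hB (DGN.dg μ)
    rw [hd]
    calc H = G * (B * DGN.dg μ * Bᴴ) * G := h4
      _ = G * (B.submatrix id e.symm * (DGN.dg μ).submatrix e.symm e.symm *
        (B.submatrix id e.symm)ᴴ) * G := by rw [h5]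
      _ = _ := by simp only [Matrix.mul_assoc]

end Pool.Agent.RC
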