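import Pool.Agent.RC.Base

/-!
# RC, module DIM: polynomials on the sphere are spanned by `M^2` of them
-/

set_option autoImplicit false

namespace Pool.Agent.RC

open MeasureTheory Matrix Finset Filter Topology
open scoped ComplexConjugate ComplexOrder ContDiff

namespace DIM

/-- The exponent of `X0^a X1^b X2^c`. -/
noncomputable def ex (a b c : ℕ) : Fin 3 →₀ ℕ :=
  Finsupp.equivFunOnFinite.symm ![a, b, c]

/-- The monomial `X0^a X1^b X2^c`. -/
noncomputable def mon (a b c : ℕ) : MvPolynomial (Fin 3) ℂ := MvPolynomial.monomial (ex a b c) 1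

theorem evp_mon (a b c : ℕ) (x : V3) :
    evp (mon a b c) x = (x 0 : ℂ) ^ a * (x 1 : ℂ) ^ b * (x 2 : ℂ) ^ c := by
  unfold evp mon
  rw [MvPolynomial.eval_monomial, Finsupp.prod_fintype _ _ (fun i => pow_zero _)]
  simp [Fin.prod_univ_three, ex]

theorem degLt_mon {a b c M : ℕ} (h : a + b + c < M) : DegLt M (mon a b c) := by
  intro m hm
  have h1 : m ∈ ({ex a b c} : Finset (Fin 3 →₀ ℕ)) := MvPolynomial.support_monomial_subset hm
  rw [Finset.mem_singleton] at h1
  subst h1
  simpa [Fin.sum_univ_three, ex] using h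

/-- The spanning sequence. -/
noncomputable def bb (n : ℕ) : MvPolynomial (Fin 3) ℂ :=
  if n - n.sqrt * n.sqrt ≤ n.sqrt then
    mon (n - n.sqrt * n.sqrt) (n.sqrt - (n - n.sqrt * n.sqrt)) 0
  else
    mon (n - n.sqrt * n.sqrt - n.sqrt - 1) (2 * n.sqrt - (n - n.sqrt * n.sqrt)) 1

theorem degLt_bb {M n : ℕ} (h : n < M ^ 2) : DegLt M (bb n) := by
  have h1 : n.sqrt < M := Nat.sqrt_lt'.mpr h
  have h2 : n ≤ n.sqrt * n.sqrt + n.sqrt + n.sqrt := Nat.sqrt_le_add n
  unfold bb
  set d := n.sqrt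
  split_ifs with h3
  · apply degLt_mon
    omega
  · apply degLt_mon
    omega

/-- The functions on the sphere which are combinations of the first `M^2` ones. -/
def Sp (M : ℕ) (g : S2 → ℂ) : Prop :=
  ∃ c : ℕ → ℂ, ∀ s, g s = ∑ n ∈ range (M ^ 2), c n * evp (bb n) (om s)

theorem Sp.add {M : ℕ} {g h : S2 → ℂ} (hg : Sp M g) (hh : Sp M h) :
    Sp M (fun s => g s + h s) := by
  obtain ⟨c, hc⟩ := hg
  obtain ⟨c', hc'⟩ := hh
  refine ⟨fun n => c n + c' n, fun s => ?_⟩
  beta_reduce
  rw [hc, hc', ← Finset.sum_add_distrib]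
  exact Finset.sum_congr rfl fun n _ => by ring

theorem Sp.smul {M : ℕ} {g : S2 → ℂ} (a : ℂ) (hg : Sp M g) : Sp M (fun s => a * g s) := by
  obtain ⟨c, hc⟩ := hg
  refine ⟨fun n => a * c n, fun s => ?_⟩
  beta_reduce
  rw [hc, Finset.mul_sum]
  exact Finset.sum_congr rfl fun n _ => by ring

theorem Sp.zero {M : ℕ} : Sp M (fun _ => 0) := ⟨fun _ => 0, fun s => by simp⟩

theorem Sp.sum {M : ℕ} {ι : Type*} (A : Finset ι) {g : ι → S2 → ℂ} (hg : ∀ i ∈ A, Sp M (g i)) :
    Sp M (fun s => ∑ i ∈ A, g i s) := by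
  classical
  induction A using Finset.induction_on with
  | empty => simpa using Sp.zero
  | insert i A hi ih =>
      have h1 := ih (fun j hj => hg j (Finset.mem_insert_of_mem hj))
      have h2 := hg i (Finset.mem_insert_self i A)
      have h3 := h2.add h1
      simpa [Finset.sum_insert hi] using h3

theorem Sp.bb {M n : ℕ} (h : n < M ^ 2) : Sp M (fun s => evp (bb n) (om s)) := by
  classical
  refine ⟨fun k => if k = n then 1 else 0, fun s => ?_⟩
  simp only [ite_mul, one_mul, zero_mul]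
  rw [Finset.sum_ite_eq' (range (M ^ 2)) n, if_pos (Finset.mem_range.2 h)]

theorem sph (s : S2) : (om s 2 : ℂ) ^ 2 = 1 - (om s 0 : ℂ) ^ 2 - (om s 1 : ℂ) ^ 2 := by
  have h := nsq_om s
  unfold nsq at h
  rw [Fin.sum_univ_three] at h
  have h1 : om s 2 ^ 2 = 1 - om s 0 ^ 2 - om s 1 ^ 2 := by linarith
  exact_mod_cast h1

theorem mon_mem (M : ℕ) : ∀ c a b : ℕ, a + b + c < M →
    Sp M (fun s => (om s 0 : ℂ) ^ a * (om s 1 : ℂ) ^ b * (om s 2 : ℂ) ^ c) := by
  intro c
  induction c using Nat.strong_induction_on with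
  | _ c ih =>
    intro a b h
    rcases Nat.lt_or_ge c 2 with hc | hc
    · have hM : ∀ d r : ℕ, d < M → r ≤ 2 * d → d * d + r < M ^ 2 := by
        intro d r hd hr
        have h1 : d + 1 ≤ M := hd
        have h2 : (d + 1) * (d + 1) ≤ M * M := Nat.mul_le_mul h1 h1
        rw [pow_two]
        nlinarith
      interval_cases c
      · have h1 := Sp.bb (M := M) (n := (a + b) * (a + b) + a) (hM _ _ (by omega) (by omega))
        have h2 : Nat.sqrt ((a + b) * (a + b) + a) = a + b := Nat.sqrt_add_eq _ (by omega)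
        have h3 : bb ((a + b) * (a + b) + a) = mon a b 0 := by
          unfold DIM.bb
          rw [h2, Nat.add_sub_cancel_left, if_pos (by omega), Nat.add_sub_cancel_left]
        rw [h3] at h1
        simpa only [evp_mon] using h1
      · have h1 := Sp.bb (M := M) (n := (a + b + 1) * (a + b + 1) + (a + b + 1 + 1 + a))
          (hM _ _ (by omega) (by omega))
        have h2 : Nat.sqrt ((a + b + 1) * (a + b + 1) + (a + b + 1 + 1 + a)) = a + b + 1 :=
          Nat.sqrt_add_eq _ (by omega)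
        have h3 : bb ((a + b + 1) * (a + b + 1) + (a + b + 1 + 1 + a)) = mon a b 1 := by
          unfold DIM.bb
          rw [h2, Nat.add_sub_cancel_left, if_neg (by omega)]
          congr 1 <;> omega
        rw [h3] at h1
        simpa only [evp_mon] using h1
    · obtain ⟨k, rfl⟩ : ∃ k, c = k + 2 := ⟨c - 2, by omega⟩
      have h1 := ih k (by omega) a b (by omega)
      have h2 := ih k (by omega) (a + 2) b (by omega)
      have h3 := ih k (by omega) a (b + 2) (by omega)
      have h4 := (h1.add (h2.smul (-1))).add (h3.smul (-1))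
      have h5 : (fun s => (om s 0 : ℂ) ^ a * (om s 1 : ℂ) ^ b * (om s 2 : ℂ) ^ (k + 2)) =
          fun s => (om s 0 : ℂ) ^ a * (om s 1 : ℂ) ^ b * (om s 2 : ℂ) ^ k +
            -1 * ((om s 0 : ℂ) ^ (a + 2) * (om s 1 : ℂ) ^ b * (om s 2 : ℂ) ^ k) +
            -1 * ((om s 0 : ℂ) ^ a * (om s 1 : ℂ) ^ (b + 2) * (om s 2 : ℂ) ^ k) := by
        funext s
        rw [pow_add (om s 2 : ℂ) k 2, sph s]
        ring
      rw [h5]
      exact h4

end DIM

open DIM

theorem dim : DIM_Stmt := by
  refine ⟨bb, fun M n h => degLt_bb h, ?_⟩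
  intro M p hp
  have h1 : (fun s : S2 => evp p (om s)) = fun s => ∑ m ∈ p.support,
      p.coeff m * ((om s 0 : ℂ) ^ (m 0) * (om s 1 : ℂ) ^ (m 1) * (om s 2 : ℂ) ^ (m 2)) := by
    funext s
    unfold evp
    rw [MvPolynomial.eval_eq']
    exact Finset.sum_congr rfl fun m _ => by rw [Fin.prod_univ_three]
  have h2 : Sp M (fun s : S2 => evp p (om s)) := by
    rw [h1]
    refine Sp.sum _ fun m hm => Sp.smul _ ?_
    apply mon_mem
    have := hp m hm
    rwa [Fin.sum_univ_three] at this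
  exact h2

end Pool.Agent.RC
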