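import Pool.Agent.RC.Base

/-!
# Polynomials are dense in `L²` of the sphere
(MP_4c716f_mp; module DNS.) Stone-Weierstrass.
-/

set_option autoImplicit false

namespace Pool.Agent.RC

open MeasureTheory Matrix Finset Filter Topology
open scoped ComplexConjugate ComplexOrder ContDiff

namespace DNS

noncomputable instance cptS2 : CompactSpace S2 := Metric.sphere.compactSpace _ _

/-- The coordinate functions. -/
noncomputable def co (i : Fin 3) : C(S2, ℝ) :=
  ⟨fun s => om s i, (continuous_apply i).comp continuous_om⟩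

/-- Polynomials as functions on the sphere. -/
noncomputable def Ph : MvPolynomial (Fin 3) ℝ →ₐ[ℝ] C(S2, ℝ) := MvPolynomial.aeval co

theorem Ph_apply (q : MvPolynomial (Fin 3) ℝ) (s : S2) : Ph q s = MvPolynomial.eval (om s) q := by
  induction q using MvPolynomial.induction_on with
  | C a => simp [Ph]
  | add p q hp hq => rw [map_add, map_add, ContinuousMap.add_apply, hp, hq]
  | mul_X p i hp =>
    rw [map_mul, map_mul, ContinuousMap.mul_apply, hp, MvPolynomial.eval_X]
    congr 1
    simp [Ph, co]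

theorem sep : (Ph.range).SeparatesPoints := by
  intro s t hst
  have h : om s ≠ om t := by
    intro h
    refine hst (Subtype.ext ?_)
    ext i
    exact congrFun h i
  obtain ⟨i, hi⟩ := Function.ne_iff.1 h
  refine ⟨_, ⟨co i, ⟨MvPolynomial.X i, ?_⟩, rfl⟩, hi⟩
  simp [Ph]

theorem real_approx (f : S2 → ℝ) (hf : Continuous f) (δ : ℝ) (hδ : 0 < δ) :
    ∃ q : MvPolynomial (Fin 3) ℝ, ∀ s, |MvPolynomial.eval (om s) q - f s| < δ := by
  obtain ⟨⟨g, q, hq⟩, hg⟩ :=
    ContinuousMap.exists_mem_subalgebra_near_continuous_of_separatesPoints Ph.range sep f hf δ hδ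
  refine ⟨q, fun s => ?_⟩
  have h := hg s
  rw [Real.norm_eq_abs] at h
  rw [← Ph_apply]
  have h2 : (Ph q) = g := hq
  rw [h2]
  exact h

theorem evp_map (q : MvPolynomial (Fin 3) ℝ) (x : V3) :
    evp (MvPolynomial.map Complex.ofRealHom q) x = ((MvPolynomial.eval x q : ℝ) : ℂ) := by
  unfold evp
  induction q using MvPolynomial.induction_on with
  | C a => simp
  | add p q hp hq => rw [map_add, map_add, map_add, hp, hq]; push_cast; rfl
  | mul_X p i hp =>
    rw [map_mul, map_mul, map_mul, hp]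
    simp

end DNS

theorem dns : DNS_Stmt := by
  intro g hg ε hε
  set m : ℝ := sig.real Set.univ with hm
  have hm0 : 0 ≤ m := measureReal_nonneg
  set δ : ℝ := √(ε / (2 * (m + 1))) with hδdef
  have hδ : 0 < δ := Real.sqrt_pos.2 (by positivity)
  have hδ2 : δ ^ 2 = ε / (2 * (m + 1)) := Real.sq_sqrt (by positivity)
  obtain ⟨q₁, h1⟩ := DNS.real_approx (fun s => (g (om s)).re)
    (Complex.continuous_re.comp (hg.comp continuous_om)) δ hδ
  obtain ⟨q₂, h2⟩ := DNS.real_approx (fun s => (g (om s)).im)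
    (Complex.continuous_im.comp (hg.comp continuous_om)) δ hδ
  refine ⟨MvPolynomial.map Complex.ofRealHom q₁ +
    MvPolynomial.C Complex.I * MvPolynomial.map Complex.ofRealHom q₂, ?_⟩
  have hval : ∀ s : S2, evp (MvPolynomial.map Complex.ofRealHom q₁ +
      MvPolynomial.C Complex.I * MvPolynomial.map Complex.ofRealHom q₂) (om s)
      = ((MvPolynomial.eval (om s) q₁ : ℝ) : ℂ)
        + Complex.I * ((MvPolynomial.eval (om s) q₂ : ℝ) : ℂ) := by
    intro s
    rw [← DNS.evp_map, ← DNS.evp_map]
    simp [evp]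
  have hb : ∀ s : S2, ‖g (om s) - evp (MvPolynomial.map Complex.ofRealHom q₁ +
      MvPolynomial.C Complex.I * MvPolynomial.map Complex.ofRealHom q₂) (om s)‖ ^ 2
      ≤ 2 * δ ^ 2 := by
    intro s
    rw [hval, Complex.sq_norm, Complex.normSq_apply]
    have e1 : (g (om s) - (((MvPolynomial.eval (om s) q₁ : ℝ) : ℂ)
        + Complex.I * ((MvPolynomial.eval (om s) q₂ : ℝ) : ℂ))).re
        = (g (om s)).re - MvPolynomial.eval (om s) q₁ := by simp
    have e2 : (g (om s) - (((MvPolynomial.eval (om s) q₁ : ℝ) : ℂ)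
        + Complex.I * ((MvPolynomial.eval (om s) q₂ : ℝ) : ℂ))).im
        = (g (om s)).im - MvPolynomial.eval (om s) q₂ := by simp
    rw [e1, e2]
    have a1 := abs_lt.1 (h1 s)
    have a2 := abs_lt.1 (h2 s)
    nlinarith [a1.1, a1.2, a2.1, a2.2]
  have hfin : (∫ s, (2 * δ ^ 2 : ℝ) ∂sig) ≤ ε := by
    rw [integral_const, smul_eq_mul, ← hm, hδ2]
    have : m * (2 * (ε / (2 * (m + 1)))) = ε * (m / (m + 1)) := by
      field_simp
    rw [this]
    have h3 : m / (m + 1) ≤ 1 := by
      rw [div_le_one (by positivity)]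
      linarith
    calc ε * (m / (m + 1)) ≤ ε * 1 := mul_le_mul_of_nonneg_left h3 hε.le
      _ = ε := mul_one _
  refine le_trans (integral_mono_of_nonneg ?_ ?_ ?_) hfin
  · exact Eventually.of_forall fun s => by positivity
  · exact integrable_const _
  · exact Eventually.of_forall hb

end Pool.Agent.RC
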