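import Pool.Agent.RC.Base

/-!
# Sharp CLR inequality for radial potentials in `ℝ³`: lower bound of the form by channel forms
(MP_4c716f_mp; architect: helper86). See PAPER.md in this folder.
-/

set_option autoImplicit false

namespace Pool.Agent.RC

open MeasureTheory Matrix Finset Filter Topology
open scoped ComplexConjugate ComplexOrder ContDiff

namespace ENR

/-- The potential energy in logarithmic coordinates. -/
theorem pot_eq (h1 : POL_Stmt) (h2 : RDW_Stmt) {f : V3 → ℂ} (hf : A0 f) {U : V3 → ℝ}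
    (hU : RPot U) : ∫ x, U x * ‖f x‖ ^ 2 = ∫ t, Wf U t * ∫ s, ‖fl f t (om s)‖ ^ 2 ∂sig := by
  have hfc : Continuous f := hf.1.1.continuous
  have hi : Integrable (fun x => ‖f x‖ ^ 2) volume := by
    refine (hfc.norm.pow 2).integrable_of_hasCompactSupport ?_
    exact hf.1.2.norm.comp_left (g := fun r : ℝ => r ^ 2) (by norm_num)
  obtain ⟨B, hB⟩ := hU.bdd
  have hint : Integrable (fun x => U x * ‖f x‖ ^ 2) volume := by
    refine hi.bdd_mul (c := B) hU.meas (Eventually.of_forall fun x => ?_)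
    rw [Real.norm_eq_abs, abs_of_nonneg (hU.nonneg x)]
    exact hB x
  rw [(h1.2.1 ℝ _ hint).2]
  congr 1
  funext t
  rw [← integral_const_mul]
  congr 1
  funext s
  rw [← (h2 U hU).1 t s, smul_eq_mul]
  have e1 : ‖fl f t (om s)‖ ^ 2 = Real.exp t * ‖f (pol (t, s))‖ ^ 2 := by
    unfold fl pol
    rw [norm_mul, mul_pow, Complex.norm_real, Real.norm_eq_abs, sq_abs, ← Real.exp_nat_mul]
    congr 2
    push_cast
    ring
  rw [e1]
  have e2 : Real.exp (3 * t) = Real.exp (2 * t) * Real.exp t := by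
    rw [← Real.exp_add]
    congr 1
    ring
  rw [e2]
  ring

/-- The inequality for one `t`. -/
theorem pointwise {m : ℕ} (a b l : ℕ → ℝ) (P Q D W L : ℝ) (hl : ∀ k, l k = (k.sqrt : ℝ))
    (hb : ∑ k ∈ range m, b k ≤ Q) (ha : ∑ k ∈ range m, a k ≤ P)
    (hD : (∑ k ∈ range m, (l k * (l k + 1)) * a k) + L * (L + 1) * (P - ∑ k ∈ range m, a k) ≤ D)
    (hW : W ≤ (L + 1 / 2) ^ 2) :
    ∑ k ∈ range m, (b k - W * a k + (l k + 1 / 2) ^ 2 * a k) ≤ Q + 1 / 4 * P + D - W * P := by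
  have e1 : ∑ k ∈ range m, (b k - W * a k + (l k + 1 / 2) ^ 2 * a k) =
      (∑ k ∈ range m, b k) + (∑ k ∈ range m, (l k * (l k + 1)) * a k) +
        (1 / 4 - W) * ∑ k ∈ range m, a k := by
    rw [Finset.mul_sum, ← Finset.sum_add_distrib, ← Finset.sum_add_distrib]
    exact Finset.sum_congr rfl fun k _ => by ring
  rw [e1]
  have e2 : 0 ≤ ((L + 1 / 2) ^ 2 - W) * (P - ∑ k ∈ range m, a k) :=
    mul_nonneg (by linarith) (by linarith)
  nlinarith [e2]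

end ENR

open ENR in
theorem enr (h1 : POL_Stmt) (h2 : RDW_Stmt) (h3 : KPO_Stmt) (h4 : CHN_Stmt) : ENR_Stmt := by
  intro f hf U hU e he L hBe hGa hW
  obtain ⟨iP, iQ, iD, hreg, hkin⟩ := h3 f hf
  obtain ⟨-, hWm, hW0, ⟨B, hWB⟩, -, -⟩ := h2 U hU
  have hWmul : ∀ g : ℝ → ℝ, Integrable g volume → Integrable (fun t => Wf U t * g t) volume := by
    intro g hg
    refine hg.bdd_mul (c := B) hWm (Eventually.of_forall fun t => ?_)
    rw [Real.norm_eq_abs, abs_of_nonneg (hW0 t)]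
    exact hWB t
  have iu : ∀ k, Integrable (fun t => ‖ch f (e k) t‖ ^ 2) volume := fun k =>
    (h4.1 f hf (e k) (he k)).1.integrable_norm_pow (by norm_num)
  have iu' : ∀ k, Integrable (fun t => ‖ch' f (e k) t‖ ^ 2) volume := fun k =>
    (h4.1 f hf (e k) (he k)).2.1.integrable_norm_pow (by norm_num)
  have hpt : ∀ t, ∑ k ∈ range (L ^ 2), (‖ch' f (e k) t‖ ^ 2 - Wf U t * ‖ch f (e k) t‖ ^ 2 +
      ((k.sqrt : ℝ) + 1 / 2) ^ 2 * ‖ch f (e k) t‖ ^ 2) ≤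
      (∫ s, ‖fl' f t (om s)‖ ^ 2 ∂sig) + 1 / 4 * (∫ s, ‖fl f t (om s)‖ ^ 2 ∂sig) +
        (∑ i, ∫ s, ‖Dr i (fl f t) (om s)‖ ^ 2 ∂sig) -
          Wf U t * ∫ s, ‖fl f t (om s)‖ ^ 2 ∂sig := by
    intro t
    exact pointwise (fun k => ‖ch f (e k) t‖ ^ 2) (fun k => ‖ch' f (e k) t‖ ^ 2)
      (fun k => (k.sqrt : ℝ)) _ _ _ _ (L : ℝ) (fun k => rfl)
      (hBe _ (hreg t).2) (hBe _ (hreg t).1.continuous) (hGa _ (hreg t).1) (hW t)
  have i1 : ∀ k ∈ range (L ^ 2), Integrable (fun t => ‖ch' f (e k) t‖ ^ 2 -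
      Wf U t * ‖ch f (e k) t‖ ^ 2 + ((k.sqrt : ℝ) + 1 / 2) ^ 2 * ‖ch f (e k) t‖ ^ 2) volume :=
    fun k _ => ((iu' k).sub (hWmul _ (iu k))).add ((iu k).const_mul _)
  have i2 := ((iQ.add (iP.const_mul (1 / 4))).add iD).sub (hWmul _ iP)
  have hle := integral_mono (integrable_finsetSum _ i1) i2 hpt
  rw [integral_finsetSum _ i1] at hle
  have e1 : ∀ k, ∫ t, (‖ch' f (e k) t‖ ^ 2 - Wf U t * ‖ch f (e k) t‖ ^ 2 +
      ((k.sqrt : ℝ) + 1 / 2) ^ 2 * ‖ch f (e k) t‖ ^ 2) =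
      (∫ t, ‖ch' f (e k) t‖ ^ 2) - (∫ t, Wf U t * ‖ch f (e k) t‖ ^ 2) +
        ((k.sqrt : ℝ) + 1 / 2) ^ 2 * ∫ t, ‖ch f (e k) t‖ ^ 2 := by
    intro k
    have k1 := integral_add ((iu' k).sub (hWmul _ (iu k)))
      ((iu k).const_mul (((k.sqrt : ℝ) + 1 / 2) ^ 2))
    have k2 := integral_sub (iu' k) (hWmul _ (iu k))
    simp only [Pi.sub_apply] at k1 k2
    rw [k1, k2, integral_const_mul]
  simp only [e1] at hle
  refine hle.trans (le_of_eq ?_)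
  have k3 := integral_sub ((iQ.add (iP.const_mul (1 / 4))).add iD) (hWmul _ iP)
  have k4 := integral_add (iQ.add (iP.const_mul (1 / 4))) iD
  have k5 := integral_add iQ (iP.const_mul (1 / 4))
  simp only [Pi.add_apply] at k3 k4 k5
  have k6 : ∫ t, (((fun t => ∫ s, ‖fl' f t (om s)‖ ^ 2 ∂sig) t +
      1 / 4 * (fun t => ∫ s, ‖fl f t (om s)‖ ^ 2 ∂sig) t +
        (fun t => ∑ i, ∫ s, ‖Dr i (fl f t) (om s)‖ ^ 2 ∂sig) t) -
          Wf U t * (fun t => ∫ s, ‖fl f t (om s)‖ ^ 2 ∂sig) t) =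
      (∑ k, ∫ x, ‖pd3 k f x‖ ^ 2) - ∫ x, U x * ‖f x‖ ^ 2 := by
    rw [k3, k4, k5, integral_const_mul, hkin, pot_eq h1 h2 hf hU]
  exact k6

end Pool.Agent.RC
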