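import Pool.Agent.RC.Base

/-!
# GRS: Gram-Schmidt on the sphere
-/

set_option autoImplicit false

namespace Pool.Agent.RC

open MeasureTheory Matrix Finset Filter Topology
open scoped ComplexConjugate ComplexOrder ContDiff

namespace GRS

theorem cont_evp (p : MvPolynomial (Fin 3) ℂ) : Continuous (evp p) := by
  unfold evp
  refine (MvPolynomial.continuous_eval p).comp ?_
  exact continuous_pi fun i => Complex.continuous_ofReal.comp (continuous_apply i)

theorem cont_term (c : ℂ) (p : MvPolynomial (Fin 3) ℂ) : Continuous (fun x => c * evp p x) :=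
  continuous_const.mul (cont_evp p)

theorem cont_comb (A : Finset ℕ) (d : ℕ → ℂ) (f : ℕ → MvPolynomial (Fin 3) ℂ) :
    Continuous (fun x => ∑ n ∈ A, d n * evp (f n) x) :=
  continuous_finsetSum _ fun n _ => cont_term (d n) (f n)

theorem pr_comb (A : Finset ℕ) (d : ℕ → ℂ) (f : ℕ → MvPolynomial (Fin 3) ℂ)
    (g : MvPolynomial (Fin 3) ℂ) : pr (fun x => ∑ n ∈ A, d n * evp (f n) x) (evp g) =
      ∑ n ∈ A, d n * pr (evp (f n)) (evp g) := by
  have h := pr_sum_left A (g := fun n x => d n * evp (f n) x) (e := evp g)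
    (fun n => cont_term (d n) (f n)) (cont_evp g)
  rw [h]
  exact Finset.sum_congr rfl fun n _ => pr_smul_left _ _ _

theorem evp_sub (p q : MvPolynomial (Fin 3) ℂ) (x : V3) : evp (p - q) x = evp p x - evp q x := by
  simp [evp]

theorem evp_C_mul (c : ℂ) (q : MvPolynomial (Fin 3) ℂ) (x : V3) :
    evp (MvPolynomial.C c * q) x = c * evp q x := by
  simp [evp]

theorem evp_sum {ι : Type*} (A : Finset ι) (f : ι → MvPolynomial (Fin 3) ℂ) (x : V3) :
    evp (∑ i ∈ A, f i) x = ∑ i ∈ A, evp (f i) x := by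
  simp [evp]

theorem degLt_iff (n : ℕ) (p : MvPolynomial (Fin 3) ℂ) :
    DegLt n p ↔ ∀ m : Fin 3 →₀ ℕ, n ≤ ∑ i, m i → p.coeff m = 0 := by
  unfold DegLt
  constructor
  · intro h m hm
    by_contra h0
    exact absurd (h m (MvPolynomial.mem_support_iff.2 h0)) (not_lt.2 hm)
  · intro h m hm
    by_contra h0
    exact (MvPolynomial.mem_support_iff.1 hm) (h m (not_lt.1 h0))

theorem degLt_mono {n k : ℕ} (h : n ≤ k) {p : MvPolynomial (Fin 3) ℂ} (hp : DegLt n p) :
    DegLt k p := fun m hm => (hp m hm).trans_le h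

theorem degLt_sub {n : ℕ} {p q : MvPolynomial (Fin 3) ℂ} (hp : DegLt n p) (hq : DegLt n q) :
    DegLt n (p - q) := by
  rw [degLt_iff] at *
  intro m hm
  rw [MvPolynomial.coeff_sub, hp m hm, hq m hm, sub_zero]

theorem degLt_C_mul {n : ℕ} (c : ℂ) {p : MvPolynomial (Fin 3) ℂ} (hp : DegLt n p) :
    DegLt n (MvPolynomial.C c * p) := by
  rw [degLt_iff] at *
  intro m hm
  rw [MvPolynomial.coeff_C_mul, hp m hm, mul_zero]

theorem degLt_sum {ι : Type*} {n : ℕ} (A : Finset ι) (f : ι → MvPolynomial (Fin 3) ℂ)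
    (hf : ∀ i ∈ A, DegLt n (f i)) : DegLt n (∑ i ∈ A, f i) := by
  rw [degLt_iff]
  intro m hm
  rw [MvPolynomial.coeff_sum]
  exact Finset.sum_eq_zero fun i hi => (degLt_iff n (f i)).1 (hf i hi) m hm

open Classical in
/-- Normalisation. -/
noncomputable def nrm (q : MvPolynomial (Fin 3) ℂ) : MvPolynomial (Fin 3) ℂ :=
  if pr (evp q) (evp q) = 0 then q
  else MvPolynomial.C (((√(∫ s, ‖evp q (om s)‖ ^ 2 ∂sig))⁻¹ : ℝ) : ℂ) * q

theorem nrm_spec (q : MvPolynomial (Fin 3) ℂ) :
    (pr (evp (nrm q)) (evp (nrm q)) = 1 ∨ ∀ s, evp (nrm q) (om s) = 0) ∧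
    (∃ c : ℂ, ∀ x, evp (nrm q) x = c * evp q x) ∧
    (∃ c : ℂ, ∀ x, evp q x = c * evp (nrm q) x) ∧ (∀ n, DegLt n q → DegLt n (nrm q)) := by
  by_cases h : pr (evp q) (evp q) = 0
  · have h1 : nrm q = q := by
      unfold nrm
      rw [if_pos h]
    rw [h1]
    exact ⟨Or.inr fun s => pr_self_zero (cont_evp q) h s, ⟨1, fun x => (one_mul _).symm⟩,
      ⟨1, fun x => (one_mul _).symm⟩, fun n hn => hn⟩
  · set a : ℝ := √(∫ s, ‖evp q (om s)‖ ^ 2 ∂sig) with ha
    have h1 : nrm q = MvPolynomial.C ((a⁻¹ : ℝ) : ℂ) * q := by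
      unfold nrm
      rw [if_neg h]
    have h2 := pr_self (evp q)
    have h3 : (0 : ℝ) ≤ ∫ s, ‖evp q (om s)‖ ^ 2 ∂sig := integral_nonneg fun s => by positivity
    have h4 : a ^ 2 = ∫ s, ‖evp q (om s)‖ ^ 2 ∂sig := Real.sq_sqrt h3
    rw [← h4] at h2
    have h5 : a ≠ 0 := by
      intro h0
      rw [h0] at h2
      exact h (by rw [h2]; norm_num)
    have h6 : evp (nrm q) = fun x => ((a⁻¹ : ℝ) : ℂ) * evp q x := by
      funext x
      rw [h1, evp_C_mul]
    refine ⟨Or.inl ?_, ⟨((a⁻¹ : ℝ) : ℂ), fun x => congrFun h6 x⟩, ⟨(a : ℂ), fun x => ?_⟩,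
      fun n hn => ?_⟩
    · rw [h6, pr_smul_left, pr_smul_right, h2, Complex.conj_ofReal]
      rw [← Complex.ofReal_mul, ← Complex.ofReal_mul]
      rw [show a⁻¹ * (a⁻¹ * a ^ 2) = 1 by field_simp]
      exact Complex.ofReal_one
    · rw [congrFun h6 x, ← mul_assoc, ← Complex.ofReal_mul, mul_inv_cancel₀ h5,
        Complex.ofReal_one, one_mul]
    · rw [h1]
      exact degLt_C_mul _ hn

/-- The orthogonalised polynomials. -/
noncomputable def r (b : ℕ → MvPolynomial (Fin 3) ℂ) (n : ℕ) : MvPolynomial (Fin 3) ℂ :=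
  b n - ∑ m : Fin n, MvPolynomial.C (pr (evp (b n)) (evp (nrm (r b m.1)))) * nrm (r b m.1)
termination_by n
decreasing_by exact m.2

/-- The orthonormal family. -/
noncomputable def e (b : ℕ → MvPolynomial (Fin 3) ℂ) (n : ℕ) : MvPolynomial (Fin 3) ℂ :=
  nrm (r b n)

theorem r_eq (b : ℕ → MvPolynomial (Fin 3) ℂ) (n : ℕ) :
    r b n = b n - ∑ m ∈ range n, MvPolynomial.C (pr (evp (b n)) (evp (e b m))) * e b m := by
  rw [r, ← Fin.sum_univ_eq_sum_range
    (fun m => MvPolynomial.C (pr (evp (b n)) (evp (e b m))) * e b m)]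
  rfl

theorem evp_r (b : ℕ → MvPolynomial (Fin 3) ℂ) (n : ℕ) (x : V3) :
    evp (r b n) x = evp (b n) x - ∑ m ∈ range n, pr (evp (b n)) (evp (e b m)) * evp (e b m) x := by
  rw [r_eq, evp_sub, evp_sum]
  simp only [evp_C_mul]

theorem orth_lt (b : ℕ → MvPolynomial (Fin 3) ℂ) (n : ℕ) :
    ∀ m < n, pr (evp (e b n)) (evp (e b m)) = 0 := by
  induction n using Nat.strong_induction_on with
  | _ n ih =>
    intro m hm
    obtain ⟨c, hc⟩ := (nrm_spec (r b n)).2.1
    have h1 : evp (e b n) = fun x => c * evp (r b n) x := funext hc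
    rw [h1, pr_smul_left]
    have h2 : pr (evp (r b n)) (evp (e b m)) = 0 := by
      have h3 : evp (r b n) = fun x => evp (b n) x -
          ∑ k ∈ range n, pr (evp (b n)) (evp (e b k)) * evp (e b k) x := funext (evp_r b n)
      rw [h3, pr_sub_left (cont_evp _) (cont_comb _ _ _) (cont_evp _), pr_comb]
      rw [Finset.sum_eq_single m]
      · rcases (nrm_spec (r b m)).1 with h4 | h4
        · have h5 : pr (evp (e b m)) (evp (e b m)) = 1 := h4
          rw [h5, mul_one, sub_self]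
        · have h5 : pr (evp (b n)) (evp (e b m)) = 0 := by
            have : pr (evp (b n)) (evp (e b m)) = pr (evp (b n)) (fun _ => 0) :=
              pr_congr (fun _ => rfl) h4
            rw [this]
            simp [pr]
          rw [h5, zero_mul, sub_zero]
      · intro k hk hkm
        rcases lt_or_gt_of_ne hkm with h | h
        · rw [pr_symm (evp (e b m)) (evp (e b k)), ih m hm k h, map_zero, mul_zero]
        · rw [ih k (mem_range.1 hk) m h, mul_zero]
      · intro h
        exact absurd (mem_range.2 hm) h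
    rw [h2, mul_zero]

theorem orth (b : ℕ → MvPolynomial (Fin 3) ℂ) (m n : ℕ) (h : m ≠ n) :
    pr (evp (e b m)) (evp (e b n)) = 0 := by
  rcases lt_or_gt_of_ne h with h | h
  · rw [pr_symm, orth_lt b n m h, map_zero]
  · exact orth_lt b m n h

theorem deg (b : ℕ → MvPolynomial (Fin 3) ℂ) (N k : ℕ) (hb : ∀ n < k, DegLt N (b n)) :
    ∀ n < k, DegLt N (e b n) := by
  intro n
  induction n using Nat.strong_induction_on with
  | _ n ih =>
    intro hn
    refine (nrm_spec (r b n)).2.2.2 N ?_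
    rw [r_eq]
    refine degLt_sub (hb n hn) (degLt_sum _ _ fun m hm => degLt_C_mul _ ?_)
    exact ih m (mem_range.1 hm) ((mem_range.1 hm).trans hn)

/-- `b n` is a combination of `e 0, …, e n`. -/
theorem b_comb (b : ℕ → MvPolynomial (Fin 3) ℂ) (n : ℕ) :
    ∃ d : ℕ → ℂ, ∀ x, evp (b n) x = ∑ m ∈ range (n + 1), d m * evp (e b m) x := by
  obtain ⟨c, hc⟩ := (nrm_spec (r b n)).2.2.1
  refine ⟨fun m => if m = n then c else pr (evp (b n)) (evp (e b m)), fun x => ?_⟩
  rw [Finset.sum_range_succ]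
  simp only [if_true]
  have h1 : c * evp (e b n) x = evp (r b n) x := (hc x).symm
  rw [h1, evp_r]
  have h2 : ∑ m ∈ range n, (if m = n then c else pr (evp (b n)) (evp (e b m))) * evp (e b m) x =
      ∑ m ∈ range n, pr (evp (b n)) (evp (e b m)) * evp (e b m) x := by
    refine Finset.sum_congr rfl fun m hm => ?_
    rw [if_neg (mem_range.1 hm).ne]
  rw [h2]
  ring

theorem comb (b : ℕ → MvPolynomial (Fin 3) ℂ) (K : ℕ) (c : ℕ → ℂ) :
    ∃ d : ℕ → ℂ, ∀ x, ∑ n ∈ range K, c n * evp (b n) x =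
      ∑ n ∈ range K, d n * evp (e b n) x := by
  choose D hD using b_comb b
  refine ⟨fun m => ∑ n ∈ range K, if m < n + 1 then c n * D n m else 0, fun x => ?_⟩
  have h1 : ∀ n ∈ range K, c n * evp (b n) x =
      ∑ m ∈ range K, (if m < n + 1 then c n * D n m else 0) * evp (e b m) x := by
    intro n hn
    rw [hD n x, Finset.mul_sum]
    have h2 : range (n + 1) = (range K).filter (fun m => m < n + 1) := by
      ext m
      simp only [mem_range, mem_filter]
      have := mem_range.1 hn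
      constructor
      · intro h
        exact ⟨by omega, h⟩
      · intro h
        exact h.2
    rw [h2, Finset.sum_filter]
    refine Finset.sum_congr rfl fun m _ => ?_
    by_cases hm : m < n + 1
    · rw [if_pos hm, if_pos hm]
      ring
    · rw [if_neg hm, if_neg hm, zero_mul]
  rw [Finset.sum_congr rfl h1, Finset.sum_comm]
  refine Finset.sum_congr rfl fun m _ => ?_
  rw [Finset.sum_mul]

end GRS

open GRS in
/-- GRS. -/
theorem grs (h : DIM_Stmt) : GRS_Stmt := by
  obtain ⟨b, hb, hspan⟩ := h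
  refine ⟨e b, fun n => ?_, fun m n hmn => orth b m n hmn, fun n => (nrm_spec (r b n)).1,
    fun M p hp s => ?_⟩
  · refine deg b (n.sqrt + 1) ((n.sqrt + 1) ^ 2) (fun m hm => hb _ m hm) n ?_
    rw [sq]
    exact Nat.lt_succ_sqrt n
  · obtain ⟨c, hc⟩ := hspan M p hp
    obtain ⟨d, hd⟩ := comb b (M ^ 2) c
    have h1 : ∀ s, evp p (om s) = ∑ n ∈ range (M ^ 2), d n * evp (e b n) (om s) := fun s => by
      rw [hc s, hd]
    rw [h1 s]
    refine Finset.sum_congr rfl fun k hk => ?_
    have h2 : pr (evp p) (evp (e b k)) = d k * pr (evp (e b k)) (evp (e b k)) := by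
      have h3 : pr (evp p) (evp (e b k)) =
          pr (fun x => ∑ n ∈ range (M ^ 2), d n * evp (e b n) x) (evp (e b k)) :=
        pr_congr h1 fun _ => rfl
      rw [h3, pr_comb, Finset.sum_eq_single k]
      · intro n _ hn
        rw [orth b n k hn, mul_zero]
      · intro h
        exact absurd hk h
    rw [h2]
    rcases (nrm_spec (r b k)).1 with h4 | h4
    · have h5 : pr (evp (e b k)) (evp (e b k)) = 1 := h4
      rw [h5, mul_one]
    · have h5 : evp (e b k) (om s) = 0 := h4 s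
      rw [h5, mul_zero, mul_zero]

end Pool.Agent.RC
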