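import Pool.Agent.RC.Base
import Pool.Agent.LT.Dens

/-!
# Sharp CLR inequality for radial potentials in `ℝ³`: HLV, from test functions to `H¹(ℝ³)`
(MP_4c716f_mp)
-/

set_option autoImplicit false

namespace Pool.Agent.RC

open MeasureTheory Matrix Finset Filter Topology
open scoped ComplexConjugate ComplexOrder ContDiff
open Pool.Agent.LT (TestFn IsH1d)

namespace HLV

/-- weight `√U` -/
theorem sq_meas {U : V3 → ℝ} (hU : AEStronglyMeasurable U volume) :
    AEStronglyMeasurable (fun y => ((√(U y) : ℝ) : ℂ)) volume :=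
  Complex.continuous_ofReal.comp_aestronglyMeasurable
    (Real.continuous_sqrt.comp_aestronglyMeasurable hU)

theorem sq_memLp {U : V3 → ℝ} (hU : RPot U) {B : ℝ} (hB : ∀ x, U x ≤ B) {u : V3 → ℂ}
    (hu : MemLp u 2 volume) : MemLp (fun y => ((√(U y) : ℝ) : ℂ) * u y) 2 volume := by
  refine MemLp.of_le_mul (c := √B) hu ((sq_meas hU.meas).mul hu.1) (ae_of_all _ fun y => ?_)
  rw [norm_mul, Complex.norm_real, Real.norm_eq_abs, abs_of_nonneg (Real.sqrt_nonneg _)]
  exact mul_le_mul_of_nonneg_right (Real.sqrt_le_sqrt (hB y)) (norm_nonneg _)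

theorem sq_dist {U : V3 → ℝ} (hU : RPot U) {B : ℝ} (hB : ∀ x, U x ≤ B) {u v : V3 → ℂ}
    (hu : MemLp u 2 volume) (hv : MemLp v 2 volume) {ε : ℝ} (h : ∫ y, ‖u y - v y‖ ^ 2 ≤ ε) :
    ∫ y, ‖((√(U y) : ℝ) : ℂ) * u y - ((√(U y) : ℝ) : ℂ) * v y‖ ^ 2 ≤ B * ε := by
  have hB0 : 0 ≤ B := (hU.nonneg 0).trans (hB 0)
  have h1 : ∀ y, ‖((√(U y) : ℝ) : ℂ) * u y - ((√(U y) : ℝ) : ℂ) * v y‖ ^ 2 =
      U y * ‖u y - v y‖ ^ 2 := by
    intro y
    rw [← mul_sub, norm_mul, Complex.norm_real, Real.norm_eq_abs,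
      abs_of_nonneg (Real.sqrt_nonneg _), mul_pow, Real.sq_sqrt (hU.nonneg y)]
  simp only [h1]
  have hi : Integrable (fun y => ‖u y - v y‖ ^ 2) volume :=
    (hu.sub hv).integrable_norm_pow (by norm_num)
  calc ∫ y, U y * ‖u y - v y‖ ^ 2 ≤ ∫ y, B * ‖u y - v y‖ ^ 2 := by
        refine integral_mono_of_nonneg (ae_of_all _ fun y => ?_) (hi.const_mul B)
          (ae_of_all _ fun y => ?_)
        · exact mul_nonneg (hU.nonneg y) (by positivity)
        · exact mul_le_mul_of_nonneg_right (hB y) (by positivity)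
    _ = B * ∫ y, ‖u y - v y‖ ^ 2 := integral_const_mul _ _
    _ ≤ B * ε := mul_le_mul_of_nonneg_left h hB0

theorem sq_mul {U : V3 → ℝ} (hU : RPot U) (u v : V3 → ℂ) (y : V3) :
    (((√(U y) : ℝ) : ℂ) * u y) * conj (((√(U y) : ℝ) : ℂ) * v y) =
      (U y : ℂ) * (u y * conj (v y)) := by
  have h : (((√(U y) : ℝ) : ℂ)) * (((√(U y) : ℝ) : ℂ)) = (U y : ℂ) := by
    rw [← Complex.ofReal_mul, Real.mul_self_sqrt (hU.nonneg y)]
  rw [map_mul, Complex.conj_ofReal, ← h]
  ring

theorem herm {N : ℕ} (U : V3 → ℝ) (ψ : Fin N → V3 → ℂ) (g : Fin N → Fin 3 → V3 → ℂ) :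
    (potM U ψ - kinM g).IsHermitian := by
  refine Matrix.IsHermitian.sub ?_ ?_
  · ext i j
    simp only [conjTranspose_apply, potM, of_apply]
    show conj (∫ x, (U x : ℂ) * (ψ j x * conj (ψ i x))) = _
    rw [← integral_conj]
    congr 1
    funext x
    simp only [map_mul, Complex.conj_ofReal, Complex.conj_conj]
    ring
  · ext i j
    simp only [conjTranspose_apply, kinM, of_apply]
    show conj (∑ k, ∫ x, g j k x * conj (g i k x)) = _
    rw [map_sum]
    refine Finset.sum_congr rfl fun k _ => ?_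
    rw [← integral_conj]
    congr 1
    funext x
    simp only [map_mul, Complex.conj_conj]
    ring

end HLV

open HLV in
/-- HLV: from level T to level H. -/
theorem hlv : HLV_Stmt := by
  intro hT N ψ g U hψ hU hPD
  obtain ⟨B, hB⟩ := hU.bdd
  set ε : ℕ → ℝ := fun n => 1 / ((n : ℝ) + 1) with hεdef
  have hε0 : ∀ n, 0 < ε n := fun n => by simp only [hεdef]; positivity
  have hε : Tendsto ε atTop (𝓝 0) := tendsto_one_div_add_atTop_nhds_zero_nat
  choose f hft hf1 hf2 using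
    fun (j : Fin N) (n : ℕ) => LT.dens 3 (ψ j) (g j) (hψ j) (ε n) (hε0 n)
  have hψm : ∀ j, MemLp (ψ j) 2 volume := fun j => (hψ j).1
  have hgm : ∀ j i, MemLp (g j i) 2 volume := fun j => (hψ j).2.1
  have hfm : ∀ j n, MemLp (f j n) 2 volume := fun j n => LT.kinH1_testFn_memLp (hft j n)
  have hconv : ∀ i j, Tendsto
      (fun n => (potM U (fun k => f k n) - kinM (fun k => grd (f k n))) i j) atTop
      (𝓝 ((potM U ψ - kinM g) i j)) := by
    intro i j
    have h1 : ∀ k, Tendsto (fun n => ∫ y, grd (f i n) k y * conj (grd (f j n) k y)) atTop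
        (𝓝 (∫ y, g i k y * conj (g j k y))) := fun k =>
      LT.kinH1_inner (hgm i k) (hgm j k) (fun n => LT.kinH1_testFn_deriv_memLp (hft i n) k)
        (fun n => LT.kinH1_testFn_deriv_memLp (hft j n) k) (fun n => hf2 i n k)
        (fun n => hf2 j n k) hε
    have hBε : Tendsto (fun n => B * ε n) atTop (𝓝 0) := by
      have := hε.const_mul B
      rwa [mul_zero] at this
    have h2 := LT.kinH1_inner (sq_memLp hU hB (hψm i)) (sq_memLp hU hB (hψm j))
      (fun n => sq_memLp hU hB (hfm i n)) (fun n => sq_memLp hU hB (hfm j n))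
      (fun n => sq_dist hU hB (hψm i) (hfm i n) (hf1 i n))
      (fun n => sq_dist hU hB (hψm j) (hfm j n) (hf1 j n)) hBε
    simp only [sq_mul hU] at h2
    have h3 := h2.sub (tendsto_finsetSum Finset.univ fun k _ => h1 k)
    exact h3
  have hev := posDef_eventually hPD (fun n => herm U (fun k => f k n) (fun k => grd (f k n))) hconv
  obtain ⟨n, hn⟩ := hev.exists
  exact hT N (fun k => f k n) U (fun k => hft k n) hU hn

end Pool.Agent.RC
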