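import Pool.Agent.RC.Base
import Pool.Agent.LT.All

/-!
# Sharp CLR inequality for radial potentials: the sharp one dimensional inequality (module KN1)
-/

set_option autoImplicit false

namespace Pool.Agent.RC

open MeasureTheory Matrix Finset Filter Topology
open scoped ComplexConjugate ComplexOrder ContDiff
open Pool.Agent.LT (TestFn IsH1v IsH1d IsEigenfunctionD)

namespace KN1

/-- Powers of a bounded function with bounded support are integrable. -/
lemma integrable_pow {W : ℝ → ℝ} (hm : AEStronglyMeasurable W volume) (h0 : ∀ t, 0 ≤ W t)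
    {B R : ℝ} (hB : ∀ t, W t ≤ B) (hR : ∀ t, R < |t| → W t = 0) :
    Integrable (fun t => W t ^ ((1 : ℝ) + 1 / 2)) volume := by
  have hi : Integrable ((Set.Icc (-|R|) |R|).indicator fun _ : ℝ => B ^ ((1 : ℝ) + 1 / 2))
      volume := by
    rw [integrable_indicator_iff measurableSet_Icc]
    exact integrableOn_const (by simp)
  refine hi.mono' ((hm.aemeasurable.pow_const _)).aestronglyMeasurable ?_
  refine Filter.Eventually.of_forall fun t => ?_
  rw [Real.norm_eq_abs, abs_of_nonneg (Real.rpow_nonneg (h0 t) _)]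
  by_cases ht : t ∈ Set.Icc (-|R|) |R|
  · rw [Set.indicator_of_mem ht]
    exact Real.rpow_le_rpow (h0 t) (hB t) (by norm_num)
  · rw [Set.indicator_of_notMem ht]
    have h1 : |R| < |t| := by
      by_contra hc
      push Not at hc
      exact ht (abs_le.1 hc)
    rw [hR t (lt_of_le_of_lt (le_abs_self R) h1), Real.zero_rpow (by norm_num)]

end KN1

open Pool.Agent.LT in
theorem kn1 : KN1_Stmt := by
  intro N φ φ' W hφ horth hWm hW0 hWB hWR
  obtain ⟨B, hB⟩ := hWB
  obtain ⟨R, hR⟩ := hWR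
  -- the kinetic inequality
  have hmat : (1 - Matrix.of fun i j => ∫ x, inner ℂ (φ j x) (φ i x) :
      Matrix (Fin N) (Fin N) ℂ) = 0 := by
    ext i j
    have h : ∫ x, inner ℂ (φ j x) (φ i x) = if i = j then (1 : ℂ) else 0 := by
      have h2 := horth i j
      have h3 : (fun x => inner ℂ (φ j x) (φ i x)) = fun x => φ i x * conj (φ j x) := by
        funext x
        simp
      rw [h3, h2]
    simp only [Matrix.sub_apply, Matrix.of_apply, Matrix.zero_apply, h, Matrix.one_apply]
    simp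
  have hkin := kinAll ℂ (fun N v => pos1 N v) N φ φ' hφ
    (by rw [hmat]; exact Matrix.PosSemidef.zero)
  simp only [trace_gram_cube] at hkin
  obtain ⟨hint, hle⟩ := hkin
  set ρ : ℝ → ℝ := fun x => ∑ i, ‖φ i x‖ ^ 2 with hρ
  have hρ0 : ∀ x, 0 ≤ ρ x := fun x => Finset.sum_nonneg fun i _ => by positivity
  have hρm : AEStronglyMeasurable ρ volume := by
    rw [hρ]
    apply Finset.aestronglyMeasurable_fun_sum
    intro i _
    exact ((hφ i).1.1.norm.pow 2)
  have hWi : Integrable (fun t => W t ^ ((1 : ℝ) + 1 / 2)) volume :=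
    KN1.integrable_pow hWm hW0 hB hR
  have hdom : Integrable (fun x => W x * ρ x) volume := by
    have hb : Integrable (fun x => 4 / (3 * √3 * Real.pi) * W x ^ ((1 : ℝ) + 1 / 2) +
        Real.pi ^ 2 / 4 * ρ x ^ 3) volume := (hWi.const_mul _).add (hint.const_mul _)
    apply hb.mono'
    · exact (hWm.mul hρm)
    · refine Filter.Eventually.of_forall fun x => ?_
      rw [Real.norm_eq_abs, abs_of_nonneg (mul_nonneg (hW0 x) (hρ0 x))]
      have := young_sharp (hW0 x) (hρ0 x)
      linarith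
  have hWj : ∀ j, Integrable (fun x => W x * ‖φ j x‖ ^ 2) volume := by
    intro j
    apply hdom.mono'
    · exact hWm.mul ((hφ j).1.1.norm.pow 2)
    · refine Filter.Eventually.of_forall fun x => ?_
      rw [norm_mul, Real.norm_eq_abs, Real.norm_eq_abs, abs_of_nonneg (hW0 x),
        abs_of_nonneg (by positivity : (0 : ℝ) ≤ ‖φ j x‖ ^ 2)]
      apply mul_le_mul_of_nonneg_left _ (hW0 x)
      exact Finset.single_le_sum (f := fun i => ‖φ i x‖ ^ 2) (fun i _ => by positivity)
        (Finset.mem_univ j)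
  have hsum : ∑ j, ((∫ t, W t * ‖φ j t‖ ^ 2) - ∫ t, ‖φ' j t‖ ^ 2) =
      (∫ x, W x * ρ x) - ∑ j, ∫ t, ‖φ' j t‖ ^ 2 := by
    rw [Finset.sum_sub_distrib]
    congr 1
    have h2 : ∀ x, W x * ρ x = ∑ j, W x * ‖φ j x‖ ^ 2 := by
      intro x
      rw [hρ, Finset.mul_sum]
    simp_rw [h2]
    rw [integral_finsetSum (f := fun j x => W x * ‖φ j x‖ ^ 2) _ (fun j _ => hWj j)]
  rw [hsum]
  have hfin : ∫ x, W x * ρ x ≤
      ∫ x, (4 / (3 * √3 * Real.pi) * W x ^ ((1 : ℝ) + 1 / 2) +
        Real.pi ^ 2 / 4 * ρ x ^ 3) := by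
    apply integral_mono hdom ((hWi.const_mul _).add (hint.const_mul _))
    intro x
    have h2 := young_sharp (hW0 x) (hρ0 x)
    show W x * ρ x ≤ 4 / (3 * √3 * Real.pi) * W x ^ ((1 : ℝ) + 1 / 2) +
        Real.pi ^ 2 / 4 * ρ x ^ 3
    linarith
  rw [integral_add (hWi.const_mul _) (hint.const_mul _), integral_const_mul,
    integral_const_mul] at hfin
  have he : (3 : ℝ) / 2 = 1 + 1 / 2 := by norm_num
  rw [he]
  linarith

end Pool.Agent.RC
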