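import Pool.Agent.RC.Base

/-!
# Sharp CLR inequality for radial potentials in `ℝ³`: module KPO
(MP_4c716f_mp). The kinetic energy in logarithmic polar coordinates.
-/

set_option autoImplicit false

namespace Pool.Agent.RC

open MeasureTheory Matrix Finset Filter Topology
open scoped ComplexConjugate ComplexOrder ContDiff
open Pool.Agent.LT (TestFn IsH1v IsH1d IsEigenfunctionD)

namespace KPO

/-! ### Derivatives -/

theorem vec_sum (v : V3) : ∑ k, v k • (Pi.single k (1 : ℝ) : V3) = v := by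
  funext j
  simp [Finset.sum_apply, Pi.single_apply]

theorem fderiv_eq (g : V3 → ℂ) (x v : V3) :
    fderiv ℝ g x v = ∑ k, ((v k : ℝ) : ℂ) * pd3 k g x := by
  conv_lhs => rw [← vec_sum v]
  rw [map_sum]
  refine Finset.sum_congr rfl fun k _ => ?_
  rw [map_smul, Complex.real_smul]
  rfl

theorem cont_pd3 {f : V3 → ℂ} (hf : ContDiff ℝ ∞ f) (k : Fin 3) : Continuous (pd3 k f) := by
  have h := hf.continuous_fderiv (by simp)
  exact h.clm_apply continuous_const

theorem pd3_zero {f : V3 → ℂ} {O : Set V3} (hO : IsOpen O) (h : ∀ x ∈ O, f x = 0) (k : Fin 3)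
    {x : V3} (hx : x ∈ O) : pd3 k f x = 0 := by
  have h1 : f =ᶠ[𝓝 x] fun _ => (0 : ℂ) := by
    filter_upwards [hO.mem_nhds hx] with y hy using h y hy
  unfold pd3
  rw [h1.fderiv_eq]
  simp

theorem nsq_cont : Continuous nsq := by
  unfold nsq
  fun_prop

/-- The supports in the variable `t`. -/
theorem supp {f : V3 → ℂ} (hf : A0 f) : ∃ T : ℝ, ∀ t, T < |t| → ∀ x : V3, nsq x = 1 →
    f (Real.exp t • x) = 0 ∧ ∀ k, pd3 k f (Real.exp t • x) = 0 := by
  obtain ⟨⟨-, hc⟩, ε, hε, h0⟩ := hf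
  obtain ⟨R, hR⟩ : ∃ R : ℝ, ∀ x ∈ tsupport f, nsq x ≤ R := by
    obtain ⟨R, hR⟩ := hc.isCompact.exists_bound_of_continuousOn nsq_cont.continuousOn
    exact ⟨R, fun x hx => (le_abs_self _).trans (hR x hx)⟩
  have hO1 : IsOpen {x : V3 | nsq x < ε} := isOpen_lt nsq_cont continuous_const
  have hO2 : IsOpen {x : V3 | R < nsq x} := isOpen_lt continuous_const nsq_cont
  have h2 : ∀ x ∈ {x : V3 | R < nsq x}, f x = 0 := by
    intro x hx
    by_contra h
    exact absurd (hR x (subset_tsupport f h)) (not_le.mpr hx)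
  refine ⟨max |Real.log ε| |Real.log (max R 1)|, fun t ht x hx => ?_⟩
  have hn : nsq (Real.exp t • x) = Real.exp (2 * t) := by
    rw [nsq_smul, hx, mul_one, ← Real.exp_nat_mul]
    norm_num
  have ha := lt_of_le_of_lt (le_max_left _ _) ht
  have hb := lt_of_le_of_lt (le_max_right _ _) ht
  rcases le_or_gt 0 t with h3 | h3
  · have h4 : R < nsq (Real.exp t • x) := by
      rw [hn]
      have h5 : Real.log (max R 1) < 2 * t := by
        rw [abs_of_nonneg h3] at hb
        have := le_abs_self (Real.log (max R 1))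
        linarith
      have h6 : (0 : ℝ) < max R 1 := lt_max_of_lt_right one_pos
      exact (le_max_left R 1).trans_lt ((Real.log_lt_iff_lt_exp h6).mp h5)
    exact ⟨h2 _ h4, fun k => pd3_zero hO2 h2 k h4⟩
  · have h4 : nsq (Real.exp t • x) < ε := by
      rw [hn, ← Real.lt_log_iff_exp_lt hε]
      rw [abs_of_neg h3] at ha
      have := neg_abs_le (Real.log ε)
      linarith
    exact ⟨h0 _ h4, fun k => pd3_zero hO1 (fun x hx => h0 x hx) k h4⟩

/-- The derivative in `t`. -/
theorem hasDeriv {f : V3 → ℂ} (hf : ContDiff ℝ ∞ f) (x : V3) (t : ℝ) :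
    HasDerivAt (fun t => fl f t x) (fl' f t x) t := by
  have h1 : HasDerivAt (fun t : ℝ => Real.exp t • x) (Real.exp t • x) t :=
    (Real.hasDerivAt_exp t).smul_const x
  have h2 : HasDerivAt (fun t : ℝ => f (Real.exp t • x))
      (fderiv ℝ f (Real.exp t • x) (Real.exp t • x)) t :=
    ((hf.differentiable (by simp)) (Real.exp t • x)).hasFDerivAt.comp_hasDerivAt t h1
  have h3 : HasDerivAt (fun t : ℝ => ((Real.exp (t / 2) : ℝ) : ℂ))
      (((Real.exp (t / 2) * (1 / 2) : ℝ)) : ℂ) t := by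
    have h4 : HasDerivAt (fun t : ℝ => Real.exp (t / 2)) (Real.exp (t / 2) * (1 / 2)) t :=
      ((hasDerivAt_id t).div_const 2).exp
    exact h4.ofReal_comp
  have h5 := h3.mul h2
  refine h5.congr_deriv ?_
  rw [fderiv_eq]
  unfold fl'
  push_cast
  simp only [Pi.smul_apply, smul_eq_mul]
  push_cast
  ring

/-- The space derivatives. -/
theorem pd3_fl {f : V3 → ℂ} (hf : ContDiff ℝ ∞ f) (t : ℝ) (k : Fin 3) (x : V3) :
    pd3 k (fl f t) x =
      ((Real.exp (t / 2) : ℝ) : ℂ) * (((Real.exp t : ℝ) : ℂ) * pd3 k f (Real.exp t • x)) := by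
  have h1 : HasFDerivAt (fun x : V3 => Real.exp t • x)
      (Real.exp t • ContinuousLinearMap.id ℝ V3) x :=
    (Real.exp t • ContinuousLinearMap.id ℝ V3).hasFDerivAt
  have h2 : HasFDerivAt (fun x : V3 => f (Real.exp t • x))
      ((fderiv ℝ f (Real.exp t • x)).comp (Real.exp t • ContinuousLinearMap.id ℝ V3)) x :=
    ((hf.differentiable (by simp)) (Real.exp t • x)).hasFDerivAt.comp x h1
  have h3 : HasFDerivAt (fl f t) (((Real.exp (t / 2) : ℝ) : ℂ) •
      ((fderiv ℝ f (Real.exp t • x)).comp (Real.exp t • ContinuousLinearMap.id ℝ V3))) x :=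
    h2.const_mul _
  unfold pd3
  rw [h3.fderiv]
  simp

theorem Dr_fl {f : V3 → ℂ} (hf : ContDiff ℝ ∞ f) (t : ℝ) (i : Fin 3) (x : V3) :
    Dr i (fl f t) x = ((Real.exp (t / 2) : ℝ) : ℂ) *
      ((((Real.exp t * x (i + 1) : ℝ)) : ℂ) * pd3 (i + 2) f (Real.exp t • x) -
        (((Real.exp t * x (i + 2) : ℝ)) : ℂ) * pd3 (i + 1) f (Real.exp t • x)) := by
  unfold Dr
  rw [pd3_fl hf, pd3_fl hf]
  push_cast
  ring

/-- Lagrange's identity. -/
theorem lagrange (a : V3) (v : Fin 3 → ℂ) :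
    nsq a * ∑ k, ‖v k‖ ^ 2 = ‖∑ k, ((a k : ℝ) : ℂ) * v k‖ ^ 2 +
      ∑ i : Fin 3, ‖((a (i + 1) : ℝ) : ℂ) * v (i + 2) - ((a (i + 2) : ℝ) : ℂ) * v (i + 1)‖ ^ 2 := by
  have e1 : (0 : Fin 3) + 1 = 1 := rfl
  have e2 : (0 : Fin 3) + 2 = 2 := rfl
  have e3 : (1 : Fin 3) + 1 = 2 := rfl
  have e4 : (1 : Fin 3) + 2 = 0 := rfl
  have e5 : (2 : Fin 3) + 1 = 0 := rfl
  have e6 : (2 : Fin 3) + 2 = 1 := rfl
  unfold nsq
  simp only [Fin.sum_univ_three, e1, e2, e3, e4, e5, e6, ← Complex.normSq_eq_norm_sq,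
    Complex.normSq_apply, Complex.add_re, Complex.add_im, Complex.sub_re, Complex.sub_im,
    Complex.re_ofReal_mul, Complex.im_ofReal_mul]
  ring

/-- The pointwise identity. -/
theorem pointwise {f : V3 → ℂ} (hf : ContDiff ℝ ∞ f) (t : ℝ) (x : V3) (hx : nsq x = 1) :
    ∑ k, Real.exp (3 * t) * ‖pd3 k f (Real.exp t • x)‖ ^ 2 =
      ‖fl' f t x‖ ^ 2 + 1 / 4 * ‖fl f t x‖ ^ 2 - (fl' f t x * conj (fl f t x)).re +
        ∑ i, ‖Dr i (fl f t) x‖ ^ 2 := by
  have h1 : fl' f t x - 1 / 2 * fl f t x = ((Real.exp (t / 2) : ℝ) : ℂ) *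
      ∑ k, (((Real.exp t • x) k : ℝ) : ℂ) * pd3 k f (Real.exp t • x) := by
    unfold fl' fl
    simp only [Pi.smul_apply, smul_eq_mul]
    ring
  have h2 : ‖fl' f t x - 1 / 2 * fl f t x‖ ^ 2 =
      ‖fl' f t x‖ ^ 2 + 1 / 4 * ‖fl f t x‖ ^ 2 - (fl' f t x * conj (fl f t x)).re := by
    simp only [← Complex.normSq_eq_norm_sq, Complex.normSq_apply, Complex.sub_re, Complex.sub_im,
      Complex.mul_re, Complex.mul_im, Complex.conj_re, Complex.conj_im]
    norm_num
    ring
  have h3 := lagrange (Real.exp t • x) (fun k => pd3 k f (Real.exp t • x))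
  have hn : nsq (Real.exp t • x) = Real.exp t ^ 2 := by rw [nsq_smul, hx, mul_one]
  have h4 : Real.exp (3 * t) = Real.exp (t / 2) ^ 2 * Real.exp t ^ 2 := by
    rw [← Real.exp_nat_mul, ← Real.exp_nat_mul, ← Real.exp_add]
    congr 1
    push_cast
    ring
  have h5 : ∀ z : ℂ, ‖((Real.exp (t / 2) : ℝ) : ℂ) * z‖ ^ 2 = Real.exp (t / 2) ^ 2 * ‖z‖ ^ 2 := by
    intro z
    rw [norm_mul, mul_pow, Complex.norm_real, Real.norm_eq_abs, sq_abs]
  rw [← h2, h1, h5]
  have h6 : ∑ i, ‖Dr i (fl f t) x‖ ^ 2 = Real.exp (t / 2) ^ 2 * ∑ i : Fin 3,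
      ‖(((Real.exp t • x) (i + 1) : ℝ) : ℂ) * pd3 (i + 2) f (Real.exp t • x) -
        (((Real.exp t • x) (i + 2) : ℝ) : ℂ) * pd3 (i + 1) f (Real.exp t • x)‖ ^ 2 := by
    rw [Finset.mul_sum]
    refine Finset.sum_congr rfl fun i _ => ?_
    rw [Dr_fl hf, h5]
    rfl
  rw [h6, ← mul_add, ← h3, hn, ← Finset.mul_sum, h4]
  ring

/-! ### Integrability -/

theorem prodInt {E : Type*} [NormedAddCommGroup E] {G : ℝ → V3 → E}
    (hG : Continuous (fun p : ℝ × V3 => G p.1 p.2)) {T : ℝ}
    (hT : ∀ t, T < |t| → ∀ s, G t (om s) = 0) :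
    Integrable (fun p : ℝ × S2 => G p.1 (om p.2)) (volume.prod sig) := by
  have : CompactSpace S2 := Metric.sphere.compactSpace _ _
  have h1 : Continuous (fun p : ℝ × S2 => G p.1 (om p.2)) :=
    hG.comp (continuous_fst.prodMk (continuous_om.comp continuous_snd))
  refine h1.integrable_of_hasCompactSupport ?_
  refine HasCompactSupport.of_support_subset_isCompact
    ((isCompact_Icc (a := -T) (b := T)).prod isCompact_univ) ?_
  intro p hp
  refine ⟨?_, Set.mem_univ _⟩
  rw [Set.mem_Icc, ← abs_le]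
  by_contra h
  push Not at h
  exact hp (hT p.1 h p.2)

theorem cont_fl {f : V3 → ℂ} (hf : ContDiff ℝ ∞ f) :
    Continuous (fun p : ℝ × V3 => fl f p.1 p.2) := by
  have h := hf.continuous
  have h2 : Continuous fun p : ℝ × V3 => Real.exp p.1 • p.2 :=
    (Real.continuous_exp.comp continuous_fst).smul continuous_snd
  unfold fl
  refine Continuous.mul ?_ (h.comp h2)
  exact Complex.continuous_ofReal.comp (Real.continuous_exp.comp (continuous_fst.div_const 2))

theorem cont_fl' {f : V3 → ℂ} (hf : ContDiff ℝ ∞ f) :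
    Continuous (fun p : ℝ × V3 => fl' f p.1 p.2) := by
  have h := hf.continuous
  have h2 : Continuous fun p : ℝ × V3 => Real.exp p.1 • p.2 :=
    (Real.continuous_exp.comp continuous_fst).smul continuous_snd
  unfold fl'
  refine Continuous.mul ?_ (Continuous.add (continuous_const.mul (h.comp h2)) ?_)
  · exact Complex.continuous_ofReal.comp (Real.continuous_exp.comp (continuous_fst.div_const 2))
  · refine continuous_finsetSum _ fun k _ => Continuous.mul ?_ ((cont_pd3 hf k).comp h2)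
    refine Complex.continuous_ofReal.comp (Continuous.mul ?_ ?_)
    · exact Real.continuous_exp.comp continuous_fst
    · exact (continuous_apply k).comp continuous_snd

theorem cont_Dr {f : V3 → ℂ} (hf : ContDiff ℝ ∞ f) (i : Fin 3) :
    Continuous (fun p : ℝ × V3 => Dr i (fl f p.1) p.2) := by
  have h2 : Continuous fun p : ℝ × V3 => Real.exp p.1 • p.2 :=
    (Real.continuous_exp.comp continuous_fst).smul continuous_snd
  have h3 : ∀ j : Fin 3, Continuous fun p : ℝ × V3 => (((Real.exp p.1 * p.2 j : ℝ)) : ℂ) := by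
    intro j
    refine Complex.continuous_ofReal.comp (Continuous.mul ?_ ?_)
    · exact Real.continuous_exp.comp continuous_fst
    · exact (continuous_apply j).comp continuous_snd
  simp only [Dr_fl hf]
  refine Continuous.mul ?_ (Continuous.sub ?_ ?_)
  · exact Complex.continuous_ofReal.comp (Real.continuous_exp.comp (continuous_fst.div_const 2))
  · exact (h3 _).mul ((cont_pd3 hf _).comp h2)
  · exact (h3 _).mul ((cont_pd3 hf _).comp h2)

end KPO

open KPO in
/-- KPO: the kinetic energy in logarithmic polar coordinates. -/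
theorem kpo (h : POL_Stmt) : KPO_Stmt := by
  intro f hA
  have hf : ContDiff ℝ ∞ f := hA.1.1
  have hfc : HasCompactSupport f := hA.1.2
  obtain ⟨T, hT⟩ := supp hA
  have z1 : ∀ t, T < |t| → ∀ s, fl f t (om s) = 0 := by
    intro t ht s
    rw [fl, (hT t ht _ (nsq_om s)).1, mul_zero]
  have z2 : ∀ t, T < |t| → ∀ s, fl' f t (om s) = 0 := by
    intro t ht s
    rw [fl', (hT t ht _ (nsq_om s)).1]
    simp [(hT t ht _ (nsq_om s)).2]
  have z3 : ∀ t, T < |t| → ∀ s i, Dr i (fl f t) (om s) = 0 := by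
    intro t ht s i
    rw [Dr_fl hf, (hT t ht _ (nsq_om s)).2, (hT t ht _ (nsq_om s)).2]
    simp
  have i1 : Integrable (fun p : ℝ × S2 => ‖fl f p.1 (om p.2)‖ ^ 2) (volume.prod sig) :=
    prodInt (G := fun t x => ‖fl f t x‖ ^ 2) ((cont_fl hf).norm.pow 2) (T := T)
      fun t ht s => by simp [z1 t ht s]
  have i2 : Integrable (fun p : ℝ × S2 => ‖fl' f p.1 (om p.2)‖ ^ 2) (volume.prod sig) :=
    prodInt (G := fun t x => ‖fl' f t x‖ ^ 2) ((cont_fl' hf).norm.pow 2) (T := T)
      fun t ht s => by simp [z2 t ht s]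
  have i3 : ∀ i, Integrable (fun p : ℝ × S2 => ‖Dr i (fl f p.1) (om p.2)‖ ^ 2)
      (volume.prod sig) := fun i =>
    prodInt (G := fun t x => ‖Dr i (fl f t) x‖ ^ 2) ((cont_Dr hf i).norm.pow 2) (T := T)
      fun t ht s => by simp [z3 t ht s i]
  have i4 : Integrable (fun p : ℝ × S2 => (fl' f p.1 (om p.2) * conj (fl f p.1 (om p.2))).re)
      (volume.prod sig) :=
    prodInt (G := fun t x => (fl' f t x * conj (fl f t x)).re)
      (Complex.continuous_re.comp ((cont_fl' hf).mul
        (Complex.continuous_conj.comp (cont_fl hf)))) (T := T)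
      fun t ht s => by simp [z1 t ht s]
  have i5 : ∀ k, Integrable (fun x => ‖pd3 k f x‖ ^ 2) (volume : Measure V3) := by
    intro k
    refine ((cont_pd3 hf k).norm.pow 2).integrable_of_hasCompactSupport ?_
    have h1 : HasCompactSupport (pd3 k f) :=
      (hfc.fderiv (𝕜 := ℝ)).comp_left (g := fun L : V3 →L[ℝ] ℂ => L (Pi.single k 1)) (by simp)
    exact h1.comp_left (g := fun z : ℂ => ‖z‖ ^ 2) (by simp)
  -- the mixed term vanishes
  have m0 : ∫ p : ℝ × S2, (fl' f p.1 (om p.2) * conj (fl f p.1 (om p.2))).re ∂(volume.prod sig)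
      = 0 := by
    rw [integral_prod_symm _ i4]
    have h1 : ∀ s : S2, ∫ t, (fl' f t (om s) * conj (fl f t (om s))).re = 0 := by
      intro s
      have c1 : Continuous fun t : ℝ => fl f t (om s) :=
        (cont_fl hf).comp (continuous_id.prodMk continuous_const)
      have c2 : Continuous fun t : ℝ => fl' f t (om s) :=
        (cont_fl' hf).comp (continuous_id.prodMk continuous_const)
      have d1 : ∀ t, HasDerivAt (fun t => ‖fl f t (om s)‖ ^ 2)
          (2 * (fl' f t (om s) * conj (fl f t (om s))).re) t := by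
        intro t
        have d2 := hasDeriv hf (om s) t
        have d3 := d2.norm_sq
        refine d3.congr_deriv ?_
        rw [Complex.inner]
      have s1 : HasCompactSupport fun t : ℝ => ‖fl f t (om s)‖ ^ 2 := by
        refine HasCompactSupport.of_support_subset_isCompact (isCompact_Icc (a := -T) (b := T)) ?_
        intro t ht
        rw [Set.mem_Icc, ← abs_le]
        by_contra h
        push Not at h
        exact ht (by simp [z1 t h s])
      have s2 : HasCompactSupport fun t : ℝ =>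
          2 * (fl' f t (om s) * conj (fl f t (om s))).re := by
        refine HasCompactSupport.of_support_subset_isCompact (isCompact_Icc (a := -T) (b := T)) ?_
        intro t ht
        rw [Set.mem_Icc, ← abs_le]
        by_contra h
        push Not at h
        exact ht (by simp [z1 t h s])
      have c3 : Continuous fun t : ℝ => 2 * (fl' f t (om s) * conj (fl f t (om s))).re :=
        continuous_const.mul (Complex.continuous_re.comp
          (c2.mul (Complex.continuous_conj.comp c1)))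
      have e := integral_eq_zero_of_hasDerivAt_of_integrable d1
        (c3.integrable_of_hasCompactSupport s2) ((c1.norm.pow 2).integrable_of_hasCompactSupport s1)
      rw [integral_const_mul] at e
      linarith
    simp only [h1, integral_zero]
  -- the kinetic energy
  have k1 : ∀ k, Integrable (fun p : ℝ × S2 => Real.exp (3 * p.1) * ‖pd3 k f (pol p)‖ ^ 2)
      (volume.prod sig) ∧ ∫ x, ‖pd3 k f x‖ ^ 2 =
        ∫ p : ℝ × S2, Real.exp (3 * p.1) * ‖pd3 k f (pol p)‖ ^ 2 ∂(volume.prod sig) := by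
    intro k
    obtain ⟨h1, h2⟩ := h.2.1 ℝ (fun x => ‖pd3 k f x‖ ^ 2) (i5 k)
    simp only [smul_eq_mul] at h1 h2
    exact ⟨h1, by rw [h2, integral_prod _ h1]⟩
  have k2 : ∑ k, ∫ x, ‖pd3 k f x‖ ^ 2 =
      ∫ p : ℝ × S2, (‖fl' f p.1 (om p.2)‖ ^ 2 + 1 / 4 * ‖fl f p.1 (om p.2)‖ ^ 2 -
        (fl' f p.1 (om p.2) * conj (fl f p.1 (om p.2))).re +
        ∑ i, ‖Dr i (fl f p.1) (om p.2)‖ ^ 2) ∂(volume.prod sig) := by
    rw [Finset.sum_congr rfl fun k _ => (k1 k).2, ← integral_finsetSum _ fun k _ => (k1 k).1]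
    congr 1
    funext p
    exact pointwise hf p.1 (om p.2) (nsq_om p.2)
  have i6 : Integrable (fun p : ℝ × S2 => ∑ i, ‖Dr i (fl f p.1) (om p.2)‖ ^ 2)
      (volume.prod sig) := integrable_finsetSum _ fun i _ => i3 i
  have e6 : ∀ t, ∫ s, ∑ i, ‖Dr i (fl f t) (om s)‖ ^ 2 ∂sig =
      ∑ i, ∫ s, ‖Dr i (fl f t) (om s)‖ ^ 2 ∂sig := by
    intro t
    refine integral_finsetSum _ fun i _ => ?_
    have c1 : Continuous fun x => Dr i (fl f t) x :=
      (cont_Dr hf i).comp (continuous_const.prodMk continuous_id)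
    exact int_om (g := fun x => ‖Dr i (fl f t) x‖ ^ 2) (c1.norm.pow 2)
  refine ⟨i1.integral_prod_left, i2.integral_prod_left, ?_, fun t => ⟨?_, ?_⟩, ?_⟩
  · have := i6.integral_prod_left
    simp only [e6] at this
    exact this
  · have h1 : ContDiff ℝ ∞ fun x : V3 => Real.exp t • x := 
      (Real.exp t • ContinuousLinearMap.id ℝ V3).contDiff
    exact contDiff_const.mul (hf.comp h1)
  · exact (cont_fl' hf).comp (continuous_const.prodMk continuous_id)
  · have i12 : Integrable (fun p : ℝ × S2 => ‖fl' f p.1 (om p.2)‖ ^ 2 +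
        1 / 4 * ‖fl f p.1 (om p.2)‖ ^ 2) (volume.prod sig) := i2.add (i1.const_mul _)
    have i124 : Integrable (fun p : ℝ × S2 => ‖fl' f p.1 (om p.2)‖ ^ 2 +
        1 / 4 * ‖fl f p.1 (om p.2)‖ ^ 2 -
        (fl' f p.1 (om p.2) * conj (fl f p.1 (om p.2))).re) (volume.prod sig) := i12.sub i4
    rw [k2, integral_add i124 i6, integral_sub i12 i4, integral_add i2 (i1.const_mul _),
      integral_const_mul, m0, sub_zero, integral_prod _ i2, integral_prod _ i1, integral_prod _ i6]
    simp only [e6]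

end Pool.Agent.RC
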