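import Pool.Agent.RC.Base

/-!
# Optimality of the constant (MP_4c716f_mp, module LWB)
-/

set_option autoImplicit false

namespace Pool.Agent.RC

open MeasureTheory Filter Topology
open scoped ComplexConjugate ContDiff
open Pool.Agent.LT (TestFn IsH1v IsH1d IsEigenfunctionD)

namespace LWB

/-- Multiples of eigenfunctions are eigenfunctions. -/
theorem eig_smul {V : V3 → ℝ} {ψ : V3 → ℂ} {E : ℝ} (h : IsEigenfunctionD V ψ E) (c : ℂ) :
    IsEigenfunctionD V (fun x => c * ψ x) E := by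
  obtain ⟨g, ⟨h1, h2, h3⟩, h4⟩ := h
  refine ⟨fun i x => c * g i x, ⟨h1.const_mul c, fun i => (h2 i).const_mul c, ?_⟩, ?_⟩
  · intro i φ hφ
    have h5 := h3 i φ hφ
    have e1 : ∀ y, c * ψ y * fderiv ℝ φ y (Pi.single i 1) =
      c * (ψ y * fderiv ℝ φ y (Pi.single i 1)) := fun y => by ring
    have e2 : ∀ y, c * g i y * φ y = c * (g i y * φ y) := fun y => by ring
    simp only [e1, e2, integral_const_mul, h5]
    ring
  · intro φ h hφ
    have h5 := h4 φ h hφ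
    have e1 : ∀ i y, conj (h i y) * (c * g i y) = c * (conj (h i y) * g i y) :=
      fun i y => by ring
    have e2 : ∀ y, (V y : ℂ) * (c * (conj (φ y) * ψ y)) =
      c * ((V y : ℂ) * (conj (φ y) * ψ y)) := fun y => by ring
    have e3 : ∀ y, conj (φ y) * (c * ψ y) = c * (conj (φ y) * ψ y) := fun y => by ring
    simp only [e1, e2, e3, integral_const_mul, ← Finset.mul_sum]
    rw [← mul_add, h5]
    ring

theorem rh_pos (x : V3) : 0 < rh x := by
  unfold rh nsq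
  apply Real.sqrt_pos.2
  have : 0 ≤ ∑ i, x i ^ 2 := Finset.sum_nonneg fun i _ => sq_nonneg _
  linarith

theorem psE_ne (ε : ℝ) (x : V3) : psE ε x ≠ 0 := by
  unfold psE
  have h := rh_pos x
  rw [Complex.ofReal_ne_zero]
  exact (mul_pos (inv_pos.2 h) (Real.exp_pos _)).ne'

theorem one_le (h1 : WIB_Stmt) (h2 : PSE_Stmt) (h3 : VEI_Stmt) {L : ℝ} (hL : RadialCLR L)
    {ε : ℝ} (hε : 0 < ε) (hε1 : ε ≤ 1) :
    1 ≤ L * ∫ x, max (-vE ε x) 0 ^ ((3 : ℝ) / 2) := by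
  obtain ⟨hs, heq, hdec⟩ := h2 ε hε hε1
  obtain ⟨hmem, hrad, hcont, hbd⟩ := h3.1 ε hε hε1
  have heig : IsEigenfunctionD (vE ε) (psE ε) (-(ε ^ 2)) := h1 _ _ _ hs hcont hbd heq hdec
  have hmem2 : MemLp (psE ε) 2 volume := by
    obtain ⟨g, hg, -⟩ := heig
    exact hg.1
  have hint : Integrable (fun x => ‖psE ε x‖ ^ 2) volume :=
    (memLp_two_iff_integrable_sq_norm hmem2.1).1 hmem2
  have hpos : 0 < ∫ x, ‖psE ε x‖ ^ 2 := by
    rw [integral_pos_iff_support_of_nonneg (fun x => by positivity) hint]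
    have hsupp : Function.support (fun x => ‖psE ε x‖ ^ 2) = Set.univ := by
      ext x
      simp [psE_ne ε x]
    rw [hsupp]
    simp
  obtain ⟨I, hI⟩ : ∃ I, I = ∫ x, ‖psE ε x‖ ^ 2 := ⟨_, rfl⟩
  rw [← hI] at hpos
  have hkey := hL (vE ε) hmem hrad 1 (fun _ => fun x => (((√I)⁻¹ : ℝ) : ℂ) * psE ε x)
    (fun _ => -(ε ^ 2)) (fun _ => eig_smul heig _) (fun _ => by
      have : 0 < ε ^ 2 := by positivity
      linarith) ?_
  · simpa using hkey
  · intro i j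
    rw [if_pos (Subsingleton.elim i j)]
    have e : ∀ y, conj ((((√I)⁻¹ : ℝ) : ℂ) * psE ε y) * ((((√I)⁻¹ : ℝ) : ℂ) * psE ε y) =
        ((I⁻¹ * ‖psE ε y‖ ^ 2 : ℝ) : ℂ) := by
      intro y
      have h4 : (√I)⁻¹ * (√I)⁻¹ = I⁻¹ := by
        rw [← mul_inv, Real.mul_self_sqrt hpos.le]
      have h5 : conj (psE ε y) * psE ε y = ((‖psE ε y‖ ^ 2 : ℝ) : ℂ) := by
        rw [Complex.conj_mul']
        push_cast
        rfl
      rw [map_mul, Complex.conj_ofReal]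
      calc ((√I)⁻¹ : ℝ) * conj (psE ε y) * ((((√I)⁻¹ : ℝ) : ℂ) * psE ε y)
          = ((((√I)⁻¹ * (√I)⁻¹ : ℝ)) : ℂ) * (conj (psE ε y) * psE ε y) := by
            push_cast
            ring
        _ = _ := by
            rw [h4, h5]
            push_cast
            rfl
    simp only [e]
    rw [integral_complex_ofReal, integral_const_mul, ← hI, inv_mul_cancel₀ hpos.ne']
    simp

end LWB

/-- The constant `C0` is optimal. -/
theorem lwb : LWB_Stmt := by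
  intro h1 h2 h3 L hL
  have hlim : Tendsto (fun ε : ℝ => L * ∫ x, max (-vE ε x) 0 ^ ((3 : ℝ) / 2)) (𝓝[>] 0)
      (𝓝 (L * (3 * √3 * Real.pi ^ 2 / 4))) := h3.2.const_mul L
  have hev : ∀ᶠ ε in 𝓝[>] (0 : ℝ), 1 ≤ L * ∫ x, max (-vE ε x) 0 ^ ((3 : ℝ) / 2) := by
    have h4 : Set.Ioc (0 : ℝ) 1 ∈ 𝓝[>] (0 : ℝ) := Ioc_mem_nhdsGT one_pos
    filter_upwards [h4] with ε hε
    exact LWB.one_le h1 h2 h3 hL hε.1 hε.2
  have h5 : 1 ≤ L * (3 * √3 * Real.pi ^ 2 / 4) := ge_of_tendsto hlim hev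
  have h6 : 0 < √(3 : ℝ) := Real.sqrt_pos.2 (by norm_num)
  have hπ := Real.pi_pos
  unfold C0
  rw [div_le_iff₀ (by positivity)]
  nlinarith

end Pool.Agent.RC
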