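import Pool.Agent.RC.Base
import Pool.Agent.LT.KinAux

/-!
# Gram and form matrices of `H¹(ℝ)` functions
(MP_4c716f_mp, module MTX)
-/

set_option autoImplicit false

namespace Pool.Agent.RC

open MeasureTheory Matrix Finset Filter Topology
open scoped ComplexConjugate ComplexOrder ContDiff
open Pool.Agent.LT (IsH1v ACv)
open Pool.Agent.LT.KinAux (acv_of_h1 acv_continuous)

namespace MTX

variable {ι : Type*} [Fintype ι]

/-- One-sided sesquilinearity. -/
theorem half (F : ι → ℝ → ℂ) (w : ℝ → ℂ) (g : ℝ → ℂ)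
    (hint : ∀ q, Integrable (fun t => w t * (g t * conj (F q t)))) (y : ι → ℂ) :
    ∑ q, (∫ t, w t * (g t * conj (F q t))) * y q =
      ∫ t, w t * (g t * conj (∑ q, conj (y q) * F q t)) := by
  have h1 : ∀ q, (∫ t, w t * (g t * conj (F q t))) * y q =
      ∫ t, (w t * (g t * conj (F q t))) * y q := fun q => (integral_mul_const _ _).symm
  simp_rw [h1]
  rw [← integral_finsetSum _ fun q _ => (hint q).mul_const (y q)]
  congr 1
  funext t
  rw [map_sum, Finset.mul_sum, Finset.mul_sum]
  refine Finset.sum_congr rfl fun q _ => ?_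
  rw [map_mul, Complex.conj_conj]
  ring

theorem half_int (F : ι → ℝ → ℂ) (w : ℝ → ℂ) (g : ℝ → ℂ)
    (hint : ∀ q, Integrable (fun t => w t * (g t * conj (F q t)))) (y : ι → ℂ) :
    Integrable (fun t => w t * (g t * conj (∑ q, conj (y q) * F q t))) := by
  have h1 : (fun t => w t * (g t * conj (∑ q, conj (y q) * F q t))) =
      fun t => ∑ q, (w t * (g t * conj (F q t))) * y q := by
    funext t
    rw [map_sum, Finset.mul_sum, Finset.mul_sum]
    refine Finset.sum_congr rfl fun q _ => ?_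
    rw [map_mul, Complex.conj_conj]
    ring
  rw [h1]
  exact integrable_finsetSum _ fun q _ => (hint q).mul_const (y q)

/-- Sesquilinearity. -/
theorem sesq (F : ι → ℝ → ℂ) (w : ℝ → ℂ)
    (hint : ∀ p q, Integrable (fun t => w t * (F p t * conj (F q t)))) (x y : ι → ℂ) :
    ∑ p, conj (x p) * ∑ q, (∫ t, w t * (F p t * conj (F q t))) * y q =
      ∫ t, w t * ((∑ p, conj (x p) * F p t) * conj (∑ q, conj (y q) * F q t)) := by
  have h1 : ∀ p, conj (x p) * ∑ q, (∫ t, w t * (F p t * conj (F q t))) * y q =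
      ∫ t, conj (x p) * (w t * (F p t * conj (∑ q, conj (y q) * F q t))) := fun p => by
    rw [half F w (F p) (hint p) y, integral_const_mul]
  simp_rw [h1]
  rw [← integral_finsetSum _ fun p _ => (half_int F w (F p) (hint p) y).const_mul _]
  congr 1
  funext t
  rw [Finset.sum_mul, Finset.mul_sum]
  refine Finset.sum_congr rfl fun p _ => ?_
  ring

theorem herm (w : ℝ → ℂ) (hw : ∀ t, conj (w t) = w t) (f g : ℝ → ℂ) :
    conj (∫ t, w t * (f t * conj (g t))) = ∫ t, w t * (g t * conj (f t)) := by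
  rw [← integral_conj]
  congr 1
  funext t
  rw [map_mul, map_mul, Complex.conj_conj, hw]
  ring

theorem int_mul_conj {f g : ℝ → ℂ} (hf : MemLp f 2 volume) (hg : MemLp g 2 volume) :
    Integrable (fun t => f t * conj (g t)) :=
  hf.integrable_mul (MemLp.star hg)

theorem int_W {f g : ℝ → ℂ} (hf : MemLp f 2 volume) (hg : MemLp g 2 volume) {W : ℝ → ℝ}
    (hW : AEStronglyMeasurable W volume) (hW0 : ∀ t, 0 ≤ W t) {B : ℝ} (hB : ∀ t, W t ≤ B) :
    Integrable (fun t => (W t : ℂ) * (f t * conj (g t))) := by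
  refine (int_mul_conj hf hg).bdd_mul (c := B)
    (Complex.continuous_ofReal.comp_aestronglyMeasurable hW) (ae_of_all _ fun t => ?_)
  rw [Complex.norm_real, Real.norm_of_nonneg (hW0 t)]
  exact hB t

theorem isH1_sum {u u' : ι → ℝ → ℂ} (h : ∀ p, IsH1v (u p) (u' p)) (x : ι → ℂ) :
    IsH1v (fun t => ∑ p, conj (x p) * u p t) (fun t => ∑ p, conj (x p) * u' p t) := by
  refine ⟨memLp_finsetSum _ fun p _ => (h p).1.const_mul _,
    memLp_finsetSum _ fun p _ => (h p).2.1.const_mul _, fun a b => ?_⟩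
  rw [intervalIntegral.integral_finsetSum fun p _ => ((acv_of_h1 (h p)).1 a b).const_mul _,
    ← Finset.sum_sub_distrib]
  refine Finset.sum_congr rfl fun p _ => ?_
  rw [intervalIntegral.integral_const_mul, ← (h p).2.2 a b]
  ring

/-- A function of `H¹` which vanishes almost everywhere. -/
theorem isH1_zero {v v' : ℝ → ℂ} (h : IsH1v v v') (h0 : v =ᵐ[volume] 0) :
    (∀ t, v t = 0) ∧ v' =ᵐ[volume] 0 := by
  have hac : ACv v v' := acv_of_h1 h
  have hc : Continuous v := acv_continuous hac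
  have h1 : v = 0 := by
    have := (Continuous.ae_eq_iff_eq volume hc (continuous_const (y := (0 : ℂ)))).1 h0
    exact this
  refine ⟨fun t => congrFun h1 t, ?_⟩
  have hloc : LocallyIntegrable v' volume := h.2.1.locallyIntegrable (by norm_num)
  filter_upwards [LocallyIntegrable.ae_hasDerivAt_integral hloc] with t ht
  have h2 : (fun x : ℝ => ∫ s in (0 : ℝ)..x, v' s) = fun _ => 0 := by
    funext x
    rw [← h.2.2 0 x, h1]
    simp
  have h3 := ht 0
  rw [h2] at h3
  exact h3.unique (hasDerivAt_const t (0 : ℂ))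

theorem int_norm_sq (W : ℝ → ℝ) (v : ℝ → ℂ) :
    ∫ t, (W t : ℂ) * (v t * conj (v t)) = ((∫ t, W t * ‖v t‖ ^ 2 : ℝ) : ℂ) := by
  rw [← integral_complex_ofReal]
  congr 1
  funext t
  rw [Complex.mul_conj']
  push_cast
  rfl

end MTX

open MTX in
theorem mtx : MTX_Stmt := by
  intro N K u u' W hu hWm hW0 hWB G H hG hH
  obtain ⟨B, hB⟩ := hWB
  have i0 : ∀ p q, Integrable (fun t => (fun _ : ℝ => (1 : ℂ)) t * (u p t * conj (u q t))) := by
    intro p q
    simpa using int_mul_conj (hu p).1 (hu q).1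
  have i1 : ∀ p q, Integrable (fun t => (fun _ : ℝ => (1 : ℂ)) t * (u' p t * conj (u' q t))) := by
    intro p q
    simpa using int_mul_conj (hu p).2.1 (hu q).2.1
  have iW : ∀ p q, Integrable (fun t => (fun t => (W t : ℂ)) t * (u p t * conj (u q t))) :=
    fun p q => int_W (hu p).1 (hu q).1 hWm hW0 hB
  have hGe : ∀ p q, G p q = ∫ t, (fun _ : ℝ => (1 : ℂ)) t * (u p t * conj (u q t)) := by
    intro p q
    rw [hG]
    simp
  have hHe : ∀ p q, H p q = (∫ t, (fun _ : ℝ => (1 : ℂ)) t * (u' p t * conj (u' q t))) -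
      ∫ t, (fun t => (W t : ℂ)) t * (u p t * conj (u q t)) := by
    intro p q
    rw [hH]
    simp
  have hGx : ∀ x : Fin N × Fin K → ℂ, (star x ⬝ᵥ (G *ᵥ x)) =
      ((∫ t, ‖∑ p, conj (x p) * u p t‖ ^ 2 : ℝ) : ℂ) := by
    intro x
    have h1 := sesq u (fun _ => (1 : ℂ)) i0 x x
    have h2 := int_norm_sq (fun _ => 1) (fun t => ∑ p, conj (x p) * u p t)
    simp only [Complex.ofReal_one, one_mul] at h1 h2
    rw [← h2, ← h1]
    simp only [dotProduct, mulVec, Pi.star_apply, hGe, RCLike.star_def, one_mul]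
  have hHx : ∀ x : Fin N × Fin K → ℂ, (star x ⬝ᵥ (H *ᵥ x)) =
      (((∫ t, ‖∑ p, conj (x p) * u' p t‖ ^ 2) -
        ∫ t, W t * ‖∑ p, conj (x p) * u p t‖ ^ 2 : ℝ) : ℂ) := by
    intro x
    have h1 := sesq u' (fun _ => (1 : ℂ)) i1 x x
    have h2 := int_norm_sq (fun _ => 1) (fun t => ∑ p, conj (x p) * u' p t)
    have h3 := sesq u (fun t => (W t : ℂ)) iW x x
    have h4 := int_norm_sq W (fun t => ∑ p, conj (x p) * u p t)
    simp only [Complex.ofReal_one, one_mul] at h1 h2
    rw [Complex.ofReal_sub, ← h2, ← h1, ← h4, ← h3, ← Finset.sum_sub_distrib]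
    simp only [dotProduct, mulVec, Pi.star_apply, hHe, RCLike.star_def, one_mul]
    refine Finset.sum_congr rfl fun p _ => ?_
    rw [← mul_sub, ← Finset.sum_sub_distrib]
    congr 1
    exact Finset.sum_congr rfl fun q _ => sub_mul _ _ _
  have hGh : G.IsHermitian := by
    ext p q
    rw [conjTranspose_apply, hGe, hGe]
    exact herm (fun _ => (1 : ℂ)) (fun _ => map_one _) (u q) (u p)
  have hHh : H.IsHermitian := by
    ext p q
    rw [conjTranspose_apply, hHe, hHe, star_sub]
    congr 1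
    · exact herm (fun _ => (1 : ℂ)) (fun _ => map_one _) (u' q) (u' p)
    · exact herm (fun t => (W t : ℂ)) (fun t => Complex.conj_ofReal _) (u q) (u p)
  have hv : ∀ x : Fin N × Fin K → ℂ,
      IsH1v (fun t => ∑ p, conj (x p) * u p t) (fun t => ∑ p, conj (x p) * u' p t) :=
    fun x => isH1_sum hu x
  refine ⟨?_, hHh, ?_, fun x => ⟨hv x, hGx x, hHx x⟩, ?_⟩
  · refine PosSemidef.of_dotProduct_mulVec_nonneg hGh fun x => ?_
    rw [hGx x]
    exact Complex.zero_le_real.2 (integral_nonneg fun t => by positivity)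
  · intro x hx
    have h1 : (∫ t, ‖∑ p, conj (x p) * u p t‖ ^ 2) = 0 := by
      have := hGx x
      rw [hx, dotProduct_zero] at this
      exact_mod_cast this.symm
    have h2 : (fun t => ∑ p, conj (x p) * u p t) =ᵐ[volume] 0 := by
      have h3 := (integral_eq_zero_iff_of_nonneg (fun t => by positivity)
        (hv x).1.norm.integrable_sq).1 h1
      filter_upwards [h3] with t ht
      simpa using ht
    obtain ⟨h4, h5⟩ := isH1_zero (hv x) h2
    funext p
    have h6 := half u' (fun _ => (1 : ℂ)) (u' p) (i1 p) x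
    have h7 := half u (fun t => (W t : ℂ)) (u p) (iW p) x
    have h8 : (H *ᵥ x) p = (∫ t, (fun _ : ℝ => (1 : ℂ)) t *
        (u' p t * conj (∑ q, conj (x q) * u' q t))) -
        ∫ t, (fun t => (W t : ℂ)) t * (u p t * conj (∑ q, conj (x q) * u q t)) := by
      rw [← h6, ← h7, ← Finset.sum_sub_distrib]
      simp only [mulVec, dotProduct, hHe]
      exact Finset.sum_congr rfl fun q _ => sub_mul _ _ _
    rw [h8]
    have h9 : (∫ t, (fun _ : ℝ => (1 : ℂ)) t *
        (u' p t * conj (∑ q, conj (x q) * u' q t))) = 0 := by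
      refine integral_eq_zero_of_ae ?_
      filter_upwards [h5] with t ht
      have ht' : ∑ q, conj (x q) * u' q t = 0 := ht
      rw [ht']
      simp
    have h10 : ∫ t, (fun t => (W t : ℂ)) t * (u p t * conj (∑ q, conj (x q) * u q t)) = 0 := by
      refine integral_eq_zero_of_ae (ae_of_all _ fun t => ?_)
      have := h4 t
      simp [this]
    rw [h9, h10]
    simp
  · intro m Bm i j
    have h1 := sesq u (fun _ => (1 : ℂ)) i0 (fun p => Bm p i) (fun p => Bm p j)
    simp only [one_mul] at h1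
    rw [← h1]
    rw [Matrix.mul_assoc]
    simp only [mul_apply, conjTranspose_apply, RCLike.star_def, hGe, one_mul]

end Pool.Agent.RC
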