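import Pool.Agent.RC.Base

/-!
# PLY: rotational derivatives of polynomials
-/

set_option autoImplicit false

namespace Pool.Agent.RC

open MeasureTheory Matrix Finset
open scoped ComplexConjugate ComplexOrder ContDiff

namespace PLY

open MvPolynomial (X C coeff pderiv monomial)

/-! ### Degrees -/

lemma degLt_iff {n : ℕ} {p : MvPolynomial (Fin 3) ℂ} :
    DegLt n p ↔ ∀ m : Fin 3 →₀ ℕ, n ≤ ∑ i, m i → coeff m p = 0 := by
  constructor
  · intro h m hm
    by_contra hc
    have := h m (MvPolynomial.mem_support_iff.2 hc)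
    omega
  · intro h m hm
    by_contra hc
    exact MvPolynomial.mem_support_iff.1 hm (h m (by omega))

lemma sum_add_single (m : Fin 3 →₀ ℕ) (k : Fin 3) :
    ∑ i, (m + Finsupp.single k 1 : Fin 3 →₀ ℕ) i = ∑ i, m i + 1 := by
  simp only [Finsupp.add_apply, Finset.sum_add_distrib]
  congr 1
  simp [Finsupp.single_apply]

lemma degLt_pderiv {n : ℕ} {p : MvPolynomial (Fin 3) ℂ} (h : DegLt (n + 1) p) (k : Fin 3) :
    DegLt n (pderiv k p) := by
  rw [degLt_iff] at h ⊢
  intro m hm
  rw [MvPolynomial.coeff_pderiv, h _ (by rw [sum_add_single]; omega), zero_mul]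

lemma degLt_X_mul {n : ℕ} {p : MvPolynomial (Fin 3) ℂ} (h : DegLt n p) (k : Fin 3) :
    DegLt (n + 1) (X k * p) := by
  rw [degLt_iff] at h ⊢
  intro m hm
  rw [MvPolynomial.coeff_X_mul']
  split_ifs with hk
  · apply h
    have h1 : m - Finsupp.single k 1 + Finsupp.single k 1 = m := by
      apply tsub_add_cancel_of_le
      rw [Finsupp.single_le_iff]
      exact Nat.one_le_iff_ne_zero.2 (Finsupp.mem_support_iff.1 hk)
    have h2 := sum_add_single (m - Finsupp.single k 1) k
    rw [h1] at h2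
    omega
  · rfl

lemma degLt_sub {n : ℕ} {p q : MvPolynomial (Fin 3) ℂ} (hp : DegLt n p) (hq : DegLt n q) :
    DegLt n (p - q) := by
  rw [degLt_iff] at hp hq ⊢
  intro m hm
  rw [MvPolynomial.coeff_sub, hp m hm, hq m hm, sub_zero]

lemma degLt_sum {n : ℕ} {p : Fin 3 → MvPolynomial (Fin 3) ℂ} (hp : ∀ k, DegLt n (p k)) :
    DegLt n (∑ k, p k) := by
  rw [degLt_iff]
  intro m hm
  rw [MvPolynomial.coeff_sum]
  exact Finset.sum_eq_zero fun k _ => degLt_iff.1 (hp k) m hm

lemma degLt_mono {n n' : ℕ} {p : MvPolynomial (Fin 3) ℂ} (hp : DegLt n p) (h : n ≤ n') :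
    DegLt n' p := fun m hm => lt_of_lt_of_le (hp m hm) h

lemma degLt_zero {p : MvPolynomial (Fin 3) ℂ} (hp : DegLt 0 p) : p = 0 := by
  rw [degLt_iff] at hp
  ext m
  rw [hp m (Nat.zero_le _), MvPolynomial.coeff_zero]

/-! ### Operators on polynomials -/

/-- the rotational derivative -/
noncomputable def Dp (i : Fin 3) (p : MvPolynomial (Fin 3) ℂ) : MvPolynomial (Fin 3) ℂ :=
  X (i + 1) * pderiv (i + 2) p - X (i + 2) * pderiv (i + 1) p

/-- the Euler operator -/
noncomputable def Ep (p : MvPolynomial (Fin 3) ℂ) : MvPolynomial (Fin 3) ℂ :=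
  ∑ k, X k * pderiv k p

/-- the Laplacian -/
noncomputable def Lp (p : MvPolynomial (Fin 3) ℂ) : MvPolynomial (Fin 3) ℂ :=
  ∑ k, pderiv k (pderiv k p)

lemma coeff_Ep (p : MvPolynomial (Fin 3) ℂ) (m : Fin 3 →₀ ℕ) :
    coeff m (Ep p) = ((∑ i, m i : ℕ) : ℂ) * coeff m p := by
  unfold Ep
  rw [MvPolynomial.coeff_sum, Nat.cast_sum, Finset.sum_mul]
  refine Finset.sum_congr rfl fun k _ => ?_
  rw [MvPolynomial.coeff_X_mul']
  split_ifs with hk
  · have h0 : m k ≠ 0 := Finsupp.mem_support_iff.1 hk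
    have h1 : m - Finsupp.single k 1 + Finsupp.single k 1 = m := by
      apply tsub_add_cancel_of_le
      rw [Finsupp.single_le_iff]
      exact Nat.one_le_iff_ne_zero.2 h0
    rw [MvPolynomial.coeff_pderiv, h1, mul_comm]
    congr 1
    have h2 : (m - Finsupp.single k 1 : Fin 3 →₀ ℕ) k + 1 = m k := by
      rw [Finsupp.tsub_apply, Finsupp.single_eq_same]
      omega
    exact_mod_cast h2
  · have h0 : m k = 0 := by
      by_contra h
      exact hk (Finsupp.mem_support_iff.2 h)
    rw [h0]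
    simp

lemma pderiv_comm (a b : Fin 3) (p : MvPolynomial (Fin 3) ℂ) :
    pderiv a (pderiv b p) = pderiv b (pderiv a p) := by
  by_cases hab : a = b
  · rw [hab]
  · ext m
    rw [MvPolynomial.coeff_pderiv, MvPolynomial.coeff_pderiv, MvPolynomial.coeff_pderiv,
      MvPolynomial.coeff_pderiv, add_right_comm m (Finsupp.single a 1) (Finsupp.single b 1)]
    have h1 : (m + Finsupp.single a 1 : Fin 3 →₀ ℕ) b = m b := by
      rw [Finsupp.add_apply, Finsupp.single_eq_of_ne (Ne.symm hab), add_zero]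
    have h2 : (m + Finsupp.single b 1 : Fin 3 →₀ ℕ) a = m a := by
      rw [Finsupp.add_apply, Finsupp.single_eq_of_ne hab, add_zero]
    rw [h1, h2]
    ring

lemma Dp_sq (a b : Fin 3) (hab : a ≠ b) (p : MvPolynomial (Fin 3) ℂ) :
    X a * pderiv b (X a * pderiv b p - X b * pderiv a p) -
      X b * pderiv a (X a * pderiv b p - X b * pderiv a p) =
    X a ^ 2 * pderiv b (pderiv b p) + X b ^ 2 * pderiv a (pderiv a p) -
      2 * (X a * X b * pderiv a (pderiv b p)) - X a * pderiv a p - X b * pderiv b p := by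
  rw [map_sub, map_sub, MvPolynomial.pderiv_mul, MvPolynomial.pderiv_mul, MvPolynomial.pderiv_mul,
    MvPolynomial.pderiv_mul, MvPolynomial.pderiv_X_self, MvPolynomial.pderiv_X_self,
    MvPolynomial.pderiv_X_of_ne hab, MvPolynomial.pderiv_X_of_ne (Ne.symm hab),
    pderiv_comm b a p]
  ring

lemma Ep_sq (p : MvPolynomial (Fin 3) ℂ) :
    Ep (Ep p) = Ep p + (X 0 ^ 2 * pderiv 0 (pderiv 0 p) + X 1 ^ 2 * pderiv 1 (pderiv 1 p) +
      X 2 ^ 2 * pderiv 2 (pderiv 2 p)) + 2 * (X 0 * X 1 * pderiv 0 (pderiv 1 p)) +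
      2 * (X 1 * X 2 * pderiv 1 (pderiv 2 p)) + 2 * (X 2 * X 0 * pderiv 2 (pderiv 0 p)) := by
  unfold Ep
  simp only [Fin.sum_univ_three, map_add, MvPolynomial.pderiv_mul, MvPolynomial.pderiv_X_self]
  rw [MvPolynomial.pderiv_X_of_ne (show (1 : Fin 3) ≠ 0 by decide),
    MvPolynomial.pderiv_X_of_ne (show (2 : Fin 3) ≠ 0 by decide),
    MvPolynomial.pderiv_X_of_ne (show (0 : Fin 3) ≠ 1 by decide),
    MvPolynomial.pderiv_X_of_ne (show (2 : Fin 3) ≠ 1 by decide),
    MvPolynomial.pderiv_X_of_ne (show (0 : Fin 3) ≠ 2 by decide),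
    MvPolynomial.pderiv_X_of_ne (show (1 : Fin 3) ≠ 2 by decide),
    pderiv_comm 1 0 p, pderiv_comm 2 1 p, pderiv_comm 0 2 p]
  ring

lemma sum_Dp (p : MvPolynomial (Fin 3) ℂ) :
    ∑ i, Dp i (Dp i p) = (X 0 ^ 2 + X 1 ^ 2 + X 2 ^ 2) * Lp p - (Ep (Ep p) + Ep p) := by
  have e0 : Dp 0 (Dp 0 p) = _ := Dp_sq 1 2 (by decide) p
  have e1 : Dp 1 (Dp 1 p) = _ := Dp_sq 2 0 (by decide) p
  have e2 : Dp 2 (Dp 2 p) = _ := Dp_sq 0 1 (by decide) p
  rw [Fin.sum_univ_three, e0, e1, e2, Ep_sq]
  unfold Lp Ep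
  simp only [Fin.sum_univ_three]
  ring

/-! ### Polynomial functions -/

lemma contDiff_coord (i : Fin 3) : ContDiff ℝ ∞ (fun x : V3 => (x i : ℂ)) :=
  Complex.ofRealCLM.contDiff.comp (contDiff_apply ℝ ℝ i)

lemma contDiff_evp (p : MvPolynomial (Fin 3) ℂ) : ContDiff ℝ ∞ (evp p) := by
  induction p using MvPolynomial.induction_on with
  | C a =>
    have : evp (C a) = fun _ => a := by
      funext x
      simp [evp]
    rw [this]
    exact contDiff_const
  | add p q hp hq =>
    have : evp (p + q) = fun x => evp p x + evp q x := by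
      funext x
      simp [evp]
    rw [this]
    exact hp.add hq
  | mul_X p i hp =>
    have : evp (p * X i) = fun x => evp p x * (x i : ℂ) := by
      funext x
      simp [evp]
    rw [this]
    exact hp.mul (contDiff_coord i)

lemma hasFDerivAt_coord (i : Fin 3) (x : V3) : HasFDerivAt (fun x : V3 => (x i : ℂ))
    (Complex.ofRealCLM.comp (ContinuousLinearMap.proj i : V3 →L[ℝ] ℝ)) x :=
  (Complex.ofRealCLM.comp (ContinuousLinearMap.proj i : V3 →L[ℝ] ℝ)).hasFDerivAt

lemma pd3_evp (k : Fin 3) (p : MvPolynomial (Fin 3) ℂ) (x : V3) :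
    pd3 k (evp p) x = evp (pderiv k p) x := by
  induction p using MvPolynomial.induction_on with
  | C a =>
    have : evp (C a) = fun _ => a := by
      funext x
      simp [evp]
    unfold pd3
    rw [this]
    simp [evp]
  | add p q hp hq =>
    have : evp (p + q) = fun x => evp p x + evp q x := by
      funext x
      simp [evp]
    unfold pd3 at hp hq ⊢
    rw [this, fderiv_fun_add ((contDiff_evp p).differentiable (by simp) x)
      ((contDiff_evp q).differentiable (by simp) x), _root_.add_apply, hp, hq]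
    simp [evp]
  | mul_X p i hp =>
    have : evp (p * X i) = fun x => evp p x * (x i : ℂ) := by
      funext x
      simp [evp]
    have hd : HasFDerivAt (evp p) (fderiv ℝ (evp p) x) x :=
      ((contDiff_evp p).differentiable (by simp) x).hasFDerivAt
    have hh : HasFDerivAt (fun x => evp p x * (x i : ℂ))
        (evp p x • (Complex.ofRealCLM.comp (ContinuousLinearMap.proj i : V3 →L[ℝ] ℝ)) +
          (x i : ℂ) • fderiv ℝ (evp p) x) x := hd.mul (hasFDerivAt_coord i x)
    unfold pd3 at hp ⊢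
    rw [this, hh.fderiv, _root_.add_apply, ContinuousLinearMap.smul_apply,
      ContinuousLinearMap.smul_apply, hp]
    have h1 : (Complex.ofRealCLM.comp (ContinuousLinearMap.proj i : V3 →L[ℝ] ℝ))
        (Pi.single k 1 : V3) = evp (pderiv k (X i)) x := by
      rw [ContinuousLinearMap.comp_apply, ContinuousLinearMap.proj_apply]
      by_cases hik : i = k
      · subst hik
        rw [Pi.single_eq_same, MvPolynomial.pderiv_X_self]
        simp [evp]
      · rw [Pi.single_eq_of_ne hik, MvPolynomial.pderiv_X_of_ne hik]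
        simp [evp]
    rw [h1, MvPolynomial.pderiv_mul]
    simp only [evp, map_add, map_mul, MvPolynomial.eval_X, smul_eq_mul]
    ring

lemma Dr_evp (i : Fin 3) (p : MvPolynomial (Fin 3) ℂ) : Dr i (evp p) = evp (Dp i p) := by
  funext x
  unfold Dr
  rw [pd3_evp, pd3_evp]
  simp [evp, Dp]

end PLY

open PLY in
/-- **(PLY)** -/
theorem ply : PLY_Stmt := by
  refine ⟨contDiff_evp, fun p i => ⟨Dp i p, fun n hn => ?_, fun x => by rw [Dr_evp]⟩,
    fun n p hp => ?_⟩
  · cases n with
    | zero =>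
      have h0 := degLt_zero hn
      rw [h0]
      unfold Dp
      rw [map_zero, map_zero, mul_zero, mul_zero, sub_zero]
      intro m hm
      simp at hm
    | succ n =>
      exact degLt_sub (degLt_X_mul (degLt_pderiv hn _) _) (degLt_X_mul (degLt_pderiv hn _) _)
  · refine ⟨(Ep (Ep p) + Ep p - MvPolynomial.C ((n : ℂ) * (n + 1)) * p) - Lp p, ?_, ?_⟩
    · refine degLt_sub ?_ (degLt_sum fun k => ?_)
      · rw [degLt_iff]
        intro m hm
        rw [MvPolynomial.coeff_sub, MvPolynomial.coeff_add, coeff_Ep, coeff_Ep,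
          MvPolynomial.coeff_C_mul]
        rcases Nat.eq_or_lt_of_le hm with h | h
        · rw [← h]
          ring
        · rw [degLt_iff.1 hp m h]
          ring
      · cases n with
        | zero =>
          have h0 := degLt_zero (degLt_pderiv hp k)
          rw [h0, map_zero]
          intro m hm
          simp at hm
        | succ n => exact degLt_mono (degLt_pderiv (degLt_pderiv hp k) k) (Nat.le_succ n)
    · intro s
      have h1 : ∑ i, Dr i (Dr i (evp p)) (om s) = evp (∑ i, Dp i (Dp i p)) (om s) := by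
        simp only [Dr_evp]
        simp [evp]
      have h2 : ((om s 0 : ℝ) : ℂ) ^ 2 + ((om s 1 : ℝ) : ℂ) ^ 2 + ((om s 2 : ℝ) : ℂ) ^ 2 = 1 := by
        have := nsq_om s
        unfold nsq at this
        rw [Fin.sum_univ_three] at this
        exact_mod_cast this
      rw [h1, sum_Dp]
      simp only [evp, map_sub, map_add, map_mul, map_pow, MvPolynomial.eval_X,
        MvPolynomial.eval_C]
      rw [h2]
      ring

end Pool.Agent.RC
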