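import Pool.Agent.RC.Base

/-!
# Sharp CLR inequality for radial potentials in `ℝ³`: module PSE, the extremal functions
-/

set_option autoImplicit false

namespace Pool.Agent.RC

open MeasureTheory Matrix Finset Filter Topology
open scoped ComplexConjugate ComplexOrder ContDiff

namespace PSE

/-- The linear form `v ↦ ∑ x_i v_i`. -/
noncomputable def ell (x : V3) : V3 →L[ℝ] ℝ :=
  ∑ i, x i • (ContinuousLinearMap.proj i : V3 →L[ℝ] ℝ)

theorem ell_single (x : V3) (k : Fin 3) : ell x (Pi.single k 1) = x k := by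
  simp [ell, Pi.single_apply]

theorem hasFDerivAt_nsq (x : V3) : HasFDerivAt nsq ((2 : ℝ) • ell x) x := by
  have h : ∀ i ∈ (Finset.univ : Finset (Fin 3)), HasFDerivAt (fun y : V3 => y i ^ 2)
      ((2 * x i) • (ContinuousLinearMap.proj i : V3 →L[ℝ] ℝ)) x := by
    intro i _
    have h1 : HasFDerivAt (fun y : V3 => y i) (ContinuousLinearMap.proj i : V3 →L[ℝ] ℝ) x :=
      (ContinuousLinearMap.proj i : V3 →L[ℝ] ℝ).hasFDerivAt
    have h2 := (hasDerivAt_pow 2 (x i)).comp_hasFDerivAt x h1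
    refine HasFDerivAt.congr_fderiv h2 ?_
    norm_num
  have h3 := HasFDerivAt.fun_sum h
  refine (h3.congr_fderiv ?_)
  rw [ell, Finset.smul_sum]
  exact Finset.sum_congr rfl fun i _ => by rw [smul_smul]

theorem nsq_nonneg (x : V3) : 0 ≤ nsq x := Finset.sum_nonneg fun i _ => sq_nonneg _

theorem rh_sq (x : V3) : rh x ^ 2 = 1 + nsq x :=
  Real.sq_sqrt (by linarith [nsq_nonneg x])

theorem one_le_rh (x : V3) : 1 ≤ rh x := by
  rw [rh]
  exact Real.one_le_sqrt.2 (by linarith [nsq_nonneg x])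

theorem rh_pos (x : V3) : 0 < rh x := lt_of_lt_of_le one_pos (one_le_rh x)

theorem hasFDerivAt_rh (x : V3) : HasFDerivAt rh ((1 / rh x) • ell x) x := by
  have h1 : HasFDerivAt (fun y : V3 => 1 + nsq y) ((2 : ℝ) • ell x) x :=
    (hasFDerivAt_nsq x).const_add 1
  have h0 : 1 + nsq x ≠ 0 := by linarith [nsq_nonneg x]
  have h2 := h1.sqrt h0
  refine h2.congr_fderiv ?_
  rw [smul_smul]
  congr 1
  show 1 / (2 * √(1 + nsq x)) * 2 = 1 / √(1 + nsq x)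
  have h3 : √(1 + nsq x) ≠ 0 := (rh_pos x).ne'
  field_simp

/-- `φ(ρ) = ρ⁻¹ exp (-ε (ρ - 1/(2ρ)))` -/
noncomputable def phi (ε r : ℝ) : ℝ := r⁻¹ * Real.exp (-(ε * (r - 1 / (2 * r))))

/-- `g(ρ) = -1/ρ² - ε (1/ρ + 1/(2ρ³))` -/
noncomputable def gg (ε r : ℝ) : ℝ := -(1 / r ^ 2) - ε * (1 / r + 1 / (2 * r ^ 3))

/-- `g'(ρ)` -/
noncomputable def gg' (ε r : ℝ) : ℝ := 2 / r ^ 3 + ε * (1 / r ^ 2 + 3 / (2 * r ^ 4))

theorem hasDerivAt_phi (ε : ℝ) {r : ℝ} (hr : 0 < r) :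
    HasDerivAt (phi ε) (phi ε r * (r * gg ε r)) r := by
  have h1 : HasDerivAt (fun r : ℝ => r⁻¹) (-(r ^ 2)⁻¹) r := hasDerivAt_inv hr.ne'
  have h2 : HasDerivAt (fun r : ℝ => -(ε * (r - 1 / (2 * r)))) (-(ε * (1 + 1 / (2 * r ^ 2)))) r := by
    have h3 : HasDerivAt (fun r : ℝ => r - 1 / 2 * r⁻¹) (1 - 1 / 2 * (-(r ^ 2)⁻¹)) r :=
      (hasDerivAt_id r).sub (h1.const_mul (1 / 2))
    have h4 := (h3.const_mul ε).neg
    refine (h4.congr_deriv ?_).congr_of_eventuallyEq ?_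
    · field_simp
      ring
    · filter_upwards [lt_mem_nhds hr] with s hs
      show -(ε * (s - 1 / (2 * s))) = -(ε * (s - 1 / 2 * s⁻¹))
      field_simp
  have h5 := h1.mul h2.exp
  refine h5.congr_deriv ?_
  unfold phi gg
  field_simp
  ring

theorem hasDerivAt_gg (ε : ℝ) {r : ℝ} (hr : 0 < r) : HasDerivAt (gg ε) (gg' ε r) r := by
  have h1 : HasDerivAt (fun r : ℝ => r⁻¹) (-(r ^ 2)⁻¹) r := hasDerivAt_inv hr.ne'
  have h2 := (h1.pow 2).neg.sub (((h1.add ((h1.pow 3).const_mul (1 / 2)))).const_mul ε)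
  refine (h2.congr_deriv ?_).congr_of_eventuallyEq ?_
  · unfold gg'
    norm_num
    field_simp
    ring
  · filter_upwards [lt_mem_nhds hr] with s hs
    show gg ε s = -(s⁻¹ ^ 2) - ε * (s⁻¹ + 1 / 2 * s⁻¹ ^ 3)
    unfold gg
    field_simp

theorem psE_eq (ε : ℝ) (x : V3) : psE ε x = ((phi ε (rh x) : ℝ) : ℂ) := rfl

theorem pd3_of {u : V3 → ℝ} {L : V3 →L[ℝ] ℝ} {x : V3} (h : HasFDerivAt u L x) (k : Fin 3) :
    pd3 k (fun y => ((u y : ℝ) : ℂ)) x = ((L (Pi.single k 1) : ℝ) : ℂ) := by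
  have h1 := Complex.ofRealCLM.hasFDerivAt.comp x h
  have h2 : fderiv ℝ (fun y => ((u y : ℝ) : ℂ)) x = Complex.ofRealCLM.comp L := h1.fderiv
  rw [pd3, h2]
  rfl

theorem pd3_psE (ε : ℝ) (k : Fin 3) :
    pd3 k (psE ε) = fun x => ((phi ε (rh x) * gg ε (rh x) * x k : ℝ) : ℂ) := by
  funext x
  have h1 := (hasDerivAt_phi ε (rh_pos x)).comp_hasFDerivAt x (hasFDerivAt_rh x)
  have h2 := pd3_of h1 k
  refine h2.trans ?_
  congr 1
  show phi ε (rh x) * (rh x * gg ε (rh x)) * (1 / rh x * ell x (Pi.single k 1)) = _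
  rw [ell_single]
  have := (rh_pos x).ne'
  field_simp

theorem pd3_pd3_psE (ε : ℝ) (k : Fin 3) (x : V3) :
    pd3 k (pd3 k (psE ε)) x = ((phi ε (rh x) * gg ε (rh x) +
      phi ε (rh x) * (gg ε (rh x) ^ 2 + gg' ε (rh x) / rh x) * x k ^ 2 : ℝ) : ℂ) := by
  rw [pd3_psE]
  have h1 := ((hasDerivAt_phi ε (rh_pos x)).mul (hasDerivAt_gg ε (rh_pos x))).comp_hasFDerivAt x
    (hasFDerivAt_rh x)
  have h2 : HasFDerivAt (fun y : V3 => y k) (ContinuousLinearMap.proj k : V3 →L[ℝ] ℝ) x :=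
    (ContinuousLinearMap.proj k : V3 →L[ℝ] ℝ).hasFDerivAt
  have h3 := h1.mul h2
  have h4 := pd3_of h3 k
  refine h4.trans ?_
  congr 1
  show phi ε (rh x) * gg ε (rh x) * (ContinuousLinearMap.proj k : V3 →L[ℝ] ℝ) (Pi.single k 1) +
    x k * ((phi ε (rh x) * (rh x * gg ε (rh x)) * gg ε (rh x) + phi ε (rh x) * gg' ε (rh x)) *
      (1 / rh x * ell x (Pi.single k 1))) = _
  rw [ell_single]
  have h5 : (ContinuousLinearMap.proj k : V3 →L[ℝ] ℝ) (Pi.single k 1) = 1 := by simp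
  rw [h5]
  have := (rh_pos x).ne'
  field_simp

theorem key (ε r : ℝ) (hr : 0 < r) :
    3 * gg ε r + (gg ε r ^ 2 + gg' ε r / r) * (r ^ 2 - 1) = ε ^ 2 +
      -(3 / r ^ 4 + ε * (2 / r ^ 3 + 5 / (2 * r ^ 5)) +
        ε ^ 2 * (3 / (4 * r ^ 4) + 1 / (4 * r ^ 6))) := by
  unfold gg gg'
  field_simp
  ring

theorem contDiff_psE (ε : ℝ) : ContDiff ℝ ∞ (psE ε) := by
  have h1 : ContDiff ℝ ∞ (fun x : V3 => 1 + nsq x) := by
    unfold nsq
    fun_prop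
  have h2 : ContDiff ℝ ∞ rh := h1.sqrt fun x => by linarith [nsq_nonneg x]
  have h3 : ContDiff ℝ ∞ fun x : V3 => (rh x)⁻¹ := h2.inv fun x => (rh_pos x).ne'
  have h4 : ContDiff ℝ ∞ fun x : V3 => (1 : ℝ) / (2 * rh x) :=
    contDiff_const.div (contDiff_const.mul h2) fun x => by have := rh_pos x; positivity
  have h5 : ContDiff ℝ ∞ fun x : V3 => (rh x)⁻¹ * Real.exp (-(ε * (rh x - 1 / (2 * rh x)))) :=
    h3.mul (contDiff_const.mul (h2.sub h4)).neg.exp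
  exact Complex.ofRealCLM.contDiff.comp h5

theorem phi_nonneg (ε : ℝ) {r : ℝ} (hr : 0 < r) : 0 ≤ phi ε r := by
  unfold phi
  positivity

theorem phi_le {ε : ℝ} (h0 : 0 < ε) (h1 : ε ≤ 1) {r : ℝ} (hr : 1 ≤ r) :
    phi ε r ≤ 24 * Real.exp 1 / ε ^ 4 / r ^ 4 := by
  have hr0 : 0 < r := lt_of_lt_of_le one_pos hr
  have h2 : 1 / (2 * r) ≤ 1 := by
    rw [div_le_one (by positivity)]
    linarith
  have h3 : Real.exp (-(ε * (r - 1 / (2 * r)))) ≤ Real.exp 1 * Real.exp (-(ε * r)) := by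
    rw [← Real.exp_add]
    refine Real.exp_le_exp.2 ?_
    have : ε * (1 / (2 * r)) ≤ 1 := mul_le_one₀ h1 (by positivity) h2
    linarith
  have h4 : (ε * r) ^ 4 / 24 ≤ Real.exp (ε * r) := by
    have := Real.pow_div_factorial_le_exp (ε * r) (by positivity) 4
    simpa [Nat.factorial] using this
  have h5 : Real.exp (-(ε * r)) ≤ 24 / (ε * r) ^ 4 := by
    rw [Real.exp_neg, inv_le_comm₀ (Real.exp_pos _) (by positivity)]
    calc (24 / (ε * r) ^ 4)⁻¹ = (ε * r) ^ 4 / 24 := by rw [inv_div]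
      _ ≤ _ := h4
  calc phi ε r = r⁻¹ * Real.exp (-(ε * (r - 1 / (2 * r)))) := rfl
    _ ≤ 1 * Real.exp (-(ε * (r - 1 / (2 * r)))) :=
        mul_le_mul_of_nonneg_right (inv_le_one_of_one_le₀ hr) (Real.exp_pos _).le
    _ = Real.exp (-(ε * (r - 1 / (2 * r)))) := one_mul _
    _ ≤ Real.exp 1 * Real.exp (-(ε * r)) := h3
    _ ≤ Real.exp 1 * (24 / (ε * r) ^ 4) := mul_le_mul_of_nonneg_left h5 (Real.exp_pos _).le
    _ = 24 * Real.exp 1 / ε ^ 4 / r ^ 4 := by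
        rw [mul_pow]
        field_simp

theorem abs_coord_le (x : V3) (k : Fin 3) : |x k| ≤ rh x := by
  refine Real.abs_le_sqrt ?_
  have : x k ^ 2 ≤ nsq x :=
    Finset.single_le_sum (f := fun i => x i ^ 2) (fun i _ => sq_nonneg _) (Finset.mem_univ k)
  linarith

theorem abs_gg_le {ε : ℝ} (h0 : 0 < ε) (h1 : ε ≤ 1) {r : ℝ} (hr : 1 ≤ r) :
    |gg ε r| * r ≤ 5 / 2 := by
  have hr0 : 0 < r := lt_of_lt_of_le one_pos hr
  have e1 : |gg ε r| = 1 / r ^ 2 + ε * (1 / r + 1 / (2 * r ^ 3)) := by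
    have : gg ε r = -(1 / r ^ 2 + ε * (1 / r + 1 / (2 * r ^ 3))) := by
      unfold gg
      ring
    rw [this, abs_neg, abs_of_nonneg (by positivity)]
  rw [e1]
  have e2 : (1 / r ^ 2 + ε * (1 / r + 1 / (2 * r ^ 3))) * r =
      1 / r + ε * (1 + 1 / (2 * r ^ 2)) := by
    field_simp
  rw [e2]
  have h3 : 1 / r ≤ 1 := by
    rw [div_le_one hr0]
    exact hr
  have h4 : 1 / (2 * r ^ 2) ≤ 1 / 2 := by
    have : 1 ≤ r ^ 2 := one_le_pow₀ hr
    rw [div_le_div_iff₀ (by positivity) (by positivity)]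
    linarith
  have h5 : ε * (1 + 1 / (2 * r ^ 2)) ≤ 1 * (1 + 1 / (2 * r ^ 2)) :=
    mul_le_mul_of_nonneg_right h1 (by positivity)
  linarith

end PSE

theorem pse : PSE_Stmt := by
  intro ε h0 h1
  refine ⟨PSE.contDiff_psE ε, fun x => ?_, 5 / 2 * (24 * Real.exp 1 / ε ^ 4), fun x => ?_⟩
  · simp only [PSE.pd3_pd3_psE]
    rw [← Complex.ofReal_sum, PSE.psE_eq,
      ← Complex.ofReal_mul, ← Complex.ofReal_neg, ← Complex.ofReal_add, ← Complex.ofReal_mul]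
    congr 1
    have h2 : x 0 ^ 2 + x 1 ^ 2 + x 2 ^ 2 = rh x ^ 2 - 1 := by
      rw [PSE.rh_sq, nsq, Fin.sum_univ_three]
      ring
    rw [Fin.sum_univ_three]
    have h3 := PSE.key ε (rh x) (PSE.rh_pos x)
    rw [vE]
    linear_combination (-(PSE.phi ε (rh x))) * h3 -
      (PSE.phi ε (rh x) * (PSE.gg ε (rh x) ^ 2 + PSE.gg' ε (rh x) / rh x)) * h2
  · have h2 : (1 + nsq x) ^ 2 = rh x ^ 4 := by
      rw [← PSE.rh_sq]
      ring
    have h3 := PSE.phi_le h0 h1 (PSE.one_le_rh x)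
    have h4 := PSE.phi_nonneg ε (PSE.rh_pos x)
    have h5 : 0 ≤ 24 * Real.exp 1 / ε ^ 4 / rh x ^ 4 := by
      have := PSE.rh_pos x
      positivity
    have h6 : 5 / 2 * (24 * Real.exp 1 / ε ^ 4) / (1 + nsq x) ^ 2 =
        5 / 2 * (24 * Real.exp 1 / ε ^ 4 / rh x ^ 4) := by
      rw [h2]
      ring
    rw [h6]
    refine ⟨?_, fun k => ?_⟩
    · rw [PSE.psE_eq, Complex.norm_real, Real.norm_eq_abs, abs_of_nonneg h4]
      linarith
    · rw [PSE.pd3_psE, Complex.norm_real, Real.norm_eq_abs, abs_mul, abs_mul, abs_of_nonneg h4,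
        mul_assoc]
      have h7 : |PSE.gg ε (rh x)| * |x k| ≤ 5 / 2 :=
        (mul_le_mul_of_nonneg_left (PSE.abs_coord_le x k) (abs_nonneg _)).trans
          (PSE.abs_gg_le h0 h1 (PSE.one_le_rh x))
      calc PSE.phi ε (rh x) * (|PSE.gg ε (rh x)| * |x k|)
          ≤ PSE.phi ε (rh x) * (5 / 2) := mul_le_mul_of_nonneg_left h7 h4
        _ ≤ (24 * Real.exp 1 / ε ^ 4 / rh x ^ 4) * (5 / 2) :=
            mul_le_mul_of_nonneg_right h3 (by norm_num)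
        _ = _ := by ring

end Pool.Agent.RC
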