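import Pool.Agent.RC.Base

/-!
# Sharp CLR inequality for radial potentials in `ℝ³`: the potential in logarithmic coordinates
(module RDW).
-/

set_option autoImplicit false

namespace Pool.Agent.RC.RDW

open MeasureTheory Finset Filter Topology

theorem nsq_ref (t : ℝ) : nsq (Real.exp t • (Pi.single 0 1 : V3)) = Real.exp (2 * t) := by
  rw [nsq_smul]
  have h : nsq (Pi.single 0 1 : V3) = 1 := by
    simp [nsq, Fin.sum_univ_three]
  rw [h, mul_one, ← Real.exp_nat_mul]
  norm_num

theorem rad_pol {U : V3 → ℝ} (hU : RPot U) (t : ℝ) (s : S2) :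
    U (pol (t, s)) = U (Real.exp t • (Pi.single 0 1 : V3)) := by
  apply hU.rad
  rw [nsq_pol, nsq_ref]

theorem wf_eq {U : V3 → ℝ} (hU : RPot U) (t : ℝ) (s : S2) :
    Real.exp (2 * t) * U (pol (t, s)) = Wf U t := by
  unfold Wf
  rw [rad_pol hU]

theorem sig_ne (h : sig Set.univ = ENNReal.ofReal (4 * Real.pi)) : sig ≠ 0 := by
  intro h0
  rw [h0] at h
  simp only [Measure.coe_zero, Pi.zero_apply] at h
  have h1 : (0 : ENNReal) < ENNReal.ofReal (4 * Real.pi) :=
    ENNReal.ofReal_pos.2 (by positivity)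
  exact h1.ne h

theorem aesm (h : POL_Stmt) {U : V3 → ℝ} (hU : RPot U) :
    AEStronglyMeasurable (Wf U) volume := by
  obtain ⟨h1, -, -, h4, -, -⟩ := h
  have a1 : AEStronglyMeasurable (fun p : ℝ × S2 => U (pol p)) (volume.prod sig) :=
    h1 ℝ U hU.meas
  have a2 : AEStronglyMeasurable (fun p : ℝ × S2 => Real.exp (2 * p.1) * U (pol p))
      (volume.prod sig) := by
    refine AEStronglyMeasurable.mul ?_ a1
    exact (by fun_prop : Continuous fun p : ℝ × S2 => Real.exp (2 * p.1)).aestronglyMeasurable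
  have a3 : (fun p : ℝ × S2 => Real.exp (2 * p.1) * U (pol p)) =
      fun p : ℝ × S2 => Wf U p.1 := by
    funext p
    exact wf_eq hU p.1 p.2
  rw [a3] at a2
  have a4 := a2.prod_swap
  have a5 := a4.prodMk_left
  have : (ae sig).NeBot := ae_neBot.2 (sig_ne h4)
  obtain ⟨s, hs⟩ := a5.exists
  exact hs

theorem sq_le_nsq (x : V3) (i : Fin 3) : x i ^ 2 ≤ nsq x := by
  unfold nsq
  exact Finset.single_le_sum (f := fun i => x i ^ 2) (fun i _ => sq_nonneg _) (mem_univ i)

theorem integ {U : V3 → ℝ} (hU : RPot U) : Integrable (fun x => U x ^ ((3 : ℝ) / 2)) volume := by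
  obtain ⟨B, hB⟩ := hU.bdd
  obtain ⟨ε, R, hε, hs⟩ := hU.supp
  have hB0 : 0 ≤ B := (hU.nonneg 0).trans (hB 0)
  have m1 : AEStronglyMeasurable (fun x => U x ^ ((3 : ℝ) / 2)) volume :=
    (hU.meas.aemeasurable.pow_const _).aestronglyMeasurable
  have s1 : Function.support (fun x => U x ^ ((3 : ℝ) / 2)) ⊆
      Metric.closedBall (0 : V3) (√R) := by
    intro x hx
    rw [Function.mem_support] at hx
    have hx0 : U x ≠ 0 := by
      intro h0
      apply hx
      rw [h0, Real.zero_rpow (by norm_num)]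
    have h2 := (hs x hx0).2
    rw [mem_closedBall_zero_iff, pi_norm_le_iff_of_nonneg (Real.sqrt_nonneg R)]
    intro i
    rw [Real.norm_eq_abs]
    exact Real.abs_le_sqrt ((sq_le_nsq x i).trans h2)
  rw [← integrableOn_iff_integrable_of_support_subset s1]
  refine Measure.integrableOn_of_bounded (M := B ^ ((3 : ℝ) / 2)) ?_ m1 ?_
  · exact (isCompact_closedBall _ _).measure_lt_top.ne
  · refine Eventually.of_forall fun x => ?_
    rw [Real.norm_eq_abs, abs_of_nonneg (Real.rpow_nonneg (hU.nonneg x) _)]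
    exact Real.rpow_le_rpow (hU.nonneg x) (hB x) (by norm_num)

theorem pow_eq {U : V3 → ℝ} (hU : RPot U) (t : ℝ) (s : S2) :
    Real.exp (3 * t) * U (pol (t, s)) ^ ((3 : ℝ) / 2) = Wf U t ^ ((3 : ℝ) / 2) := by
  rw [← wf_eq hU t s, Real.mul_rpow (Real.exp_pos _).le (hU.nonneg _), ← Real.exp_mul]
  congr 2
  ring

end Pool.Agent.RC.RDW

namespace Pool.Agent.RC

open MeasureTheory Finset Filter Topology

/-- The potential in logarithmic coordinates. -/
theorem rdw (h : POL_Stmt) : RDW_Stmt := by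
  intro U hU
  refine ⟨fun t s => RDW.wf_eq hU t s, RDW.aesm h hU, fun t => ?_, ?_, ?_, ?_⟩
  · exact mul_nonneg (Real.exp_pos _).le (hU.nonneg _)
  · obtain ⟨B, hB⟩ := hU.bdd
    obtain ⟨ε, R, hε, hs⟩ := hU.supp
    have hB0 : 0 ≤ B := (hU.nonneg 0).trans (hB 0)
    refine ⟨max R 0 * B, fun t => ?_⟩
    by_cases h0 : U (Real.exp t • (Pi.single 0 1 : V3)) = 0
    · unfold Wf
      rw [h0, mul_zero]
      positivity
    · have h1 := (hs _ h0).2
      rw [RDW.nsq_ref] at h1
      exact mul_le_mul (h1.trans (le_max_left _ _)) (hB _) (hU.nonneg _) (le_max_right _ _)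
  · obtain ⟨ε, R, hε, hs⟩ := hU.supp
    refine ⟨max (|Real.log ε|) (|Real.log R|), fun t ht => ?_⟩
    by_contra h0
    have h1 : U (Real.exp t • (Pi.single 0 1 : V3)) ≠ 0 := by
      intro h2
      apply h0
      unfold Wf
      rw [h2, mul_zero]
    obtain ⟨h2, h3⟩ := hs _ h1
    rw [RDW.nsq_ref] at h2 h3
    have hR : 0 < R := (Real.exp_pos _).trans_le h3
    have h4 : Real.log ε ≤ 2 * t := (Real.log_le_iff_le_exp hε).2 h2
    have h5 : 2 * t ≤ Real.log R := (Real.le_log_iff_exp_le hR).2 h3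
    have h6 : |Real.log ε| < |t| := (le_max_left _ _).trans_lt ht
    have h7 : |Real.log R| < |t| := (le_max_right _ _).trans_lt ht
    have h8 := neg_abs_le (Real.log ε)
    have h9 := le_abs_self (Real.log R)
    rcases abs_cases t with ⟨h10, h11⟩ | ⟨h10, h11⟩
    · linarith
    · linarith
  · have hsig : sig.real Set.univ = 4 * Real.pi := by
      rw [Measure.real, h.2.2.2.1, ENNReal.toReal_ofReal (by positivity)]
    have h2 := (h.2.1 ℝ (fun x => U x ^ ((3 : ℝ) / 2)) (RDW.integ hU)).2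
    rw [h2, ← integral_const_mul]
    congr 1
    funext t
    have h3 : (fun s : S2 => Real.exp (3 * t) • U (pol (t, s)) ^ ((3 : ℝ) / 2)) =
        fun _ : S2 => Wf U t ^ ((3 : ℝ) / 2) := by
      funext s
      rw [smul_eq_mul]
      exact RDW.pow_eq hU t s
    rw [h3, integral_const, hsig, smul_eq_mul]

end Pool.Agent.RC
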