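import Pool.Agent.RC.Base

/-!
# ROT: rotational derivatives have mean zero on the sphere
-/

set_option autoImplicit false

namespace Pool.Agent.RC.ROT

open MeasureTheory Matrix Finset Filter Topology
open scoped ComplexConjugate ComplexOrder ContDiff

theorem smooth_pd {g : V3 → ℂ} (hg : ContDiff ℝ ∞ g) (k : Fin 3) :
    ContDiff ℝ ∞ (fun x => pd3 k g x) :=
  (hg.fderiv_right (m := ∞) (by norm_cast)).clm_apply contDiff_const

theorem smooth_coord (k : Fin 3) : ContDiff ℝ ∞ (fun x : V3 => (x k : ℂ)) :=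
  Complex.ofRealCLM.contDiff.comp (contDiff_apply ℝ ℝ k)

theorem smooth_Dr {g : V3 → ℂ} (hg : ContDiff ℝ ∞ g) (i : Fin 3) : ContDiff ℝ ∞ (Dr i g) :=
  ((smooth_coord (i + 1)).mul (smooth_pd hg (i + 2))).sub
    ((smooth_coord (i + 2)).mul (smooth_pd hg (i + 1)))

theorem diffAt {g : V3 → ℂ} (hg : ContDiff ℝ ∞ g) (x : V3) : DifferentiableAt ℝ g x :=
  (hg.differentiable (by simp)).differentiableAt

theorem smooth_nsq : ContDiff ℝ ∞ nsq := by
  unfold nsq
  exact ContDiff.sum fun i _ => (contDiff_apply ℝ ℝ i).pow 2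

theorem nsq_deriv (x : V3) :
    HasFDerivAt nsq (∑ i : Fin 3, (2 * x i) • (ContinuousLinearMap.proj i : V3 →L[ℝ] ℝ)) x := by
  unfold nsq
  refine HasFDerivAt.fun_sum fun i _ => ?_
  have h0 : HasFDerivAt (fun y : V3 => y i) (ContinuousLinearMap.proj i : V3 →L[ℝ] ℝ) x :=
    hasFDerivAt_apply i x
  have h := h0.pow 2
  simpa using h

theorem nsq_deriv_single (x : V3) (k : Fin 3) :
    (∑ i : Fin 3, (2 * x i) • (ContinuousLinearMap.proj i : V3 →L[ℝ] ℝ)) (Pi.single k 1) =
      2 * x k := by
  simp [Pi.single_apply]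

/-- The product with a radial function. -/
theorem pd_radial {β : ℝ → ℝ} (hβ : ContDiff ℝ ∞ β) {g : V3 → ℂ} (hg : ContDiff ℝ ∞ g)
    (k : Fin 3) (x : V3) : pd3 k (fun y => (β (nsq y) : ℂ) * g y) x =
      (β (nsq x) : ℂ) * pd3 k g x + g x * ((deriv β (nsq x) * (2 * x k) : ℝ) : ℂ) := by
  have h1 : HasDerivAt β (deriv β (nsq x)) (nsq x) :=
    (hβ.differentiable (by simp)).differentiableAt.hasDerivAt
  have h2 := h1.comp_hasFDerivAt x (nsq_deriv x)
  have h3 := (Complex.ofRealCLM.hasFDerivAt (x := β (nsq x))).comp x h2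
  have h4 := (diffAt hg x).hasFDerivAt
  have h5 := h3.mul h4
  have h6 : HasFDerivAt (fun y => (β (nsq y) : ℂ) * g y) _ x := h5
  unfold pd3
  rw [h6.fderiv]
  have h7 := nsq_deriv_single x k
  simp only [ContinuousLinearMap.add_apply, ContinuousLinearMap.smul_apply,
    ContinuousLinearMap.comp_apply, h7, smul_eq_mul, Function.comp_apply,
    Complex.ofRealCLM_apply]

theorem Dr_radial {β : ℝ → ℝ} (hβ : ContDiff ℝ ∞ β) {g : V3 → ℂ} (hg : ContDiff ℝ ∞ g)
    (i : Fin 3) (x : V3) : Dr i (fun y => (β (nsq y) : ℂ) * g y) x =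
      (β (nsq x) : ℂ) * Dr i g x := by
  unfold Dr
  rw [pd_radial hβ hg, pd_radial hβ hg]
  push_cast
  ring

theorem pd_compact {h : V3 → ℂ} (hc : HasCompactSupport h) (k : Fin 3) :
    HasCompactSupport (fun x => pd3 k h x) :=
  (hc.fderiv ℝ).comp_left (g := fun L : V3 →L[ℝ] ℂ => L (Pi.single k 1)) (by simp)

/-- Integration by parts. -/
theorem int_pd {h : V3 → ℂ} (hs : ContDiff ℝ ∞ h) (hc : HasCompactSupport h) {a b : Fin 3}
    (hab : a ≠ b) : ∫ x : V3, (x a : ℂ) * pd3 b h x = 0 := by
  have hd : ∀ x : V3, fderiv ℝ (fun y : V3 => (y a : ℂ)) x (Pi.single b 1) = 0 := by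
    intro x
    have h0 : HasFDerivAt (fun y : V3 => y a) (ContinuousLinearMap.proj a : V3 →L[ℝ] ℝ) x :=
      hasFDerivAt_apply a x
    have h1 := (Complex.ofRealCLM.hasFDerivAt (x := x a)).comp x h0
    have h2 : HasFDerivAt (fun y : V3 => (y a : ℂ)) _ x := h1
    rw [h2.fderiv]
    simp [Pi.single_apply, hab]
  have h0 := integral_mul_fderiv_eq_neg_fderiv_mul_of_integrable (μ := (volume : Measure V3))
    (f := fun y : V3 => (y a : ℂ)) (g := h) (v := Pi.single b 1) (by simp [hd])
    (Continuous.integrable_of_hasCompactSupport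
      ((smooth_coord a).continuous.mul (smooth_pd hs b).continuous)
      ((pd_compact hc b).mul_left))
    (Continuous.integrable_of_hasCompactSupport
      ((smooth_coord a).continuous.mul hs.continuous) hc.mul_left)
    (fun x _ => diffAt (smooth_coord a) x) (fun x _ => diffAt hs x)
  simp only [hd, zero_mul, integral_zero, neg_zero] at h0
  exact h0

theorem int_Dr {h : V3 → ℂ} (hs : ContDiff ℝ ∞ h) (hc : HasCompactSupport h) (i : Fin 3) :
    ∫ x : V3, Dr i h x = 0 := by
  have hne : i + 1 ≠ i + 2 := by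
    intro h
    have := add_left_cancel h
    revert this
    decide
  unfold Dr
  rw [integral_sub]
  · rw [int_pd hs hc hne, int_pd hs hc hne.symm, sub_zero]
  · exact Continuous.integrable_of_hasCompactSupport
      ((smooth_coord _).continuous.mul (smooth_pd hs _).continuous) ((pd_compact hc _).mul_left)
  · exact Continuous.integrable_of_hasCompactSupport
      ((smooth_coord _).continuous.mul (smooth_pd hs _).continuous) ((pd_compact hc _).mul_left)

/-- The set of bounded norm is compact. -/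
theorem compact_nsq (R : ℝ) : IsCompact {x : V3 | nsq x ≤ R} := by
  refine Metric.isCompact_of_isClosed_isBounded (isClosed_le smooth_nsq.continuous continuous_const)
    ?_
  refine (Metric.isBounded_closedBall (x := (0 : V3)) (r := |R| + 1)).subset ?_
  intro x hx
  rw [mem_closedBall_zero_iff, pi_norm_le_iff_of_nonneg (by positivity)]
  intro i
  have h1 : x i ^ 2 ≤ nsq x := by
    unfold nsq
    exact Finset.single_le_sum (f := fun i => x i ^ 2) (fun _ _ => sq_nonneg _) (mem_univ i)
  have h2 : x i ^ 2 ≤ |R| := h1.trans ((show nsq x ≤ R from hx).trans (le_abs_self R))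
  rw [Real.norm_eq_abs]
  nlinarith [abs_nonneg (x i), sq_abs (x i), abs_nonneg R]

theorem compact_radial {β : ℝ → ℝ} {R : ℝ} (hR : ∀ t, R < t → β t = 0) (g : V3 → ℂ) :
    HasCompactSupport (fun y => (β (nsq y) : ℂ) * g y) := by
  refine HasCompactSupport.intro (compact_nsq R) ?_
  intro x hx
  have : R < nsq x := by
    by_contra h
    exact hx (not_lt.1 h)
  rw [hR _ this]
  simp

/-- The mean over the sphere of radius `e^t`. -/
noncomputable def J (i : Fin 3) (g : V3 → ℂ) (t : ℝ) : ℂ := ∫ s, Dr i g (pol (t, s)) ∂sig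

theorem cont_J {g : V3 → ℂ} (hg : ContDiff ℝ ∞ g) (i : Fin 3) : Continuous (J i g) := by
  have hK : CompactSpace S2 := Metric.sphere.compactSpace _ _
  have h1 : Continuous (Function.uncurry fun (t : ℝ) (s : S2) => Dr i g (pol (t, s))) :=
    (smooth_Dr hg i).continuous.comp continuous_pol
  have h2 := continuous_parametric_integral_of_continuous (μ := sig) h1
    (isCompact_univ (X := S2))
  refine h2.congr fun t => ?_
  unfold J
  rw [Measure.restrict_univ]

theorem J_zero {g : V3 → ℂ} (i : Fin 3) : J i g 0 = ∫ s, Dr i g (om s) ∂sig := by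
  unfold J pol
  simp

theorem J_int (h : POL_Stmt) {β : ℝ → ℝ} (hβ : ContDiff ℝ ∞ β) {R : ℝ}
    (hR : ∀ t, R < t → β t = 0) {g : V3 → ℂ} (hg : ContDiff ℝ ∞ g) (i : Fin 3) :
    ∫ t : ℝ, ((Real.exp (3 * t) * β (Real.exp (2 * t)) : ℝ) : ℂ) * J i g t = 0 := by
  have hs : ContDiff ℝ ∞ (fun y : V3 => (β (nsq y) : ℂ) * g y) :=
    (Complex.ofRealCLM.contDiff.comp (hβ.comp smooth_nsq)).mul hg
  have hc := compact_radial hR g
  have h1 := int_Dr hs hc i
  have hi : Integrable (Dr i (fun y : V3 => (β (nsq y) : ℂ) * g y)) volume := by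
    refine Continuous.integrable_of_hasCompactSupport (smooth_Dr hs i).continuous ?_
    have e : Dr i (fun y : V3 => (β (nsq y) : ℂ) * g y) =
        fun y => (β (nsq y) : ℂ) * Dr i g y := funext fun x => Dr_radial hβ hg i x
    rw [e]
    exact compact_radial hR _
  have h2 := (h.2.1 ℂ _ hi).2
  rw [h1] at h2
  rw [h2]
  congr 1
  funext t
  unfold J
  rw [← integral_const_mul]
  congr 1
  funext s
  rw [Dr_radial hβ hg, nsq_pol]
  rw [Complex.real_smul]
  push_cast
  ring

theorem mean_zero (h : POL_Stmt) {g : V3 → ℂ} (hg : ContDiff ℝ ∞ g) (i : Fin 3) :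
    ∫ s, Dr i g (om s) ∂sig = 0 := by
  rw [← J_zero]
  by_contra hne
  set c := J i g 0 with hc
  set φ : ℝ → ℝ := fun t => (conj c * J i g t).re with hφ
  have hφc : Continuous φ :=
    Complex.continuous_re.comp (continuous_const.mul (cont_J hg i))
  have hφ0 : 0 < φ 0 := by
    have e : φ 0 = ‖c‖ ^ 2 := by
      simp only [hφ, ← hc]
      rw [mul_comm, Complex.mul_conj']
      norm_cast
    rw [e]
    positivity
  -- positive near zero
  obtain ⟨δ, hδ, hpos⟩ := Metric.continuous_iff.1 hφc 0 (φ 0) hφ0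
  have hpos' : ∀ t, |t| < δ → 0 < φ t := by
    intro t ht
    have := hpos t (by simpa [Real.dist_eq] using ht)
    rw [Real.dist_eq, abs_lt] at this
    linarith [this.1]
  -- the bump
  obtain ⟨r, hr, hlog⟩ : ∃ r : ℝ, 0 < r ∧ ∀ t, |Real.exp (2 * t) - 1| < r → |t| < δ := by
    have hcl : ContinuousAt (fun u : ℝ => Real.log u / 2) 1 :=
      (Real.continuousAt_log one_ne_zero).div_const 2
    obtain ⟨r, hr, hh⟩ := Metric.continuousAt_iff.1 hcl δ hδ
    refine ⟨r, hr, fun t ht => ?_⟩
    have := hh (x := Real.exp (2 * t)) (by rwa [Real.dist_eq])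
    rw [Real.log_exp, Real.log_one, Real.dist_eq] at this
    simpa using this
  let B : ContDiffBump (1 : ℝ) := ⟨min r 1 / 4, min r 1 / 2, by positivity, by
    have : 0 < min r 1 := by positivity
    linarith⟩
  have hBs : ContDiff ℝ ∞ (B : ℝ → ℝ) := B.contDiff
  have hBz : ∀ u, min r 1 / 2 ≤ |u - 1| → B u = 0 := by
    intro u hu
    exact B.zero_of_le_dist (by rw [Real.dist_eq]; exact hu)
  have hmr : 0 < min r 1 := by positivity
  have hR : ∀ u, 2 < u → B u = 0 := by
    intro u hu
    apply hBz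
    have h1 : min r 1 ≤ 1 := min_le_right _ _
    have h2 : u - 1 ≤ |u - 1| := le_abs_self _
    linarith
  have key := J_int h hBs hR hg i
  -- the real integral
  set f : ℝ → ℝ := fun t => Real.exp (3 * t) * B (Real.exp (2 * t)) * φ t with hf
  have fcont : Continuous f := by
    refine Continuous.mul (Continuous.mul (by fun_prop) ?_) hφc
    exact hBs.continuous.comp (by fun_prop)
  have hsm : ∀ t, B (Real.exp (2 * t)) ≠ 0 → |t| < δ := by
    intro t ht
    apply hlog
    by_contra hcon
    apply ht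
    apply hBz
    have h1 : min r 1 ≤ r := min_le_left _ _
    have h2 := not_lt.1 hcon
    linarith
  have fnn : 0 ≤ f := by
    intro t
    by_cases ht : B (Real.exp (2 * t)) = 0
    · simp [hf, ht]
    · have h1 := hpos' t (hsm t ht)
      have h2 : 0 ≤ B (Real.exp (2 * t)) := B.nonneg
      simp only [hf, Pi.zero_apply]
      positivity
  have fcomp : HasCompactSupport f := by
    refine HasCompactSupport.intro (isCompact_Icc (a := -δ) (b := δ)) ?_
    intro t ht
    by_cases hb : B (Real.exp (2 * t)) = 0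
    · simp [hf, hb]
    · exfalso
      have := abs_lt.1 (hsm t hb)
      exact ht ⟨this.1.le, this.2.le⟩
  have f0 : f 0 ≠ 0 := by
    have hB1 : B (1 : ℝ) = 1 := B.one_of_mem_closedBall (by
      rw [Metric.mem_closedBall, dist_self]
      exact B.rIn_pos.le)
    simp only [hf, mul_zero, Real.exp_zero, hB1, one_mul]
    exact hφ0.ne'
  have hp := fcont.integral_pos_of_hasCompactSupport_nonneg_nonzero
    (μ := (volume : Measure ℝ)) fcomp fnn f0
  have hz : ∫ t, f t = 0 := by
    have e1 : ∀ t, f t = (conj c * (((Real.exp (3 * t) * B (Real.exp (2 * t)) : ℝ) : ℂ) *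
        J i g t)).re := by
      intro t
      simp only [hf, hφ]
      rw [show conj c * (((Real.exp (3 * t) * B (Real.exp (2 * t)) : ℝ) : ℂ) * J i g t) =
        ((Real.exp (3 * t) * B (Real.exp (2 * t)) : ℝ) : ℂ) * (conj c * J i g t) by ring,
        Complex.re_ofReal_mul]
    have hint : Integrable (fun t => conj c *
        (((Real.exp (3 * t) * B (Real.exp (2 * t)) : ℝ) : ℂ) * J i g t)) volume := by
      refine Integrable.const_mul (Continuous.integrable_of_hasCompactSupport ?_ ?_) _
      · refine Continuous.mul (Complex.continuous_ofReal.comp ?_) (cont_J hg i)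
        exact Continuous.mul (by fun_prop) (hBs.continuous.comp (by fun_prop))
      · refine HasCompactSupport.intro (isCompact_Icc (a := -δ) (b := δ)) ?_
        intro t ht
        by_cases hb : B (Real.exp (2 * t)) = 0
        · simp [hb]
        · exfalso
          have := abs_lt.1 (hsm t hb)
          exact ht ⟨this.1.le, this.2.le⟩
    simp only [e1]
    have e2 := integral_re hint
    simp only [RCLike.re_eq_complex_re] at e2
    rw [e2, integral_const_mul, key]
    simp
  linarith

theorem pd_mul {f g : V3 → ℂ} (hf : ContDiff ℝ ∞ f) (hg : ContDiff ℝ ∞ g) (k : Fin 3) (x : V3) :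
    pd3 k (fun y => f y * g y) x = f x * pd3 k g x + g x * pd3 k f x := by
  unfold pd3
  have h6 : HasFDerivAt (fun y => f y * g y) _ x :=
    (diffAt hf x).hasFDerivAt.mul (diffAt hg x).hasFDerivAt
  rw [h6.fderiv]
  simp

theorem pd_conj {g : V3 → ℂ} (hg : ContDiff ℝ ∞ g) (k : Fin 3) (x : V3) :
    pd3 k (fun y => conj (g y)) x = conj (pd3 k g x) := by
  unfold pd3
  have h1 := (Complex.conjCLE.toContinuousLinearMap.hasFDerivAt (x := g x)).comp x
    (diffAt hg x).hasFDerivAt
  have h6 : HasFDerivAt (fun y => conj (g y)) _ x := h1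
  rw [h6.fderiv]
  simp

theorem smooth_conj {g : V3 → ℂ} (hg : ContDiff ℝ ∞ g) : ContDiff ℝ ∞ (fun y => conj (g y)) :=
  Complex.conjCLE.toContinuousLinearMap.contDiff.comp hg

theorem Dr_mul_conj {f g : V3 → ℂ} (hf : ContDiff ℝ ∞ f) (hg : ContDiff ℝ ∞ g) (i : Fin 3)
    (x : V3) : Dr i (fun y => f y * conj (g y)) x =
      Dr i f x * conj (g x) + f x * conj (Dr i g x) := by
  unfold Dr
  rw [pd_mul hf (smooth_conj hg), pd_mul hf (smooth_conj hg), pd_conj hg, pd_conj hg]
  simp only [map_sub, map_mul, Complex.conj_ofReal]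
  ring

end Pool.Agent.RC.ROT

namespace Pool.Agent.RC

open MeasureTheory Matrix Finset Filter Topology
open scoped ComplexConjugate ComplexOrder ContDiff

theorem rot (h : POL_Stmt) : ROT_Stmt := by
  refine ⟨fun g hg i => ROT.smooth_Dr hg i, fun g hg i => ROT.mean_zero h hg i, ?_⟩
  intro f g hf hg i
  have h1 := ROT.mean_zero h (hf.mul (ROT.smooth_conj hg)) i
  have h2 : ∀ s, Dr i (fun y => f y * conj (g y)) (om s) =
      Dr i f (om s) * conj (g (om s)) + f (om s) * conj (Dr i g (om s)) :=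
    fun s => ROT.Dr_mul_conj hf hg i (om s)
  have h3 : ∫ s, (Dr i f (om s) * conj (g (om s)) + f (om s) * conj (Dr i g (om s))) ∂sig = 0 := by
    rw [← h1]
    exact integral_congr_ae (Eventually.of_forall fun s => (h2 s).symm)
  rw [integral_add (int_pr (ROT.smooth_Dr hf i).continuous hg.continuous)
    (int_pr hf.continuous (ROT.smooth_Dr hg i).continuous)] at h3
  exact eq_neg_of_add_eq_zero_left h3

end Pool.Agent.RC
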