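import Pool.Agent.RC.Base
import Pool.Agent.LT.Spec

/-!
# SPC: from level H to eigenfunctions
(MP_4c716f_mp; module RC_SPC). See PAPER.md in this folder.
-/

set_option autoImplicit false

namespace Pool.Agent.RC

open MeasureTheory Matrix Finset Filter Topology
open scoped ComplexConjugate ComplexOrder ContDiff
open Pool.Agent.LT (TestFn IsH1v IsH1d IsEigenfunctionD)

namespace SPC

/-- weighted Gram matrices are Hermitian -/
theorem potM_herm {N : ℕ} (v : V3 → ℝ) (ψ : Fin N → V3 → ℂ) : (potM v ψ).IsHermitian := by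
  ext i j
  simp only [conjTranspose_apply, of_apply, potM]
  show conj (∫ x, (v x : ℂ) * (ψ j x * conj (ψ i x))) = _
  rw [← integral_conj]
  congr 1
  funext x
  simp only [map_mul, Complex.conj_ofReal, Complex.conj_conj]
  ring

theorem kinM_herm {N : ℕ} (g : Fin N → Fin 3 → V3 → ℂ) : (kinM g).IsHermitian := by
  ext i j
  simp only [conjTranspose_apply, of_apply, kinM]
  show conj (∑ k, ∫ x, g j k x * conj (g i k x)) = _
  rw [map_sum]
  refine Finset.sum_congr rfl fun k _ => ?_
  rw [← integral_conj]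
  congr 1
  funext x
  simp only [map_mul, Complex.conj_conj]
  ring

/-- weighted Gram matrices are positive semidefinite -/
theorem psd {N : ℕ} {v : V3 → ℝ} (hv : ∀ x, 0 ≤ v x) {ψ : Fin N → V3 → ℂ}
    (hi : ∀ i j, Integrable (fun x => (v x : ℂ) * (ψ i x * conj (ψ j x))) volume) :
    (potM v ψ).PosSemidef := by
  refine PosSemidef.of_dotProduct_mulVec_nonneg (potM_herm v ψ) fun c => ?_
  have h : star c ⬝ᵥ (potM v ψ *ᵥ c) =
      ((∫ x, v x * ‖∑ i, conj (c i) * ψ i x‖ ^ 2 : ℝ) : ℂ) := by
    rw [← integral_complex_ofReal]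
    have e1 : ∀ x, ((v x * ‖∑ i, conj (c i) * ψ i x‖ ^ 2 : ℝ) : ℂ) =
        ∑ i, ∑ j, conj (c i) * c j * ((v x : ℂ) * (ψ i x * conj (ψ j x))) := by
      intro x
      push_cast
      rw [← Complex.mul_conj', map_sum, Finset.sum_mul_sum, Finset.mul_sum]
      refine Finset.sum_congr rfl fun i _ => ?_
      rw [Finset.mul_sum]
      refine Finset.sum_congr rfl fun j _ => ?_
      simp only [map_mul, Complex.conj_conj]
      ring
    simp_rw [e1]
    rw [integral_finsetSum _ fun i _ => integrable_finsetSum _ fun j _ => (hi i j).const_mul _]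
    simp only [dotProduct, mulVec, Pi.star_apply, Finset.mul_sum, potM, of_apply]
    refine Finset.sum_congr rfl fun i _ => ?_
    rw [integral_finsetSum _ fun j _ => (hi i j).const_mul _]
    refine Finset.sum_congr rfl fun j _ => ?_
    rw [integral_const_mul]
    simp only [RCLike.star_def]
    ring
  rw [h]
  have : 0 ≤ ∫ x, v x * ‖∑ i, conj (c i) * ψ i x‖ ^ 2 :=
    integral_nonneg fun x => mul_nonneg (hv x) (by positivity)
  exact_mod_cast this

/-- products with a weight are integrable -/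
theorem intg {w : V3 → ℝ} (hw : AEStronglyMeasurable w volume) {f g : V3 → ℂ}
    (hf : AEStronglyMeasurable f volume) (hg : AEStronglyMeasurable g volume)
    (h1 : Integrable (fun x => w x * ‖f x‖ ^ 2) volume)
    (h2 : Integrable (fun x => w x * ‖g x‖ ^ 2) volume) :
    Integrable (fun x => (w x : ℂ) * (f x * conj (g x))) volume := by
  refine (h1.norm.add h2.norm).mono' ?_ (ae_of_all _ fun x => ?_)
  · exact (Complex.continuous_ofReal.comp_aestronglyMeasurable hw).mul
      (hf.mul (Complex.continuous_conj.comp_aestronglyMeasurable hg))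
  · rw [norm_mul, norm_mul, RCLike.norm_conj, Complex.norm_real]
    simp only [Pi.add_apply, norm_mul, norm_pow, norm_norm]
    nlinarith [mul_nonneg (norm_nonneg (w x)) (sq_nonneg (‖f x‖ - ‖g x‖)),
      mul_nonneg (norm_nonneg (w x)) (sq_nonneg (‖f x‖)),
      mul_nonneg (norm_nonneg (w x)) (sq_nonneg (‖g x‖))]

/-- a weight dominated by another one -/
theorem intg_le {w w' : V3 → ℝ} (hw' : AEStronglyMeasurable w' volume) {f : V3 → ℂ}
    (hf : AEStronglyMeasurable f volume) (h1 : Integrable (fun x => w x * ‖f x‖ ^ 2) volume)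
    (hle : ∀ x, |w' x| ≤ |w x|) :
    Integrable (fun x => w' x * ‖f x‖ ^ 2) volume := by
  refine h1.norm.mono' (hw'.mul (hf.norm.pow 2)) (ae_of_all _ fun x => ?_)
  rw [norm_mul, norm_mul, Real.norm_eq_abs, Real.norm_eq_abs]
  exact mul_le_mul_of_nonneg_right (hle x) (abs_nonneg _)

/-- the truncated potentials -/
noncomputable def Ut (V : V3 → ℝ) (n : ℕ) (x : V3) : ℝ :=
  if 1 / ((n : ℝ) + 1) ≤ nsq x ∧ nsq x ≤ (n : ℝ) + 1 then min (max (-V x) 0) ((n : ℝ) + 1) else 0

theorem continuous_nsq : Continuous nsq := by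
  unfold nsq
  fun_prop

theorem Ut_nonneg (V : V3 → ℝ) (n : ℕ) (x : V3) : 0 ≤ Ut V n x := by
  unfold Ut
  split_ifs
  · exact le_min (le_max_right _ _) (by positivity)
  · exact le_rfl

theorem Ut_le (V : V3 → ℝ) (n : ℕ) (x : V3) : Ut V n x ≤ max (-V x) 0 := by
  unfold Ut
  split_ifs
  · exact min_le_left _ _
  · exact le_max_right _ _

theorem Ut_meas {V : V3 → ℝ} (hV : AEStronglyMeasurable V volume) (n : ℕ) :
    AEStronglyMeasurable (Ut V n) volume := by
  have h1 : AEMeasurable (fun x => min (max (-V x) 0) ((n : ℝ) + 1)) volume :=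
    (hV.aemeasurable.neg.max aemeasurable_const).min aemeasurable_const
  have hs : MeasurableSet {x : V3 | 1 / ((n : ℝ) + 1) ≤ nsq x ∧ nsq x ≤ (n : ℝ) + 1} :=
    ((isClosed_le continuous_const continuous_nsq).inter
      (isClosed_le continuous_nsq continuous_const)).measurableSet
  have h2 : Ut V n = Set.indicator {x : V3 | 1 / ((n : ℝ) + 1) ≤ nsq x ∧ nsq x ≤ (n : ℝ) + 1}
      (fun x => min (max (-V x) 0) ((n : ℝ) + 1)) := by
    funext x
    unfold Ut
    by_cases h : 1 / ((n : ℝ) + 1) ≤ nsq x ∧ nsq x ≤ (n : ℝ) + 1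
    · have hm : x ∈ {x : V3 | 1 / ((n : ℝ) + 1) ≤ nsq x ∧ nsq x ≤ (n : ℝ) + 1} := h
      rw [if_pos h, Set.indicator_of_mem hm]
    · have hm : x ∉ {x : V3 | 1 / ((n : ℝ) + 1) ≤ nsq x ∧ nsq x ≤ (n : ℝ) + 1} := h
      rw [if_neg h, Set.indicator_of_notMem hm]
  rw [h2]
  exact (h1.indicator hs).aestronglyMeasurable

theorem Ut_rpot {V : V3 → ℝ} (hV : AEStronglyMeasurable V volume) (hr : Rad V) (n : ℕ) :
    RPot (Ut V n) where
  meas := Ut_meas hV n
  nonneg := Ut_nonneg V n
  rad := by
    intro x y h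
    unfold Ut
    rw [hr x y h, h]
  bdd := by
    refine ⟨(n : ℝ) + 1, fun x => ?_⟩
    unfold Ut
    split_ifs
    · exact min_le_right _ _
    · positivity
  supp := by
    refine ⟨1 / ((n : ℝ) + 1), (n : ℝ) + 1, by positivity, fun x hx => ?_⟩
    by_contra h
    exact hx (if_neg h)

theorem Ut_tendsto (V : V3 → ℝ) (x : V3) (hx : x ≠ 0) :
    Tendsto (fun n => Ut V n x) atTop (𝓝 (max (-V x) 0)) := by
  have hpos : 0 < nsq x := by
    obtain ⟨i, hi⟩ := Function.ne_iff.1 hx
    have h1 : x i ^ 2 ≤ nsq x :=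
      Finset.single_le_sum (f := fun k => x k ^ 2) (fun k _ => sq_nonneg _) (mem_univ i)
    have h2 : 0 < x i ^ 2 := by
      have : x i ≠ 0 := hi
      positivity
    linarith
  have e1 : ∀ᶠ n : ℕ in atTop, 1 / ((n : ℝ) + 1) < nsq x :=
    (tendsto_one_div_add_atTop_nhds_zero_nat (𝕜 := ℝ)).eventually_lt_const hpos
  have e2 : ∀ᶠ n : ℕ in atTop, nsq x ≤ (n : ℝ) := tendsto_natCast_atTop_atTop.eventually_ge_atTop _
  have e3 : ∀ᶠ n : ℕ in atTop, max (-V x) 0 ≤ (n : ℝ) :=
    tendsto_natCast_atTop_atTop.eventually_ge_atTop _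
  refine tendsto_const_nhds.congr' ?_
  filter_upwards [e1, e2, e3] with n h1 h2 h3
  unfold Ut
  rw [if_pos ⟨h1.le, by linarith⟩, min_eq_left (by linarith)]

end SPC

open SPC in
/-- SPC: from level H to eigenfunctions. -/
theorem spc : SPC_Stmt := by
  intro hLev V hV hrad N ψ E hE hneg horth
  classical
  choose g hg hweak using hE
  have hVm : AEStronglyMeasurable V volume := hV.1
  have hen : ∀ j, Integrable (fun y => V y * ‖ψ j y‖ ^ 2) volume := fun j =>
    (LT.spec_energy (hweak j (ψ j) (g j) (hg j)) (by rw [horth j j, if_pos rfl]) (hneg j)).1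
  have hψm : ∀ j, AEStronglyMeasurable (ψ j) volume := fun j => (hg j).1.1
  set Vp : V3 → ℝ := fun x => max (V x) 0 with hVp
  set Vn : V3 → ℝ := fun x => max (-V x) 0 with hVn
  have hVpm : AEStronglyMeasurable Vp volume :=
    (hVm.aemeasurable.max aemeasurable_const).aestronglyMeasurable
  have hVnm : AEStronglyMeasurable Vn volume :=
    (hVm.aemeasurable.neg.max aemeasurable_const).aestronglyMeasurable
  have hpa : ∀ x, |Vp x| ≤ |V x| := fun x => by
    rw [hVp, abs_of_nonneg (le_max_right _ _)]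
    exact max_le (le_abs_self _) (abs_nonneg _)
  have hna : ∀ x, |Vn x| ≤ |V x| := fun x => by
    rw [hVn, abs_of_nonneg (le_max_right _ _)]
    exact max_le (neg_le_abs _) (abs_nonneg _)
  have hpi : ∀ i j, Integrable (fun x => (Vp x : ℂ) * (ψ i x * conj (ψ j x))) volume :=
    fun i j => intg hVpm (hψm i) (hψm j) (intg_le hVpm (hψm i) (hen i) hpa)
      (intg_le hVpm (hψm j) (hen j) hpa)
  have hni : ∀ i j, Integrable (fun x => (Vn x : ℂ) * (ψ i x * conj (ψ j x))) volume :=
    fun i j => intg hVnm (hψm i) (hψm j) (intg_le hVnm (hψm i) (hen i) hna)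
      (intg_le hVnm (hψm j) (hen j) hna)
  -- the form matrix
  have hmat : potM Vn ψ - kinM g = potM Vp ψ + Matrix.diagonal fun i => ((-E i : ℝ) : ℂ) := by
    ext i j
    have h := hweak i (ψ j) (g j) (hg j)
    rw [horth j i] at h
    have e1 : ∑ k, ∫ y, conj (g j k y) * g i k y = kinM g i j := by
      simp only [kinM, of_apply]
      refine Finset.sum_congr rfl fun k _ => ?_
      congr 1
      funext y
      ring
    have e2 : ∫ y, (V y : ℂ) * (conj (ψ j y) * ψ i y) = potM Vp ψ i j - potM Vn ψ i j := by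
      simp only [potM, of_apply]
      rw [← integral_sub (hpi i j) (hni i j)]
      congr 1
      funext y
      have : V y = Vp y - Vn y := by
        simp only [hVp, hVn]
        rcases le_total 0 (V y) with h0 | h0
        · rw [max_eq_left h0, max_eq_right (by linarith)]
          ring
        · rw [max_eq_right h0, max_eq_left (by linarith)]
          ring
      rw [this]
      push_cast
      ring
    rw [e1, e2] at h
    rw [Matrix.sub_apply, Matrix.add_apply]
    by_cases hij : i = j
    · subst hij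
      rw [if_pos rfl, mul_one] at h
      rw [Matrix.diagonal_apply_eq]
      push_cast
      linear_combination -h
    · rw [if_neg (Ne.symm hij), mul_zero] at h
      rw [Matrix.diagonal_apply_ne _ hij]
      linear_combination -h
  have hpos : (potM Vn ψ - kinM g).PosDef := by
    rw [hmat]
    refine PosDef.posSemidef_add (psd (fun x => le_max_right _ _) hpi) ?_
    refine PosDef.diagonal fun i => ?_
    exact Complex.zero_lt_real.2 (by linarith [hneg i])
  -- truncation
  have hlim : ∀ i j, Tendsto (fun n => (potM (Ut V n) ψ - kinM g) i j) atTop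
      (𝓝 ((potM Vn ψ - kinM g) i j)) := by
    intro i j
    simp only [Matrix.sub_apply]
    refine Tendsto.sub_const ?_ _
    simp only [potM, of_apply]
    refine tendsto_integral_of_dominated_convergence
      (fun x => ‖(Vn x : ℂ) * (ψ i x * conj (ψ j x))‖) ?_ (hni i j).norm ?_ ?_
    · intro n
      exact (Complex.continuous_ofReal.comp_aestronglyMeasurable (Ut_meas hVm n)).mul
        ((hψm i).mul (Complex.continuous_conj.comp_aestronglyMeasurable (hψm j)))
    · intro n
      refine ae_of_all _ fun x => ?_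
      rw [norm_mul, norm_mul ((Vn x : ℝ) : ℂ), Complex.norm_real, Complex.norm_real,
        Real.norm_eq_abs, Real.norm_eq_abs, abs_of_nonneg (Ut_nonneg V n x),
        abs_of_nonneg (show 0 ≤ Vn x from le_max_right _ _)]
      exact mul_le_mul_of_nonneg_right (Ut_le V n x) (norm_nonneg _)
    · have h0 : ∀ᵐ x : V3, x ≠ 0 := compl_mem_ae_iff.mpr (measure_singleton 0)
      filter_upwards [h0] with x hx
      refine Tendsto.mul_const _ ?_
      exact (Complex.continuous_ofReal.tendsto _).comp (Ut_tendsto V x hx)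
  have hev := posDef_eventually hpos
    (fun n => (potM_herm (Ut V n) ψ).sub (kinM_herm g)) hlim
  obtain ⟨n, hn⟩ := hev.exists
  have hfin := hLev N ψ g (Ut V n) hg (Ut_rpot hVm hrad n) hn
  refine hfin.trans ?_
  have hC0 : 0 ≤ C0 := by
    unfold C0
    positivity
  refine mul_le_mul_of_nonneg_left ?_ hC0
  -- comparison of the integrals
  have hp0 : ENNReal.ofReal (3 / 2) ≠ 0 := by
    simp only [ne_eq, ENNReal.ofReal_eq_zero, not_le]
    norm_num
  have hVi : Integrable (fun y => |V y| ^ ((3 : ℝ) / 2)) volume := by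
    have h := hV.integrable_norm_rpow hp0 ENNReal.ofReal_ne_top
    rw [ENNReal.toReal_ofReal (by norm_num)] at h
    simpa only [Real.norm_eq_abs] using h
  have hdom : ∀ w : V3 → ℝ, AEStronglyMeasurable w volume → (∀ x, 0 ≤ w x) →
      (∀ x, w x ≤ |V x|) → Integrable (fun y => w y ^ ((3 : ℝ) / 2)) volume := by
    intro w hw hw0 hwle
    refine hVi.mono' (hw.aemeasurable.pow_const _).aestronglyMeasurable (ae_of_all _ fun x => ?_)
    rw [Real.norm_eq_abs, abs_of_nonneg (Real.rpow_nonneg (hw0 x) _)]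
    exact Real.rpow_le_rpow (hw0 x) (hwle x) (by norm_num)
  have hn0 : ∀ x, 0 ≤ Vn x := fun x => le_max_right _ _
  have hnle : ∀ x, Vn x ≤ |V x| := fun x => max_le (neg_le_abs _) (abs_nonneg _)
  refine integral_mono (hdom _ (Ut_meas hVm n) (Ut_nonneg V n)
    fun x => (Ut_le V n x).trans (hnle x)) (hdom Vn hVnm hn0 hnle) fun x => ?_
  exact Real.rpow_le_rpow (Ut_nonneg V n x) (Ut_le V n x) (by norm_num)

end Pool.Agent.RC
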