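import Pool.Agent.RC.Base

/-!
# Module VEI: integrals of the extremal potentials
-/

set_option autoImplicit false

namespace Pool.Agent.RC

open MeasureTheory Filter Topology

namespace VEI

theorem nsq_nonneg (x : V3) : 0 ≤ nsq x := Finset.sum_nonneg fun _ _ => sq_nonneg _

theorem continuous_nsq : Continuous nsq := by
  unfold nsq
  exact continuous_finsetSum _ fun i _ => (continuous_apply i).pow 2

theorem norm_sq_le (x : V3) : ‖x‖ ^ 2 ≤ nsq x := by
  have h1 : ‖x‖ ≤ √(nsq x) := by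
    rw [pi_norm_le_iff_of_nonneg (Real.sqrt_nonneg _)]
    intro i
    rw [Real.norm_eq_abs]
    apply Real.abs_le_sqrt
    unfold nsq
    exact Finset.single_le_sum (f := fun i => x i ^ 2) (fun j _ => sq_nonneg _) (Finset.mem_univ i)
  calc ‖x‖ ^ 2 ≤ (√(nsq x)) ^ 2 := pow_le_pow_left₀ (norm_nonneg _) h1 2
    _ = nsq x := Real.sq_sqrt (nsq_nonneg x)

theorem rh_sq (x : V3) : rh x ^ 2 = 1 + nsq x := by
  unfold rh
  exact Real.sq_sqrt (by linarith [nsq_nonneg x])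

theorem one_le_rh (x : V3) : 1 ≤ rh x := by
  unfold rh
  rw [Real.one_le_sqrt]
  linarith [nsq_nonneg x]

theorem rh_pos (x : V3) : 0 < rh x := lt_of_lt_of_le one_pos (one_le_rh x)

theorem continuous_rh : Continuous rh := by
  unfold rh
  exact (continuous_const.add continuous_nsq).sqrt

theorem vE_eq (ε : ℝ) (x : V3) : vE ε x = -(3 * (rh x)⁻¹ ^ 4 +
    ε * (2 * (rh x)⁻¹ ^ 3 + 5 / 2 * (rh x)⁻¹ ^ 5) +
    ε ^ 2 * (3 / 4 * (rh x)⁻¹ ^ 4 + 1 / 4 * (rh x)⁻¹ ^ 6)) := by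
  unfold vE
  have h := (rh_pos x).ne'
  field_simp

theorem vE_bounds {ε : ℝ} (h0 : 0 < ε) (h1 : ε ≤ 1) (x : V3) :
    0 ≤ -vE ε x ∧ -vE ε x ≤ 10 * (rh x)⁻¹ ^ 3 := by
  rw [vE_eq, neg_neg]
  have hu0 : 0 < (rh x)⁻¹ := inv_pos.mpr (rh_pos x)
  have hu1 : (rh x)⁻¹ ≤ 1 := inv_le_one_of_one_le₀ (one_le_rh x)
  set u := (rh x)⁻¹ with hu
  have h4 : u ^ 4 ≤ u ^ 3 := pow_le_pow_of_le_one hu0.le hu1 (by norm_num)
  have h5 : u ^ 5 ≤ u ^ 3 := pow_le_pow_of_le_one hu0.le hu1 (by norm_num)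
  have h6 : u ^ 6 ≤ u ^ 3 := pow_le_pow_of_le_one hu0.le hu1 (by norm_num)
  have p3 : 0 ≤ u ^ 3 := by positivity
  have he2 : ε ^ 2 ≤ 1 := by nlinarith
  refine ⟨by positivity, ?_⟩
  have a1 : ε * (2 * u ^ 3 + 5 / 2 * u ^ 5) ≤ 1 * (2 * u ^ 3 + 5 / 2 * u ^ 3) := by
    apply mul_le_mul h1 (by linarith) (by positivity) (by norm_num)
  have a2 : ε ^ 2 * (3 / 4 * u ^ 4 + 1 / 4 * u ^ 6) ≤ 1 * (3 / 4 * u ^ 3 + 1 / 4 * u ^ 3) := by
    apply mul_le_mul he2 (by linarith) (by positivity) (by norm_num)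
  linarith

/-- The integrable majorant. -/
noncomputable def bd (x : V3) : ℝ := (10 : ℝ) ^ (3 / 2 : ℝ) * (1 + ‖x‖ ^ 2) ^ (-(9 / 2 : ℝ) / 2)

theorem integrable_bd : Integrable bd := by
  unfold bd
  refine (integrable_rpow_neg_one_add_norm_sq (μ := (volume : Measure V3)) (r := 9 / 2) ?_).const_mul _
  simp
  norm_num

theorem rpow_le_bd {a : ℝ} {x : V3} (h0 : 0 ≤ a) (h1 : a ≤ 10 * (rh x)⁻¹ ^ 3) :
    a ^ (3 / 2 : ℝ) ≤ bd x := by
  have hp : 0 < 1 + nsq x := by linarith [nsq_nonneg x]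
  have e1 : (rh x)⁻¹ ^ 3 = (1 + nsq x) ^ (-(3 / 2) : ℝ) := by
    unfold rh
    rw [Real.sqrt_eq_rpow, ← Real.rpow_neg hp.le, ← Real.rpow_natCast, ← Real.rpow_mul hp.le]
    norm_num
  calc a ^ (3 / 2 : ℝ) ≤ (10 * (rh x)⁻¹ ^ 3) ^ (3 / 2 : ℝ) :=
        Real.rpow_le_rpow h0 h1 (by norm_num)
    _ = (10 : ℝ) ^ (3 / 2 : ℝ) * (1 + nsq x) ^ (-(9 / 2 : ℝ) / 2) := by
        rw [e1, Real.mul_rpow (by norm_num) (Real.rpow_nonneg hp.le _), ← Real.rpow_mul hp.le]
        norm_num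
    _ ≤ bd x := by
        unfold bd
        apply mul_le_mul_of_nonneg_left _ (by positivity)
        rw [Real.rpow_le_rpow_iff_of_neg hp (by positivity) (by norm_num)]
        linarith [norm_sq_le x]

theorem continuous_vE (ε : ℝ) : Continuous (vE ε) := by
  have h : vE ε = fun x => -(3 * (rh x)⁻¹ ^ 4 +
    ε * (2 * (rh x)⁻¹ ^ 3 + 5 / 2 * (rh x)⁻¹ ^ 5) +
    ε ^ 2 * (3 / 4 * (rh x)⁻¹ ^ 4 + 1 / 4 * (rh x)⁻¹ ^ 6)) := funext fun x => vE_eq ε x
  rw [h]
  have hi : Continuous fun x => (rh x)⁻¹ := continuous_rh.inv₀ fun x => (rh_pos x).ne'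
  fun_prop

theorem rad_vE (ε : ℝ) : Rad (vE ε) := by
  intro x y h
  have : rh x = rh y := by unfold rh; rw [h]
  unfold vE
  rw [this]

/-- The one dimensional integrand. -/
noncomputable def f1 (t : ℝ) : ℝ := Real.exp (3 * t) * ((1 + Real.exp (2 * t)) ^ 3)⁻¹

/-- Its antiderivative. -/
noncomputable def F1 (t : ℝ) : ℝ := 1 / 8 * (Real.arctan (Real.exp t) +
  Real.exp t * (Real.exp t ^ 2 - 1) / (1 + Real.exp t ^ 2) ^ 2)

theorem hasDerivAt_F1 (t : ℝ) : HasDerivAt F1 (f1 t) t := by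
  have hr : HasDerivAt Real.exp (Real.exp t) t := Real.hasDerivAt_exp t
  have hpos : (1 + Real.exp t ^ 2) ≠ 0 := by positivity
  have h1 := (hr.arctan).add (((hr.mul ((hr.pow 2).sub_const 1)).div
    (((hr.pow 2).const_add 1).pow 2) (pow_ne_zero 2 hpos)))
  have h2 := h1.const_mul (1 / 8)
  refine h2.congr_deriv ?_
  unfold f1
  have e3 : Real.exp (3 * t) = Real.exp t ^ 3 := by rw [← Real.exp_nat_mul]; norm_num
  have e2 : Real.exp (2 * t) = Real.exp t ^ 2 := by rw [← Real.exp_nat_mul]; norm_num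
  rw [e3, e2]
  set r := Real.exp t with hr'
  have hr0 : 0 < r := Real.exp_pos t
  simp only [Pi.mul_apply, Pi.pow_apply]
  field_simp
  ring

theorem tendsto_bot : Tendsto F1 atBot (𝓝 0) := by
  have h : Tendsto Real.exp atBot (𝓝 0) := Real.tendsto_exp_atBot
  have hc : Continuous fun r : ℝ => 1 / 8 * (Real.arctan r + r * (r ^ 2 - 1) / (1 + r ^ 2) ^ 2) := by
    have : ∀ r : ℝ, (1 + r ^ 2) ^ 2 ≠ 0 := fun r => by positivity
    fun_prop (disch := assumption)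
  have h2 := (hc.tendsto 0).comp h
  have e0 : 1 / 8 * (Real.arctan 0 + 0 * (0 ^ 2 - 1) / (1 + 0 ^ 2) ^ 2) = (0 : ℝ) := by simp
  rw [e0] at h2
  exact h2

theorem tendsto_top : Tendsto F1 atTop (𝓝 (Real.pi / 16)) := by
  have h : Tendsto Real.exp atTop atTop := Real.tendsto_exp_atTop
  have h1 : Tendsto (fun r : ℝ => Real.arctan r) atTop (𝓝 (Real.pi / 2)) :=
    tendsto_nhds_of_tendsto_nhdsWithin Real.tendsto_arctan_atTop
  have h2 : Tendsto (fun r : ℝ => r * (r ^ 2 - 1) / (1 + r ^ 2) ^ 2) atTop (𝓝 0) := by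
    rw [tendsto_zero_iff_abs_tendsto_zero]
    refine squeeze_zero' (Eventually.of_forall fun r => abs_nonneg _) ?_
      tendsto_inv_atTop_zero
    filter_upwards [eventually_ge_atTop (1 : ℝ)] with r hr
    have hr0 : 0 < r := by linarith
    have hn : 0 ≤ r * (r ^ 2 - 1) / (1 + r ^ 2) ^ 2 := by
      apply div_nonneg _ (by positivity)
      apply mul_nonneg hr0.le
      nlinarith
    show |r * (r ^ 2 - 1) / (1 + r ^ 2) ^ 2| ≤ r⁻¹
    rw [abs_of_nonneg hn, div_le_iff₀ (by positivity)]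
    have : r⁻¹ * (1 + r ^ 2) ^ 2 = r⁻¹ + 2 * r + r ^ 3 := by
      field_simp
      ring
    rw [this]
    have hi : 0 < r⁻¹ := inv_pos.mpr hr0
    nlinarith
  have h3 := ((h1.add h2).const_mul (1 / 8)).comp h
  have e : 1 / 8 * (Real.pi / 2 + 0) = Real.pi / 16 := by ring
  rw [e] at h3
  exact h3

/-- The integrand on `ℝ³`. -/
noncomputable def F3 (x : V3) : ℝ := ((1 + nsq x) ^ 3)⁻¹

theorem continuous_F3 : Continuous F3 := by
  unfold F3
  refine ((continuous_const.add continuous_nsq).pow 3).inv₀ fun x => ?_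
  have h := nsq_nonneg x
  have h2 : (1 + nsq x) ≠ 0 := by linarith
  exact pow_ne_zero 3 h2

theorem integrable_F3 : Integrable F3 := by
  have h := integrable_rpow_neg_one_add_norm_sq (μ := (volume : Measure V3)) (r := 6)
    (by simp; norm_num)
  refine h.mono' continuous_F3.aestronglyMeasurable (Eventually.of_forall fun x => ?_)
  have hn := nsq_nonneg x
  have hp : 0 < 1 + nsq x := by linarith
  unfold F3
  rw [Real.norm_eq_abs, abs_of_nonneg (by positivity)]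
  have e : ((1 + nsq x) ^ 3)⁻¹ = (1 + nsq x) ^ (-6 / 2 : ℝ) := by
    rw [← Real.rpow_natCast, ← Real.rpow_neg hp.le]
    norm_num
  rw [e]
  rw [Real.rpow_le_rpow_iff_of_neg hp (by positivity) (by norm_num)]
  linarith [norm_sq_le x]

theorem F3_pol (t : ℝ) (s : S2) : F3 (pol (t, s)) = ((1 + Real.exp (2 * t)) ^ 3)⁻¹ := by
  unfold F3
  rw [nsq_pol]

theorem integral_F3 (h : POL_Stmt) : ∫ x, F3 x = Real.pi ^ 2 / 4 := by
  obtain ⟨hint, heq⟩ := h.2.1 ℝ F3 integrable_F3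
  have hsig : sig.real Set.univ = 4 * Real.pi := by
    rw [Measure.real, h.2.2.2.1, ENNReal.toReal_ofReal (by positivity)]
  have hin : ∀ t : ℝ, ∫ s, Real.exp (3 * t) • F3 (pol (t, s)) ∂sig = (4 * Real.pi) * f1 t := by
    intro t
    have : (fun s : S2 => Real.exp (3 * t) • F3 (pol (t, s))) = fun _ => f1 t := by
      funext s
      rw [F3_pol, smul_eq_mul]
      rfl
    rw [this, integral_const, hsig, smul_eq_mul]
  rw [heq]
  simp only [hin]
  rw [integral_const_mul]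
  have hi : Integrable f1 := by
    have h1 := hint.integral_prod_left
    simp only [hin] at h1
    have h2 := h1.const_mul (4 * Real.pi)⁻¹
    have e : (fun x => (4 * Real.pi)⁻¹ * (4 * Real.pi * f1 x)) = f1 := by
      funext x
      have := Real.pi_pos
      field_simp
    rwa [e] at h2
  rw [integral_of_hasDerivAt_of_tendsto hasDerivAt_F1 hi tendsto_bot tendsto_top]
  ring

theorem limit_eq (x : V3) :
    max (3 * (rh x)⁻¹ ^ 4) 0 ^ ((3 : ℝ) / 2) = 3 * √3 * F3 x := by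
  have hn := nsq_nonneg x
  have hp : 0 < 1 + nsq x := by linarith
  have hq : (rh x)⁻¹ ^ 4 = ((1 + nsq x)⁻¹) ^ 2 := by
    rw [← rh_sq, ← inv_pow]
    ring
  have hq0 : 0 ≤ (1 + nsq x)⁻¹ := by positivity
  rw [hq, max_eq_left (by positivity), Real.mul_rpow (by norm_num) (by positivity)]
  have e1 : ((3 : ℝ)) ^ ((3 : ℝ) / 2) = 3 * √3 := by
    rw [Real.sqrt_eq_rpow, show (3 : ℝ) / 2 = 1 + 1 / 2 by norm_num,
      Real.rpow_add (by norm_num), Real.rpow_one]
  have e2 : (((1 + nsq x)⁻¹) ^ 2) ^ ((3 : ℝ) / 2) = F3 x := by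
    rw [← Real.rpow_natCast, ← Real.rpow_mul hq0]
    have : ((2 : ℕ) : ℝ) * (3 / 2) = ((3 : ℕ) : ℝ) := by norm_num
    rw [this, Real.rpow_natCast, inv_pow]
    rfl
  rw [e1, e2]

end VEI

open VEI in
theorem vei (h : POL_Stmt) : VEI_Stmt := by
  refine ⟨?_, ?_⟩
  · intro ε h0 h1
    refine ⟨?_, rad_vE ε, continuous_vE ε, 10, ?_⟩
    · rw [← integrable_norm_rpow_iff (continuous_vE ε).aestronglyMeasurable
        (by simp) (by simp)]
      refine integrable_bd.mono' ?_ (Eventually.of_forall fun x => ?_)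
      · exact ((continuous_vE ε).norm.rpow_const fun x => Or.inr (by
          rw [ENNReal.toReal_ofReal (by norm_num)]; norm_num)).aestronglyMeasurable
      · rw [ENNReal.toReal_ofReal (by norm_num), Real.norm_eq_abs,
          abs_of_nonneg (Real.rpow_nonneg (norm_nonneg _) _)]
        obtain ⟨b0, b1⟩ := vE_bounds h0 h1 x
        have : ‖vE ε x‖ = -vE ε x := by
          rw [Real.norm_eq_abs, abs_of_nonpos (by linarith)]
        rw [this]
        exact rpow_le_bd b0 b1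
    · intro x
      obtain ⟨b0, b1⟩ := vE_bounds h0 h1 x
      rw [abs_of_nonpos (by linarith)]
      have hu0 : 0 < (rh x)⁻¹ := inv_pos.mpr (rh_pos x)
      have hu1 : (rh x)⁻¹ ≤ 1 := inv_le_one_of_one_le₀ (one_le_rh x)
      have : (rh x)⁻¹ ^ 3 ≤ 1 := pow_le_one₀ hu0.le hu1
      linarith
  · have hlim : ∫ x, max (3 * (rh x)⁻¹ ^ 4) 0 ^ ((3 : ℝ) / 2) = 3 * √3 * Real.pi ^ 2 / 4 := by
      simp only [limit_eq]
      rw [integral_const_mul, integral_F3 h]
      ring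
    rw [← hlim]
    have hev : ∀ᶠ ε : ℝ in 𝓝[>] 0, 0 < ε ∧ ε ≤ 1 := by
      filter_upwards [Ioc_mem_nhdsGT (zero_lt_one' ℝ)] with ε hε using hε
    refine tendsto_integral_filter_of_dominated_convergence bd ?_ ?_ integrable_bd ?_
    · refine Eventually.of_forall fun ε => ?_
      exact (((continuous_vE ε).neg.max continuous_const).rpow_const
        fun x => Or.inr (by norm_num)).aestronglyMeasurable
    · filter_upwards [hev] with ε hε
      refine Eventually.of_forall fun x => ?_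
      obtain ⟨b0, b1⟩ := vE_bounds hε.1 hε.2 x
      rw [max_eq_left b0, Real.norm_eq_abs, abs_of_nonneg (Real.rpow_nonneg b0 _)]
      exact rpow_le_bd b0 b1
    · refine Eventually.of_forall fun x => ?_
      have h1 : Tendsto (fun ε : ℝ => -vE ε x) (𝓝 0) (𝓝 (3 * (rh x)⁻¹ ^ 4)) := by
        have hc : Continuous fun ε : ℝ => 3 * (rh x)⁻¹ ^ 4 +
            ε * (2 * (rh x)⁻¹ ^ 3 + 5 / 2 * (rh x)⁻¹ ^ 5) +
            ε ^ 2 * (3 / 4 * (rh x)⁻¹ ^ 4 + 1 / 4 * (rh x)⁻¹ ^ 6) := by fun_prop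
        have h2 := hc.tendsto 0
        simp only [vE_eq, neg_neg]
        simpa using h2
      have h2 : Tendsto (fun ε : ℝ => max (-vE ε x) 0) (𝓝 0) (𝓝 (max (3 * (rh x)⁻¹ ^ 4) 0)) :=
        h1.max tendsto_const_nhds
      exact ((h2.rpow_const (Or.inr (by norm_num))).mono_left nhdsWithin_le_nhds)

end Pool.Agent.RC
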