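import Pool.Agent.RC.POL
import Pool.Agent.RC.RDW
import Pool.Agent.RC.ROT
import Pool.Agent.RC.PLY
import Pool.Agent.RC.DIM
import Pool.Agent.RC.DNS
import Pool.Agent.RC.GRS
import Pool.Agent.RC.ANG
import Pool.Agent.RC.CHN
import Pool.Agent.RC.KPO
import Pool.Agent.RC.ENR
import Pool.Agent.RC.DGN
import Pool.Agent.RC.CNT
import Pool.Agent.RC.KN1
import Pool.Agent.RC.MTX
import Pool.Agent.RC.ASA
import Pool.Agent.RC.CUT
import Pool.Agent.RC.HLV
import Pool.Agent.RC.SPC
import Pool.Agent.RC.WIB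
import Pool.Agent.RC.PSE
import Pool.Agent.RC.VEI
import Pool.Agent.RC.LWB

/-!
# Sharp CLR inequality for radial potentials in `ℝ³`: assembly
(MP_4c716f_mp; architect: helper86). See PAPER.md in this folder.
-/

set_option autoImplicit false

namespace Pool.Agent.RC

/-- The upper bound. -/
theorem upperAll : RadialCLR C0 := by
  have h1 : POL_Stmt := pol_thm
  have h2 : RDW_Stmt := rdw h1
  have h3 : ANG_Stmt := ang (rot h1) ply dns (grs dim)
  have h4 : ENR_Stmt := enr h1 h2 (kpo h1) chn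
  exact spc (hlv (cut (asa h2 h3 chn h4 (cnt dgn) kn1 mtx)))

/-- Optimality. -/
theorem lowerAll (L : ℝ) (h : RadialCLR L) : C0 ≤ L := lwb wib pse (vei pol_thm) L h

end Pool.Agent.RC
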