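import Pool.Agent.RC.Stmts
import Pool.Agent.LT.KinH1

/-!
# Sharp CLR inequality for radial potentials in `ℝ³`: common lemmas
(MP_4c716f_mp; architect: helper86). See PAPER.md in this folder.
-/

set_option autoImplicit false

namespace Pool.Agent.RC

open MeasureTheory Matrix Finset Filter Topology
open scoped ComplexConjugate ComplexOrder ContDiff

/-! ### The sphere -/

noncomputable instance : IsFiniteMeasure sig := by
  unfold sig; infer_instance

noncomputable instance : sig.IsOpenPosMeasure := by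
  unfold sig; infer_instance

theorem nsq_om (s : S2) : nsq (om s) = 1 := by
  have h := s.2
  rw [mem_sphere_zero_iff_norm, EuclideanSpace.norm_eq] at h
  have h2 : ∑ i, ‖(s : EuclideanSpace ℝ (Fin 3)) i‖ ^ 2 = 1 := by
    have h3 : (0 : ℝ) ≤ ∑ i, ‖(s : EuclideanSpace ℝ (Fin 3)) i‖ ^ 2 :=
      Finset.sum_nonneg fun i _ => by positivity
    have := Real.sq_sqrt h3
    rw [h] at this
    linarith
  simpa [nsq, om, Real.norm_eq_abs, sq_abs] using h2

theorem continuous_om : Continuous om :=
  continuous_pi fun i => (EuclideanSpace.proj i : EuclideanSpace ℝ (Fin 3) →L[ℝ] ℝ).continuous.comp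
    continuous_subtype_val

theorem continuous_pol : Continuous pol :=
  (Real.continuous_exp.comp continuous_fst).smul (continuous_om.comp continuous_snd)

theorem nsq_smul (a : ℝ) (x : V3) : nsq (a • x) = a ^ 2 * nsq x := by
  simp [nsq, mul_pow, Finset.mul_sum]

theorem nsq_pol (t : ℝ) (s : S2) : nsq (pol (t, s)) = Real.exp (2 * t) := by
  unfold pol
  rw [nsq_smul, nsq_om, mul_one, ← Real.exp_nat_mul]
  norm_num

/-- A continuous function on the sphere is integrable. -/
theorem int_sph {E : Type*} [NormedAddCommGroup E] {g : S2 → E} (hg : Continuous g) :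
    Integrable g sig := by
  have : CompactSpace S2 := Metric.sphere.compactSpace _ _
  exact hg.integrable_of_hasCompactSupport (HasCompactSupport.of_compactSpace g)

/-- Version for functions on `ℝ³`. -/
theorem int_om {E : Type*} [NormedAddCommGroup E] {g : V3 → E} (hg : Continuous g) :
    Integrable (fun s => g (om s)) sig := int_sph (hg.comp continuous_om)

theorem int_pr {g e : V3 → ℂ} (hg : Continuous g) (he : Continuous e) :
    Integrable (fun s => g (om s) * conj (e (om s))) sig :=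
  int_om (g := fun x => g x * conj (e x)) (hg.mul (Complex.continuous_conj.comp he))

theorem pr_add_left {g h e : V3 → ℂ} (hg : Continuous g) (hh : Continuous h)
    (he : Continuous e) : pr (fun x => g x + h x) e = pr g e + pr h e := by
  unfold pr
  rw [← integral_add (int_pr hg he) (int_pr hh he)]
  congr 1
  funext s
  ring

theorem pr_smul_left (c : ℂ) (g e : V3 → ℂ) : pr (fun x => c * g x) e = c * pr g e := by
  unfold pr
  rw [← integral_const_mul]
  congr 1
  funext s
  ring

theorem pr_sum_left {ι : Type*} (A : Finset ι) {g : ι → V3 → ℂ} {e : V3 → ℂ}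
    (hg : ∀ i, Continuous (g i)) (he : Continuous e) :
    pr (fun x => ∑ i ∈ A, g i x) e = ∑ i ∈ A, pr (g i) e := by
  unfold pr
  rw [← integral_finsetSum _ fun i _ => int_pr (hg i) he]
  congr 1
  funext s
  rw [Finset.sum_mul]

/-- Hermitian symmetry. -/
theorem pr_symm (g e : V3 → ℂ) : pr e g = conj (pr g e) := by
  unfold pr
  rw [← integral_conj]
  congr 1
  funext s
  rw [map_mul, Complex.conj_conj, mul_comm]

theorem pr_sub_left {g h e : V3 → ℂ} (hg : Continuous g) (hh : Continuous h)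
    (he : Continuous e) : pr (fun x => g x - h x) e = pr g e - pr h e := by
  unfold pr
  rw [← integral_sub (int_pr hg he) (int_pr hh he)]
  congr 1
  funext s
  ring

theorem pr_add_right {g e f : V3 → ℂ} (hg : Continuous g) (he : Continuous e)
    (hf : Continuous f) : pr g (fun x => e x + f x) = pr g e + pr g f := by
  rw [pr_symm, pr_add_left he hf hg, map_add, ← pr_symm, ← pr_symm]

theorem pr_sub_right {g e f : V3 → ℂ} (hg : Continuous g) (he : Continuous e)
    (hf : Continuous f) : pr g (fun x => e x - f x) = pr g e - pr g f := by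
  rw [pr_symm, pr_sub_left he hf hg, map_sub, ← pr_symm, ← pr_symm]

theorem pr_smul_right (c : ℂ) (g e : V3 → ℂ) : pr g (fun x => c * e x) = conj c * pr g e := by
  rw [pr_symm, pr_smul_left, map_mul, ← pr_symm]

theorem pr_sum_right {ι : Type*} (A : Finset ι) {e : ι → V3 → ℂ} {g : V3 → ℂ}
    (he : ∀ i, Continuous (e i)) (hg : Continuous g) :
    pr g (fun x => ∑ i ∈ A, e i x) = ∑ i ∈ A, pr g (e i) := by
  rw [pr_symm, pr_sum_left A he hg, map_sum]
  exact Finset.sum_congr rfl fun i _ => (pr_symm _ _).symm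

/-- The norm. -/
theorem pr_self (g : V3 → ℂ) : pr g g = ((∫ s, ‖g (om s)‖ ^ 2 ∂sig : ℝ) : ℂ) := by
  unfold pr
  rw [← integral_complex_ofReal]
  congr 1
  funext s
  rw [Complex.mul_conj']
  push_cast
  rfl

/-- Only the values on the sphere matter. -/
theorem pr_congr {g g' e e' : V3 → ℂ} (h : ∀ s, g (om s) = g' (om s))
    (h' : ∀ s, e (om s) = e' (om s)) : pr g e = pr g' e' := by
  unfold pr
  simp only [h, h']

/-- A continuous function with norm zero vanishes on the sphere. -/
theorem pr_self_zero {g : V3 → ℂ} (hg : Continuous g) (h : pr g g = 0) (s : S2) :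
    g (om s) = 0 := by
  rw [pr_self, Complex.ofReal_eq_zero] at h
  have h1 : Continuous fun s : S2 => ‖g (om s)‖ ^ 2 := (hg.comp continuous_om).norm.pow 2
  have h2 : (fun s : S2 => ‖g (om s)‖ ^ 2) =ᵐ[sig] 0 :=
    (integral_eq_zero_iff_of_nonneg (fun s => by positivity) (int_sph h1)).1 h
  have h3 := (Continuous.ae_eq_iff_eq sig h1 (by continuity)).1 h2
  have h4 := congrFun h3 s
  simpa using h4

/-! ### Positive definite matrices -/

/-- A positive definite matrix is bounded below. -/
theorem posDef_gap {N : ℕ} {A : Matrix (Fin N) (Fin N) ℂ} (hA : A.PosDef) :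
    ∃ m : ℝ, 0 < m ∧ (A - (m : ℂ) • (1 : Matrix (Fin N) (Fin N) ℂ)).PosSemidef := by
  classical
  obtain ⟨m, hm0, hm⟩ : ∃ m : ℝ, 0 < m ∧ ∀ i, m ≤ hA.1.eigenvalues i := by
    rcases Nat.eq_zero_or_pos N with h0 | h0
    · subst h0
      exact ⟨1, one_pos, fun i => i.elim0⟩
    · haveI : Nonempty (Fin N) := ⟨⟨0, h0⟩⟩
      obtain ⟨i, hi⟩ := Finite.exists_min hA.1.eigenvalues
      exact ⟨hA.1.eigenvalues i, hA.eigenvalues_pos i, hi⟩
  refine ⟨m, hm0, ?_⟩
  set U : Matrix (Fin N) (Fin N) ℂ := (hA.1.eigenvectorUnitary : Matrix (Fin N) (Fin N) ℂ) with hU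
  have hUU : U * Uᴴ = 1 := by
    have := Matrix.mem_unitaryGroup_iff.1 hA.1.eigenvectorUnitary.2
    rwa [Matrix.star_eq_conjTranspose] at this
  have h1 : A = U * Matrix.diagonal (fun i => (hA.1.eigenvalues i : ℂ)) * Uᴴ := by
    have := hA.1.spectral_theorem
    rw [Unitary.conjStarAlgAut_apply] at this
    exact this
  have h2 : A - (m : ℂ) • (1 : Matrix (Fin N) (Fin N) ℂ) =
      U * Matrix.diagonal (fun i => ((hA.1.eigenvalues i - m : ℝ) : ℂ)) * Uᴴ := by
    have h3 : Matrix.diagonal (fun i => ((hA.1.eigenvalues i - m : ℝ) : ℂ)) =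
        Matrix.diagonal (fun i => (hA.1.eigenvalues i : ℂ)) -
          (m : ℂ) • (1 : Matrix (Fin N) (Fin N) ℂ) := by
      ext i j
      by_cases hij : i = j
      · subst hij
        simp
      · simp [Matrix.diagonal_apply_ne _ hij, Matrix.one_apply_ne hij]
    rw [h3, Matrix.mul_sub, Matrix.sub_mul, ← h1, Matrix.mul_smul, Matrix.mul_one,
      Matrix.smul_mul, hUU]
  rw [h2]
  refine PosSemidef.mul_mul_conjTranspose_same ?_ U
  refine PosSemidef.diagonal fun i => ?_
  have : (0 : ℝ) ≤ hA.1.eigenvalues i - m := by linarith [hm i]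
  simpa using (Complex.zero_le_real.2 this)

/-- Positive definiteness is an open condition. -/
theorem posDef_eventually {N : ℕ} {A : Matrix (Fin N) (Fin N) ℂ}
    {M : ℕ → Matrix (Fin N) (Fin N) ℂ} (hA : A.PosDef) (hM : ∀ n, (M n).IsHermitian)
    (h : ∀ i j, Tendsto (fun n => M n i j) atTop (𝓝 (A i j))) : ∀ᶠ n in atTop, (M n).PosDef := by
  obtain ⟨m, hm0, hm⟩ := posDef_gap hA
  have h1 : Tendsto (fun n => ∑ i, ∑ j, ‖(A - M n) i j‖) atTop (𝓝 0) := by
    have : Tendsto (fun n => ∑ i : Fin N, ∑ j : Fin N, ‖(A - M n) i j‖) atTop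
        (𝓝 (∑ i : Fin N, ∑ j : Fin N, (0 : ℝ))) := by
      refine tendsto_finsetSum _ fun i _ => tendsto_finsetSum _ fun j _ => ?_
      have h3 := ((h i j).const_sub (A i j)).norm
      simpa using h3
    simpa using this
  have h2 : ∀ᶠ n in atTop, ∑ i, ∑ j, ‖(A - M n) i j‖ < m / 2 :=
    h1.eventually_lt_const (by positivity)
  filter_upwards [h2] with n hn
  have h3 := LT.kinH1_psd (A - M n) (hA.1.sub (hM n)) (m / 2) hn.le
  have h4 : M n = (A - (m : ℂ) • (1 : Matrix (Fin N) (Fin N) ℂ)) +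
      (((m / 2 : ℝ) : ℂ) • (1 : Matrix (Fin N) (Fin N) ℂ) - (A - M n)) +
      ((m / 2 : ℝ) : ℂ) • (1 : Matrix (Fin N) (Fin N) ℂ) := by
    have h5 : (m : ℂ) • (1 : Matrix (Fin N) (Fin N) ℂ) =
        ((m / 2 : ℝ) : ℂ) • (1 : Matrix (Fin N) (Fin N) ℂ) +
          ((m / 2 : ℝ) : ℂ) • (1 : Matrix (Fin N) (Fin N) ℂ) := by
      rw [← add_smul, ← Complex.ofReal_add, add_halves]
    rw [h5]
    abel
  rw [h4]
  refine PosDef.posSemidef_add (hm.add h3) ?_
  have h6 : (0 : ℂ) < ((m / 2 : ℝ) : ℂ) := Complex.zero_lt_real.2 (by positivity)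
  exact PosDef.one.smul h6

end Pool.Agent.RC
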