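import Pool.Agent.LT.Defs2

/-!
# Sharp CLR inequality for radial potentials in `ℝ³`: definitions
(MP_4c716f_mp; architect: helper86). See PAPER.md in this folder.
-/

set_option autoImplicit false

namespace Pool.Agent.RC

open MeasureTheory Matrix Finset
open scoped ComplexConjugate ComplexOrder ContDiff
open Pool.Agent.LT (TestFn IsH1v IsH1d IsEigenfunctionD)

/-- `ℝ³` (Lebesgue measure, sup norm). -/
abbrev V3 : Type := Fin 3 → ℝ

/-- The Euclidean unit sphere. -/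
abbrev S2 : Type := Metric.sphere (0 : EuclideanSpace ℝ (Fin 3)) 1

/-- Surface measure of the unit sphere. -/
noncomputable def sig : Measure S2 := (volume : Measure (EuclideanSpace ℝ (Fin 3))).toSphere

/-- The point of `ℝ³` of a point of the sphere. -/
def om (s : S2) : V3 := fun i => (s : EuclideanSpace ℝ (Fin 3)) i

/-- The squared Euclidean norm. -/
def nsq (x : V3) : ℝ := ∑ i, x i ^ 2

/-- Logarithmic polar coordinates. -/
noncomputable def pol (p : ℝ × S2) : V3 := Real.exp p.1 • om p.2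

/-- Radial functions. -/
def Rad {α : Type} (U : V3 → α) : Prop := ∀ x y, nsq x = nsq y → U x = U y

/-- Bounded nonnegative radial potentials supported in an annulus `ε ≤ |x|² ≤ R`. -/
structure RPot (U : V3 → ℝ) : Prop where
  meas : AEStronglyMeasurable U volume
  nonneg : ∀ x, 0 ≤ U x
  rad : Rad U
  bdd : ∃ B, ∀ x, U x ≤ B
  supp : ∃ ε R, 0 < ε ∧ ∀ x, U x ≠ 0 → ε ≤ nsq x ∧ nsq x ≤ R

/-- Test functions that vanish near the origin. -/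
def A0 (f : V3 → ℂ) : Prop := TestFn 3 f ∧ ∃ ε, 0 < ε ∧ ∀ x, nsq x < ε → f x = 0

/-- Partial derivative. -/
noncomputable def pd3 (k : Fin 3) (g : V3 → ℂ) (x : V3) : ℂ := fderiv ℝ g x (Pi.single k 1)

/-- Gradient, in the form used by `IsH1d`. -/
noncomputable def grd (g : V3 → ℂ) : Fin 3 → V3 → ℂ := fun k x => pd3 k g x

/-- Rotational derivatives `x_{i+1} ∂_{i+2} - x_{i+2} ∂_{i+1}` (indices modulo 3). -/
noncomputable def Dr (i : Fin 3) (g : V3 → ℂ) (x : V3) : ℂ :=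
  (x (i + 1) : ℂ) * pd3 (i + 2) g x - (x (i + 2) : ℂ) * pd3 (i + 1) g x

/-- Matrix `∑_k ∫ g_{i,k} conj g_{j,k}`. -/
noncomputable def kinM {N : ℕ} (g : Fin N → Fin 3 → V3 → ℂ) : Matrix (Fin N) (Fin N) ℂ :=
  Matrix.of fun i j => ∑ k, ∫ y, g i k y * conj (g j k y)

/-- Matrix `∫ U ψ_i conj ψ_j`. -/
noncomputable def potM {N : ℕ} (U : V3 → ℝ) (ψ : Fin N → V3 → ℂ) : Matrix (Fin N) (Fin N) ℂ :=
  Matrix.of fun i j => ∫ y, (U y : ℂ) * (ψ i y * conj (ψ j y))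

/-- The sharp constant `4 / (3 √3 π²)`. -/
noncomputable def C0 : ℝ := 4 / (3 * √3 * Real.pi ^ 2)

/-- `W(t) = e^{2t} U(e^t)`. -/
noncomputable def Wf (U : V3 → ℝ) (t : ℝ) : ℝ :=
  Real.exp (2 * t) * U (Real.exp t • (Pi.single 0 1 : V3))

/-- `F(t, x) = e^{t/2} f(e^t x)`. -/
noncomputable def fl (f : V3 → ℂ) (t : ℝ) (x : V3) : ℂ :=
  ((Real.exp (t / 2) : ℝ) : ℂ) * f (Real.exp t • x)

/-- `∂_t F`. -/
noncomputable def fl' (f : V3 → ℂ) (t : ℝ) (x : V3) : ℂ :=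
  ((Real.exp (t / 2) : ℝ) : ℂ) * (1 / 2 * f (Real.exp t • x) +
    ∑ k, ((Real.exp t * x k : ℝ) : ℂ) * pd3 k f (Real.exp t • x))

/-- `∫_{S²} g conj e`. -/
noncomputable def pr (g e : V3 → ℂ) : ℂ := ∫ s, g (om s) * conj (e (om s)) ∂sig

/-- Channel function `u(t) = ∫_{S²} F(t, ·) conj e`. -/
noncomputable def ch (f e : V3 → ℂ) (t : ℝ) : ℂ := pr (fl f t) e

/-- Its derivative. -/
noncomputable def ch' (f e : V3 → ℂ) (t : ℝ) : ℂ := pr (fl' f t) e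

/-! ### Polynomials -/

/-- Polynomial function on `ℝ³`. -/
noncomputable def evp (p : MvPolynomial (Fin 3) ℂ) (x : V3) : ℂ :=
  MvPolynomial.eval (fun i => (x i : ℂ)) p

/-- All monomials of `p` have degree `< n`. -/
def DegLt (n : ℕ) (p : MvPolynomial (Fin 3) ℂ) : Prop := ∀ m ∈ p.support, (∑ i, m i) < n

/-! ### The families of functions on the sphere -/

/-- Bessel's inequality for `e 0, …, e (n-1)`. -/
def Bess (e : ℕ → V3 → ℂ) (n : ℕ) : Prop :=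
  ∀ g : V3 → ℂ, Continuous g → ∑ k ∈ range n, ‖pr g (e k)‖ ^ 2 ≤ ∫ s, ‖g (om s)‖ ^ 2 ∂sig

/-- The rotational energy of `g` controls the components: eigenvalue `l (l + 1)`, `l = √k`, for
`k < L²`, and `L (L + 1)` for the rest. -/
def Gap (e : ℕ → V3 → ℂ) (L : ℕ) : Prop :=
  ∀ g : V3 → ℂ, ContDiff ℝ ∞ g →
    (∑ k ∈ range (L ^ 2), ((k.sqrt : ℝ) * (k.sqrt + 1)) * ‖pr g (e k)‖ ^ 2) +
      (L : ℝ) * (L + 1) * ((∫ s, ‖g (om s)‖ ^ 2 ∂sig) - ∑ k ∈ range (L ^ 2), ‖pr g (e k)‖ ^ 2) ≤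
      ∑ i, ∫ s, ‖Dr i g (om s)‖ ^ 2 ∂sig

/-! ### Linear algebra -/

/-- The vector `c` in the block `k`. -/
def xk {N K : ℕ} (c : Fin N → ℂ) (k : Fin K) : Fin N × Fin K → ℂ :=
  fun p => if p.2 = k then c p.1 else 0

/-! ### The extremal functions -/

/-- `ρ = √(1 + |x|²)` -/
noncomputable def rh (x : V3) : ℝ := √(1 + nsq x)

/-- `ψ_ε = ρ⁻¹ exp (-ε (ρ - 1/(2ρ)))` -/
noncomputable def psE (ε : ℝ) (x : V3) : ℂ :=
  (((rh x)⁻¹ * Real.exp (-(ε * (rh x - 1 / (2 * rh x)))) : ℝ) : ℂ)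

/-- `V_ε = Δψ_ε/ψ_ε - ε²` -/
noncomputable def vE (ε : ℝ) (x : V3) : ℝ :=
  -(3 / rh x ^ 4 + ε * (2 / rh x ^ 3 + 5 / (2 * rh x ^ 5)) +
    ε ^ 2 * (3 / (4 * rh x ^ 4) + 1 / (4 * rh x ^ 6)))

end Pool.Agent.RC
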