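import Pool.Agent.RC.Base

/-!
# POL: logarithmic polar coordinates
-/

set_option autoImplicit false

namespace Pool.Agent.RC

open MeasureTheory Set
open scoped ENNReal

namespace POL

/-- The density `e^{3t}`. -/
noncomputable def den (t : ℝ) : ℝ≥0∞ := ENNReal.ofReal (Real.exp (3 * t))

theorem measurable_den : Measurable den := by
  unfold den
  fun_prop

theorem den_ne_zero (t : ℝ) : den t ≠ 0 := by
  unfold den
  rw [Ne, ENNReal.ofReal_eq_zero, not_le]
  exact Real.exp_pos _

theorem den_lt_top (t : ℝ) : den t < ∞ := ENNReal.ofReal_lt_top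

theorem den_toReal (t : ℝ) : (den t).toReal = Real.exp (3 * t) :=
  ENNReal.toReal_ofReal (Real.exp_pos _).le

/-- The measure `e^{3t} dt`. -/
noncomputable def mexp : Measure ℝ := (volume : Measure ℝ).withDensity den

instance : SigmaFinite mexp := by
  unfold mexp
  exact SigmaFinite.withDensity_of_ne_top
    (Filter.Eventually.of_forall fun t => (den_lt_top t).ne)

/-- The exponential function as a homeomorphism `ℝ ≃ (0, ∞)`. -/
noncomputable def eH : ℝ ≃ₜ Ioi (0 : ℝ) := Real.expOrderIso.toHomeomorph

theorem eH_coe (t : ℝ) : ((eH t : Ioi (0 : ℝ)) : ℝ) = Real.exp t := rfl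

theorem mp_exp : MeasurePreserving eH mexp (Measure.volumeIoiPow 2) := by
  refine ⟨eH.continuous.measurable, ?_⟩
  ext A hA
  rw [Measure.map_apply eH.continuous.measurable hA, mexp,
    withDensity_apply _ (eH.continuous.measurable hA), Measure.volumeIoiPow,
    withDensity_apply _ hA,
    setLIntegral_subtype measurableSet_Ioi A fun a : ℝ => ENNReal.ofReal (a ^ 2)]
  have himg : ((↑) : Ioi (0 : ℝ) → ℝ) '' A = Real.exp '' (eH ⁻¹' A) := by
    ext r
    constructor
    · rintro ⟨a, ha, rfl⟩
      refine ⟨eH.symm a, ?_, ?_⟩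
      · rw [mem_preimage, Homeomorph.apply_symm_apply]
        exact ha
      · rw [← eH_coe, Homeomorph.apply_symm_apply]
    · rintro ⟨t, ht, rfl⟩
      exact ⟨eH t, ht, eH_coe t⟩
  rw [himg, lintegral_image_eq_lintegral_abs_deriv_mul (f' := Real.exp)
    (eH.continuous.measurable hA) (fun x _ => (Real.hasDerivAt_exp x).hasDerivWithinAt)
    Real.exp_injective.injOn]
  refine lintegral_congr fun t => ?_
  unfold den
  rw [abs_of_pos (Real.exp_pos t), ← ENNReal.ofReal_mul (Real.exp_pos t).le]
  congr 1
  rw [← Real.exp_nat_mul, ← Real.exp_add]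
  congr 1
  push_cast
  ring

/-- The measure `e^{3t} dt dσ`. -/
noncomputable def nu : Measure (ℝ × S2) := mexp.prod sig

theorem nu_eq : nu = ((volume : Measure ℝ).prod sig).withDensity fun p => den p.1 := by
  unfold nu mexp
  exact prod_withDensity_left measurable_den

/-- The polar coordinates as a composition. -/
noncomputable def swp : ℝ × S2 → S2 × Ioi (0 : ℝ) := fun p => (p.2, eH p.1)

theorem mp_swp : MeasurePreserving swp nu (sig.prod (Measure.volumeIoiPow 2)) := by
  have h1 : MeasurePreserving (Prod.swap : ℝ × S2 → S2 × ℝ) nu (sig.prod mexp) :=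
    Measure.measurePreserving_swap
  have h2 : MeasurePreserving (Prod.map id eH) (sig.prod mexp)
      (sig.prod (Measure.volumeIoiPow 2)) := (MeasurePreserving.id sig).prod mp_exp
  exact h2.comp h1

/-- The inverse of the polar coordinates. -/
noncomputable def hinv : S2 × Ioi (0 : ℝ) → EuclideanSpace ℝ (Fin 3) :=
  fun p => (((homeomorphUnitSphereProd (EuclideanSpace ℝ (Fin 3))).symm p :
    ({0}ᶜ : Set (EuclideanSpace ℝ (Fin 3)))) : EuclideanSpace ℝ (Fin 3))

theorem mp_hinv : MeasurePreserving hinv (sig.prod (Measure.volumeIoiPow 2)) volume := by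
  have h1 := (volume : Measure (EuclideanSpace ℝ (Fin 3))).measurePreserving_homeomorphUnitSphereProd
  have h2 : Module.finrank ℝ (EuclideanSpace ℝ (Fin 3)) - 1 = 2 := by
    rw [finrank_euclideanSpace_fin]
  rw [h2] at h1
  have h3 := MeasurePreserving.symm
    (homeomorphUnitSphereProd (EuclideanSpace ℝ (Fin 3))).toMeasurableEquiv h1
  have h4 : MeasurePreserving (Subtype.val : ({0}ᶜ : Set (EuclideanSpace ℝ (Fin 3))) →
      EuclideanSpace ℝ (Fin 3))
      (Measure.comap Subtype.val (volume : Measure (EuclideanSpace ℝ (Fin 3))))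
      (volume : Measure (EuclideanSpace ℝ (Fin 3))) := by
    refine ⟨measurable_subtype_coe, ?_⟩
    rw [map_comap_subtype_coe (measurableSet_singleton _).compl, restrict_compl_singleton]
  exact h4.comp h3

theorem emb_hinv : MeasurableEmbedding hinv :=
  (MeasurableEmbedding.subtype_coe (measurableSet_singleton _).compl).comp
    (homeomorphUnitSphereProd (EuclideanSpace ℝ (Fin 3))).symm.measurableEmbedding

theorem pol_eq : pol = fun p => WithLp.ofLp (hinv (swp p)) := by
  funext p
  funext i
  unfold pol hinv swp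
  simp [om, eH_coe]

theorem mp_pol : MeasurePreserving pol nu volume := by
  rw [pol_eq]
  exact (PiLp.volume_preserving_ofLp (Fin 3)).comp (mp_hinv.comp mp_swp)

theorem measurable_pol : Measurable pol := continuous_pol.measurable

theorem abs_cont : (volume : Measure ℝ).prod sig ≪ nu := by
  rw [nu_eq]
  refine withDensity_absolutelyContinuous' ?_ ?_
  · exact (measurable_den.comp measurable_fst).aemeasurable
  · exact Filter.Eventually.of_forall fun p => den_ne_zero p.1

theorem qmp : Measure.QuasiMeasurePreserving pol ((volume : Measure ℝ).prod sig) volume := by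
  refine ⟨measurable_pol, ?_⟩
  rw [← mp_pol.map_eq]
  exact abs_cont.map measurable_pol

theorem lint (F : V3 → ℝ≥0∞) (hF : AEMeasurable F volume) :
    ∫⁻ x, F x = ∫⁻ t, ∫⁻ s, ENNReal.ofReal (Real.exp (3 * t)) * F (pol (t, s)) ∂sig := by
  have h1 : AEMeasurable (fun p => F (pol p)) ((volume : Measure ℝ).prod sig) :=
    hF.comp_quasiMeasurePreserving qmp
  have h2 : ∫⁻ x, F x = ∫⁻ p, F (pol p) ∂nu := by
    have h3 : AEMeasurable F (Measure.map pol nu) := by rwa [mp_pol.map_eq]
    rw [← lintegral_map' h3 mp_pol.measurable.aemeasurable, mp_pol.map_eq]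
  have hd : AEMeasurable (fun p : ℝ × S2 => den p.1) ((volume : Measure ℝ).prod sig) :=
    (measurable_den.comp measurable_fst).aemeasurable
  rw [h2, nu_eq, lintegral_withDensity_eq_lintegral_mul₀ hd h1, lintegral_prod]
  · rfl
  · exact hd.mul h1

theorem integ (E : Type) [NormedAddCommGroup E] [NormedSpace ℝ E] (F : V3 → E)
    (hF : Integrable F volume) :
    Integrable (fun p : ℝ × S2 => Real.exp (3 * p.1) • F (pol p)) (volume.prod sig) ∧
      ∫ x, F x = ∫ t, ∫ s, Real.exp (3 * t) • F (pol (t, s)) ∂sig := by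
  have hd : Measurable fun p : ℝ × S2 => den p.1 := measurable_den.comp measurable_fst
  have hlt : ∀ᵐ p : ℝ × S2 ∂((volume : Measure ℝ).prod sig), den p.1 < ∞ :=
    Filter.Eventually.of_forall fun p => den_lt_top p.1
  have h1 : Integrable (fun p => F (pol p)) nu := mp_pol.integrable_comp_of_integrable hF
  have h2 : Integrable (fun p : ℝ × S2 => Real.exp (3 * p.1) • F (pol p)) (volume.prod sig) := by
    rw [nu_eq, integrable_withDensity_iff_integrable_smul' hd hlt] at h1
    refine h1.congr (Filter.Eventually.of_forall fun p => ?_)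
    show (den p.1).toReal • F (pol p) = _
    rw [den_toReal]
  refine ⟨h2, ?_⟩
  have h3 : ∫ x, F x = ∫ p, F (pol p) ∂nu := by
    have h4 : AEStronglyMeasurable F (Measure.map pol nu) := by
      rw [mp_pol.map_eq]
      exact hF.aestronglyMeasurable
    rw [← integral_map mp_pol.measurable.aemeasurable h4, mp_pol.map_eq]
  rw [h3, nu_eq, integral_withDensity_eq_integral_toReal_smul hd hlt]
  have h5 : ∫ p : ℝ × S2, (den p.1).toReal • F (pol p) ∂((volume : Measure ℝ).prod sig) =
      ∫ p : ℝ × S2, Real.exp (3 * p.1) • F (pol p) ∂((volume : Measure ℝ).prod sig) := by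
    refine integral_congr_ae (Filter.Eventually.of_forall fun p => ?_)
    show (den p.1).toReal • F (pol p) = Real.exp (3 * p.1) • F (pol p)
    rw [den_toReal]
  rw [h5, integral_prod _ h2]

theorem mass : sig Set.univ = ENNReal.ofReal (4 * Real.pi) := by
  unfold sig
  rw [Measure.toSphere_apply_univ, EuclideanSpace.volume_ball_fin_three,
    finrank_euclideanSpace_fin, ENNReal.ofReal_one, one_pow, one_mul]
  rw [← ENNReal.ofReal_natCast, ← ENNReal.ofReal_mul (by positivity)]
  congr 1
  push_cast
  ring

end POL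

theorem pol_thm : POL_Stmt :=
  ⟨fun _ _ _ _ hF => hF.comp_quasiMeasurePreserving POL.qmp, POL.integ, POL.lint, POL.mass,
    continuous_om, nsq_om⟩

end Pool.Agent.RC
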