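import Pool.Agent.RC.Defs

/-!
# Sharp CLR inequality for radial potentials in `ℝ³`: statements of the modules
(MP_4c716f_mp; architect: helper86). See PAPER.md in this folder.
-/

set_option autoImplicit false

namespace Pool.Agent.RC

open MeasureTheory Matrix Finset Filter Topology
open scoped ComplexConjugate ComplexOrder ContDiff
open Pool.Agent.LT (TestFn IsH1v IsH1d IsEigenfunctionD)

/-! ## A. The sphere -/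

/-- POL: logarithmic polar coordinates `x = e^t ω`, `dx = e^{3t} dσ(ω) dt`. -/
def POL_Stmt : Prop :=
  (∀ (E : Type) [NormedAddCommGroup E] [NormedSpace ℝ E] (F : V3 → E),
    AEStronglyMeasurable F volume →
      AEStronglyMeasurable (fun p : ℝ × S2 => F (pol p)) (volume.prod sig)) ∧
  (∀ (E : Type) [NormedAddCommGroup E] [NormedSpace ℝ E] (F : V3 → E), Integrable F volume →
    Integrable (fun p : ℝ × S2 => Real.exp (3 * p.1) • F (pol p)) (volume.prod sig) ∧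
      ∫ x, F x = ∫ t, ∫ s, Real.exp (3 * t) • F (pol (t, s)) ∂sig) ∧
  (∀ F : V3 → ENNReal, AEMeasurable F volume →
    ∫⁻ x, F x = ∫⁻ t, ∫⁻ s, ENNReal.ofReal (Real.exp (3 * t)) * F (pol (t, s)) ∂sig) ∧
  sig Set.univ = ENNReal.ofReal (4 * Real.pi) ∧ Continuous om ∧ (∀ s, nsq (om s) = 1)

/-- RDW: the potential in logarithmic coordinates. -/
def RDW_Stmt : Prop :=
  ∀ U : V3 → ℝ, RPot U → (∀ t s, Real.exp (2 * t) * U (pol (t, s)) = Wf U t) ∧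
    AEStronglyMeasurable (Wf U) volume ∧ (∀ t, 0 ≤ Wf U t) ∧ (∃ B, ∀ t, Wf U t ≤ B) ∧
    (∃ R, ∀ t, R < |t| → Wf U t = 0) ∧
    4 * Real.pi * ∫ t, Wf U t ^ ((3 : ℝ) / 2) = ∫ x, U x ^ ((3 : ℝ) / 2)

/-- ROT: the rotational derivatives have mean 0 on the sphere. -/
def ROT_Stmt : Prop :=
  (∀ g : V3 → ℂ, ContDiff ℝ ∞ g → ∀ i, ContDiff ℝ ∞ (Dr i g)) ∧
  (∀ g : V3 → ℂ, ContDiff ℝ ∞ g → ∀ i, ∫ s, Dr i g (om s) ∂sig = 0) ∧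
  ∀ f g : V3 → ℂ, ContDiff ℝ ∞ f → ContDiff ℝ ∞ g → ∀ i,
    ∫ s, Dr i f (om s) * conj (g (om s)) ∂sig = -∫ s, f (om s) * conj (Dr i g (om s)) ∂sig

/-- PLY: rotational derivatives of polynomials; the operator `-∑ D_i²` acts as `n (n + 1)` modulo
lower degree on the sphere. -/
def PLY_Stmt : Prop :=
  (∀ p, ContDiff ℝ ∞ (evp p)) ∧
  (∀ p i, ∃ q, (∀ n, DegLt n p → DegLt n q) ∧ ∀ x, Dr i (evp p) x = evp q x) ∧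
  ∀ (n : ℕ) (p : MvPolynomial (Fin 3) ℂ), DegLt (n + 1) p → ∃ q, DegLt n q ∧
    ∀ s, -(∑ i, Dr i (Dr i (evp p)) (om s)) =
      ((n : ℂ) * (n + 1)) * evp p (om s) + evp q (om s)

/-- DIM: the polynomials of degree `< M` are spanned on the sphere by `b 0, …, b (M² - 1)`. -/
def DIM_Stmt : Prop :=
  ∃ b : ℕ → MvPolynomial (Fin 3) ℂ, (∀ M n, n < M ^ 2 → DegLt M (b n)) ∧
    ∀ M p, DegLt M p → ∃ c : ℕ → ℂ, ∀ s,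
      evp p (om s) = ∑ n ∈ range (M ^ 2), c n * evp (b n) (om s)

/-- DNS: polynomials are dense in `L²` of the sphere. -/
def DNS_Stmt : Prop :=
  ∀ g : V3 → ℂ, Continuous g → ∀ ε : ℝ, 0 < ε → ∃ p : MvPolynomial (Fin 3) ℂ,
    ∫ s, ‖g (om s) - evp p (om s)‖ ^ 2 ∂sig ≤ ε

/-- GRS: an orthogonal family adapted to the degree. -/
def GRS_Stmt : Prop :=
  ∃ e : ℕ → MvPolynomial (Fin 3) ℂ, (∀ n, DegLt (n.sqrt + 1) (e n)) ∧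
    (∀ m n, m ≠ n → pr (evp (e m)) (evp (e n)) = 0) ∧
    (∀ n, pr (evp (e n)) (evp (e n)) = 1 ∨ ∀ s, evp (e n) (om s) = 0) ∧
    ∀ M p, DegLt M p → ∀ s, evp p (om s) =
      ∑ n ∈ range (M ^ 2), pr (evp p) (evp (e n)) * evp (e n) (om s)

/-- ANG: there is a family on the sphere with Bessel's inequality and the gap property. -/
def ANG_Stmt : Prop :=
  ∃ e : ℕ → V3 → ℂ, (∀ n, ContDiff ℝ ∞ (e n)) ∧ ∀ L : ℕ, Bess e (L ^ 2) ∧ Gap e L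

/-! ## B. Channel functions -/

/-- CHN: channel functions are in `H¹(ℝ)`; linearity. -/
def CHN_Stmt : Prop :=
  (∀ f, A0 f → ∀ e : V3 → ℂ, ContDiff ℝ ∞ e → IsH1v (ch f e) (ch' f e)) ∧
  ∀ (N : ℕ) (f : Fin N → V3 → ℂ) (c : Fin N → ℂ), (∀ j, A0 (f j)) →
    A0 (fun x => ∑ j, c j * f j x) ∧ ∀ e : V3 → ℂ, ContDiff ℝ ∞ e → ∀ t,
      ch (fun x => ∑ j, c j * f j x) e t = ∑ j, c j * ch (f j) e t ∧
      ch' (fun x => ∑ j, c j * f j x) e t = ∑ j, c j * ch' (f j) e t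

/-- KPO: the kinetic energy in logarithmic polar coordinates. -/
def KPO_Stmt : Prop :=
  ∀ f, A0 f →
    Integrable (fun t => ∫ s, ‖fl f t (om s)‖ ^ 2 ∂sig) volume ∧
    Integrable (fun t => ∫ s, ‖fl' f t (om s)‖ ^ 2 ∂sig) volume ∧
    Integrable (fun t => ∑ i, ∫ s, ‖Dr i (fl f t) (om s)‖ ^ 2 ∂sig) volume ∧
    (∀ t, ContDiff ℝ ∞ (fl f t) ∧ Continuous (fl' f t)) ∧
    ∑ k, ∫ x, ‖pd3 k f x‖ ^ 2 = (∫ t, ∫ s, ‖fl' f t (om s)‖ ^ 2 ∂sig) +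
      1 / 4 * (∫ t, ∫ s, ‖fl f t (om s)‖ ^ 2 ∂sig) +
      ∫ t, ∑ i, ∫ s, ‖Dr i (fl f t) (om s)‖ ^ 2 ∂sig

/-- ENR: lower bound of the form by the channel forms. -/
def ENR_Stmt : Prop :=
  ∀ f, A0 f → ∀ U, RPot U → ∀ e : ℕ → V3 → ℂ, (∀ n, ContDiff ℝ ∞ (e n)) → ∀ L : ℕ,
    Bess e (L ^ 2) → Gap e L → (∀ t, Wf U t ≤ ((L : ℝ) + 1 / 2) ^ 2) →
    ∑ k ∈ range (L ^ 2), ((∫ t, ‖ch' f (e k) t‖ ^ 2) - (∫ t, Wf U t * ‖ch f (e k) t‖ ^ 2) +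
        ((k.sqrt : ℝ) + 1 / 2) ^ 2 * ∫ t, ‖ch f (e k) t‖ ^ 2) ≤
      (∑ k, ∫ x, ‖pd3 k f x‖ ^ 2) - ∫ x, U x * ‖f x‖ ^ 2

/-! ## C. Counting -/

/-- DGN: simultaneous diagonalisation of a semidefinite and a Hermitian form. -/
def DGN_Stmt : Prop :=
  ∀ (ι : Type) [Fintype ι] [DecidableEq ι] (G H : Matrix ι ι ℂ), G.PosSemidef → H.IsHermitian →
    (∀ x, G *ᵥ x = 0 → H *ᵥ x = 0) →
    ∃ (m : ℕ) (B : Matrix ι (Fin m) ℂ) (μ : Fin m → ℝ), Bᴴ * G * B = 1 ∧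
      Bᴴ * H * B = Matrix.diagonal (fun i => (μ i : ℂ)) ∧ G = G * B * Bᴴ * G ∧
      H = G * B * Matrix.diagonal (fun i => (μ i : ℂ)) * Bᴴ * G

/-- CNT: counting. -/
def CNT_Stmt : Prop :=
  ∀ (N K : ℕ) (G H : Matrix (Fin N × Fin K) (Fin N × Fin K) ℂ) (a : Fin K → ℝ) (Λ : ℝ),
    G.PosSemidef → H.IsHermitian → (∀ x, G *ᵥ x = 0 → H *ᵥ x = 0) → (∀ k, 0 < a k) →
    (∀ κ : ℝ, 0 < κ → ((univ.filter fun k => a k < κ).card : ℝ) ≤ 4 * κ ^ 2) →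
    (∀ c : Fin N → ℂ, c ≠ 0 →
      ∑ k, (star (xk c k) ⬝ᵥ ((H + ((a k ^ 2 : ℝ) : ℂ) • G) *ᵥ xk c k)).re < 0) →
    (∀ (m : ℕ) (B : Matrix (Fin N × Fin K) (Fin m) ℂ) (μ : Fin m → ℝ), Bᴴ * G * B = 1 →
      Bᴴ * H * B = Matrix.diagonal (fun i => (μ i : ℂ)) → ∑ i, -μ i ≤ Λ) →
    (N : ℝ) ≤ 4 * Λ

/-- KN1: the sharp one dimensional inequality for orthonormal families. -/
def KN1_Stmt : Prop :=
  ∀ (N : ℕ) (φ φ' : Fin N → ℝ → ℂ) (W : ℝ → ℝ), (∀ j, IsH1v (φ j) (φ' j)) →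
    (∀ i j, ∫ t, φ i t * conj (φ j t) = if i = j then 1 else 0) →
    AEStronglyMeasurable W volume → (∀ t, 0 ≤ W t) → (∃ B, ∀ t, W t ≤ B) →
    (∃ R, ∀ t, R < |t| → W t = 0) →
    ∑ j, ((∫ t, W t * ‖φ j t‖ ^ 2) - ∫ t, ‖φ' j t‖ ^ 2) ≤
      4 / (3 * √3 * Real.pi) * ∫ t, W t ^ ((3 : ℝ) / 2)

/-! ## D. The upper bound -/

/-- Level A: test functions that vanish near the origin. -/
def LevA : Prop :=
  ∀ (N : ℕ) (f : Fin N → V3 → ℂ) (U : V3 → ℝ), (∀ j, A0 (f j)) → RPot U →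
    (potM U f - kinM (fun j => grd (f j))).PosDef → (N : ℝ) ≤ C0 * ∫ x, U x ^ ((3 : ℝ) / 2)

/-- Level T: test functions. -/
def LevT : Prop :=
  ∀ (N : ℕ) (f : Fin N → V3 → ℂ) (U : V3 → ℝ), (∀ j, TestFn 3 (f j)) → RPot U →
    (potM U f - kinM (fun j => grd (f j))).PosDef → (N : ℝ) ≤ C0 * ∫ x, U x ^ ((3 : ℝ) / 2)

/-- Level H: functions in `H¹(ℝ³)`. -/
def LevH : Prop :=
  ∀ (N : ℕ) (ψ : Fin N → V3 → ℂ) (g : Fin N → Fin 3 → V3 → ℂ) (U : V3 → ℝ),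
    (∀ j, IsH1d (ψ j) (g j)) → RPot U →
    (potM U ψ - kinM g).PosDef → (N : ℝ) ≤ C0 * ∫ x, U x ^ ((3 : ℝ) / 2)

/-- `L` is admissible in the CLR inequality for radial potentials in `ℝ³`. -/
def RadialCLR (L : ℝ) : Prop :=
  ∀ V : V3 → ℝ, MemLp V (ENNReal.ofReal (3 / 2)) volume → Rad V →
    ∀ (N : ℕ) (ψ : Fin N → V3 → ℂ) (E : Fin N → ℝ), (∀ j, IsEigenfunctionD V (ψ j) (E j)) →
      (∀ j, E j < 0) → (∀ i j, ∫ y, conj (ψ i y) * ψ j y = if i = j then 1 else 0) →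
      (N : ℝ) ≤ L * ∫ y, max (-V y) 0 ^ ((3 : ℝ) / 2)

/-- MTX: the matrices of the channel functions. -/
def MTX_Stmt : Prop :=
  ∀ (N K : ℕ) (u u' : Fin N × Fin K → ℝ → ℂ) (W : ℝ → ℝ), (∀ p, IsH1v (u p) (u' p)) →
    AEStronglyMeasurable W volume → (∀ t, 0 ≤ W t) → (∃ B, ∀ t, W t ≤ B) →
    ∀ G H : Matrix (Fin N × Fin K) (Fin N × Fin K) ℂ,
    G = Matrix.of (fun p q => ∫ t, u p t * conj (u q t)) →
    H = Matrix.of (fun p q => (∫ t, u' p t * conj (u' q t)) -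
      ∫ t, (W t : ℂ) * (u p t * conj (u q t))) →
    G.PosSemidef ∧ H.IsHermitian ∧ (∀ x, G *ᵥ x = 0 → H *ᵥ x = 0) ∧
    (∀ x : Fin N × Fin K → ℂ,
      IsH1v (fun t => ∑ p, conj (x p) * u p t) (fun t => ∑ p, conj (x p) * u' p t) ∧
      (star x ⬝ᵥ (G *ᵥ x)) = ((∫ t, ‖∑ p, conj (x p) * u p t‖ ^ 2 : ℝ) : ℂ) ∧
      (star x ⬝ᵥ (H *ᵥ x)) = (((∫ t, ‖∑ p, conj (x p) * u' p t‖ ^ 2) -
        ∫ t, W t * ‖∑ p, conj (x p) * u p t‖ ^ 2 : ℝ) : ℂ)) ∧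
    ∀ (m : ℕ) (B : Matrix (Fin N × Fin K) (Fin m) ℂ) (i j : Fin m),
      (Bᴴ * G * B) i j = ∫ t, (∑ p, conj (B p i) * u p t) * conj (∑ p, conj (B p j) * u p t)

/-- ASA: assembly of level A. -/
def ASA_Stmt : Prop :=
  RDW_Stmt → ANG_Stmt → CHN_Stmt → ENR_Stmt → CNT_Stmt → KN1_Stmt → MTX_Stmt → LevA

/-- CUT: from level A to level T. -/
def CUT_Stmt : Prop := LevA → LevT

/-- HLV: from level T to level H. -/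
def HLV_Stmt : Prop := LevT → LevH

/-- SPC: from level H to eigenfunctions. -/
def SPC_Stmt : Prop := LevH → RadialCLR C0

/-! ## E. The lower bound -/

/-- WIB: the weak form of the eigenvalue equation for smooth decaying functions. -/
def WIB_Stmt : Prop :=
  ∀ (ψ : V3 → ℂ) (V : V3 → ℝ) (E : ℝ), ContDiff ℝ ∞ ψ → Continuous V → (∃ B, ∀ x, |V x| ≤ B) →
    (∀ x, -(∑ k, pd3 k (pd3 k ψ) x) + (V x : ℂ) * ψ x = (E : ℂ) * ψ x) →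
    (∃ C : ℝ, ∀ x, ‖ψ x‖ ≤ C / (1 + nsq x) ^ 2 ∧ ∀ k, ‖pd3 k ψ x‖ ≤ C / (1 + nsq x) ^ 2) →
    IsEigenfunctionD V ψ E

/-- PSE: the extremal functions. -/
def PSE_Stmt : Prop :=
  ∀ ε : ℝ, 0 < ε → ε ≤ 1 → ContDiff ℝ ∞ (psE ε) ∧
    (∀ x, -(∑ k, pd3 k (pd3 k (psE ε)) x) + (vE ε x : ℂ) * psE ε x =
      ((-(ε ^ 2) : ℝ) : ℂ) * psE ε x) ∧
    ∃ C : ℝ, ∀ x, ‖psE ε x‖ ≤ C / (1 + nsq x) ^ 2 ∧ ∀ k, ‖pd3 k (psE ε) x‖ ≤ C / (1 + nsq x) ^ 2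

/-- VEI: the integrals of the potentials. -/
def VEI_Stmt : Prop :=
  (∀ ε : ℝ, 0 < ε → ε ≤ 1 → MemLp (vE ε) (ENNReal.ofReal (3 / 2)) volume ∧ Rad (vE ε) ∧
    Continuous (vE ε) ∧ (∃ B, ∀ x, |vE ε x| ≤ B)) ∧
  Tendsto (fun ε : ℝ => ∫ x, max (-vE ε x) 0 ^ ((3 : ℝ) / 2)) (𝓝[>] 0)
    (𝓝 (3 * √3 * Real.pi ^ 2 / 4))

/-- LWB: optimality. -/
def LWB_Stmt : Prop := WIB_Stmt → PSE_Stmt → VEI_Stmt → ∀ L : ℝ, RadialCLR L → C0 ≤ L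

end Pool.Agent.RC
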