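import Pool.Agent.RC.Base
import Pool.Agent.LT.H1Approx

/-!
# WIB: the weak form of the eigenvalue equation
-/

set_option autoImplicit false

namespace Pool.Agent.RC

open MeasureTheory Matrix Finset Filter Topology
open scoped ComplexConjugate ComplexOrder ContDiff
open Pool.Agent.LT (TestFn IsH1v IsH1d IsEigenfunctionD)
open Pool.Agent.LT.H1 (cut cut_mem cut_eventually cut_contDiff cut_compact cut_fderiv)

namespace WIB

theorem norm_sq_le_nsq (x : V3) : ‖x‖ ^ 2 ≤ nsq x := by
  have h : ‖x‖ ≤ √(nsq x) := by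
    rw [pi_norm_le_iff_of_nonneg (Real.sqrt_nonneg _)]
    intro i
    rw [Real.norm_eq_abs]
    apply Real.abs_le_sqrt
    unfold nsq
    exact Finset.single_le_sum (f := fun i => x i ^ 2) (fun i _ => sq_nonneg _) (Finset.mem_univ i)
  have h0 : 0 ≤ nsq x := Finset.sum_nonneg fun i _ => sq_nonneg _
  calc ‖x‖ ^ 2 ≤ √(nsq x) ^ 2 := by gcongr
    _ = nsq x := Real.sq_sqrt h0

/-- A continuous function with the decay `(1 + |x|²)⁻²` is square integrable. -/
theorem memLp_of_decay {f : V3 → ℂ} (hf : Continuous f) {C : ℝ}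
    (h : ∀ x, ‖f x‖ ≤ C / (1 + nsq x) ^ 2) : MemLp f 2 volume := by
  rw [memLp_two_iff_integrable_sq_norm hf.aestronglyMeasurable]
  have hint : Integrable (fun x : V3 => ((1 : ℝ) + ‖x‖ ^ 2) ^ (-(4 : ℝ) / 2)) volume := by
    apply integrable_rpow_neg_one_add_norm_sq
    simp
    norm_num
  refine (hint.const_mul (C ^ 2)).mono' (hf.norm.pow 2).aestronglyMeasurable
    (Eventually.of_forall fun x => ?_)
  have h1 := norm_sq_le_nsq x
  have h0 : (0 : ℝ) ≤ ‖x‖ ^ 2 := by positivity
  have h2 : ((1 : ℝ) + ‖x‖ ^ 2) ^ (-(4 : ℝ) / 2) = 1 / (1 + ‖x‖ ^ 2) ^ 2 := by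
    have : (-(4 : ℝ) / 2) = -((2 : ℕ) : ℝ) := by norm_num
    rw [this, Real.rpow_neg (by positivity), Real.rpow_natCast, one_div]
  rw [h2, Real.norm_eq_abs, abs_of_nonneg (by positivity)]
  have h3 : ‖f x‖ ^ 2 ≤ (C / (1 + nsq x) ^ 2) ^ 2 := by
    have := h x
    gcongr
  refine h3.trans ?_
  rw [div_pow, mul_one_div]
  have h4 : (1 + ‖x‖ ^ 2) ^ 2 ≤ ((1 + nsq x) ^ 2) ^ 2 := by
    have h5 : (1 + ‖x‖ ^ 2) ≤ (1 + nsq x) := by linarith
    have h6 : 1 ≤ (1 + nsq x) ^ 2 := by nlinarith
    calc (1 + ‖x‖ ^ 2) ^ 2 ≤ (1 + nsq x) ^ 2 := by gcongr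
      _ = (1 + nsq x) ^ 2 * 1 := (mul_one _).symm
      _ ≤ (1 + nsq x) ^ 2 * (1 + nsq x) ^ 2 := by gcongr
      _ = _ := by ring
  exact div_le_div_of_nonneg_left (by positivity) (by positivity) h4

theorem int_mul {u v : V3 → ℂ} (hu : MemLp u 2 volume) (hv : MemLp v 2 volume) :
    Integrable (fun x => u x * v x) volume := hu.integrable_mul hv

/-- Dominated convergence. -/
theorem dct {u v : V3 → ℂ} (hu : MemLp u 2 volume) (hv : MemLp v 2 volume) (c : ℕ → V3 → ℂ)
    (c' : V3 → ℂ) (M : ℝ) (hc : ∀ n, Continuous (c n)) (hM : ∀ n x, ‖c n x‖ ≤ M)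
    (hlim : ∀ x, Tendsto (fun n => c n x) atTop (𝓝 (c' x))) :
    Tendsto (fun n => ∫ x, u x * (c n x * v x)) atTop (𝓝 (∫ x, u x * (c' x * v x))) := by
  refine tendsto_integral_of_dominated_convergence (fun x => M * ‖u x * v x‖) ?_ ?_ ?_ ?_
  · intro n
    exact hu.1.mul ((hc n).aestronglyMeasurable.mul hv.1)
  · exact (int_mul hu hv).norm.const_mul M
  · intro n
    refine Eventually.of_forall fun x => ?_
    have h1 : u x * (c n x * v x) = c n x * (u x * v x) := by ring
    rw [h1, norm_mul]
    exact mul_le_mul_of_nonneg_right (hM n x) (norm_nonneg _)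
  · refine Eventually.of_forall fun x => ?_
    exact ((hlim x).mul_const _).const_mul _

theorem contDiff_pd3 {g : V3 → ℂ} (hg : ContDiff ℝ ∞ g) (k : Fin 3) : ContDiff ℝ ∞ (pd3 k g) := by
  unfold pd3
  exact (hg.fderiv_right (m := ∞) (by simp)).clm_apply contDiff_const

/-- The complex cutoff functions. -/
noncomputable def ct (n : ℕ) (x : V3) : ℂ := ((cut n x : ℝ) : ℂ)

/-- Their partial derivatives. -/
noncomputable def dct' (k : Fin 3) (n : ℕ) (x : V3) : ℂ :=
  ((fderiv ℝ (cut (V := V3) n) x (Pi.single k 1) : ℝ) : ℂ)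

theorem continuous_ct (n : ℕ) : Continuous (ct n) :=
  Complex.continuous_ofReal.comp (cut_contDiff n).continuous

theorem contDiff_ct (n : ℕ) : ContDiff ℝ ∞ (ct n) :=
  Complex.ofRealCLM.contDiff.comp (cut_contDiff n)

theorem compact_ct (n : ℕ) : HasCompactSupport (ct n) :=
  (cut_compact (V := V3) n).comp_left (g := fun r : ℝ => (r : ℂ)) (by simp)

theorem continuous_dct (k : Fin 3) (n : ℕ) : Continuous (dct' k n) :=
  Complex.continuous_ofReal.comp
    (((cut_contDiff (V := V3) n).continuous_fderiv (by simp)).clm_apply continuous_const)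

theorem compact_dct (k : Fin 3) (n : ℕ) : HasCompactSupport (dct' k n) := by
  have h1 : HasCompactSupport fun x : V3 => fderiv ℝ (cut (V := V3) n) x (Pi.single k 1) := by
    refine ((cut_compact (V := V3) n).fderiv ℝ).mono fun x hx => ?_
    by_contra hn
    apply hx
    have : fderiv ℝ (cut (V := V3) n) x = 0 := by by_contra h; exact hn h
    simp [this]
  exact h1.comp_left (g := fun r : ℝ => (r : ℂ)) (by simp)

/-- The test function. -/
noncomputable def tf (n : ℕ) (g : V3 → ℂ) (x : V3) : ℂ := ct n x * conj (g x)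

theorem testFn_tf {g : V3 → ℂ} (hg : ContDiff ℝ ∞ g) (n : ℕ) : TestFn 3 (tf n g) :=
  ⟨(contDiff_ct n).mul (Complex.conjCLE.contDiff.comp hg), (compact_ct n).mul_right⟩

theorem fderiv_tf {g : V3 → ℂ} (hg : ContDiff ℝ ∞ g) (n : ℕ) (k : Fin 3) (x : V3) :
    fderiv ℝ (tf n g) x (Pi.single k 1) = ct n x * conj (pd3 k g x) +
      dct' k n x * conj (g x) := by
  have h1 : HasFDerivAt (ct n) (Complex.ofRealCLM.comp (fderiv ℝ (cut (V := V3) n) x)) x :=
    Complex.ofRealCLM.hasFDerivAt.comp x
      (((cut_contDiff (V := V3) n).differentiable (by simp)) x).hasFDerivAt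
  have h2 : HasFDerivAt (fun x => conj (g x))
      ((Complex.conjCLE : ℂ →L[ℝ] ℂ).comp (fderiv ℝ g x)) x :=
    (Complex.conjCLE : ℂ →L[ℝ] ℂ).hasFDerivAt.comp x ((hg.differentiable (by simp)) x).hasFDerivAt
  have h3 := h1.mul h2
  have h4 : HasFDerivAt (tf n g) (ct n x • ((Complex.conjCLE : ℂ →L[ℝ] ℂ).comp (fderiv ℝ g x)) +
      conj (g x) • (Complex.ofRealCLM.comp (fderiv ℝ (cut (V := V3) n) x))) x := h3
  rw [h4.fderiv]
  unfold dct' pd3
  simp only [_root_.add_apply, _root_.smul_apply,
    ContinuousLinearMap.comp_apply, smul_eq_mul, Complex.ofRealCLM_apply,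
    ContinuousLinearEquiv.coe_coe, Complex.conjCLE_apply]
  ring

end WIB

open WIB in
theorem wib : WIB_Stmt := by
  intro ψ V E hψ hV hVB heq hdec
  obtain ⟨B, hB⟩ := hVB
  obtain ⟨C, hC⟩ := hdec
  have hψc : Continuous ψ := hψ.continuous
  have hψ2 : MemLp ψ 2 volume := memLp_of_decay hψc fun x => (hC x).1
  have hgs : ∀ k, ContDiff ℝ ∞ (pd3 k ψ) := fun k => contDiff_pd3 hψ k
  have hg2 : ∀ k, MemLp (pd3 k ψ) 2 volume := fun k =>
    memLp_of_decay (hgs k).continuous fun x => (hC x).2 k
  refine ⟨grd ψ, ⟨hψ2, hg2, ?_⟩, ?_⟩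
  · intro i φ hφ
    have hcφ : Continuous fun x => fderiv ℝ φ x (Pi.single i 1) :=
      (hφ.1.continuous_fderiv (by simp)).clm_apply continuous_const
    have hsφ : HasCompactSupport fun x => fderiv ℝ φ x (Pi.single i (1 : ℝ)) := by
      refine (hφ.2.fderiv ℝ).mono fun x hx => ?_
      by_contra hn
      apply hx
      have : fderiv ℝ φ x = 0 := by by_contra h; exact hn h
      simp [this]
    refine integral_mul_fderiv_eq_neg_fderiv_mul_of_integrable ?_ ?_ ?_
      (fun x _ => (hψ.differentiable (by simp)) x) (fun x _ => (hφ.1.differentiable (by simp)) x)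
    · exact ((hgs i).continuous.mul hφ.1.continuous).integrable_of_hasCompactSupport
        hφ.2.mul_left
    · exact (hψc.mul hcφ).integrable_of_hasCompactSupport hsφ.mul_left
    · exact (hψc.mul hφ.1.continuous).integrable_of_hasCompactSupport hφ.2.mul_left
  · intro φ h hφ
    obtain ⟨hφ2, hh2, hw⟩ := hφ
    -- the function `conj (Δψ)`
    set v : V3 → ℂ := fun x => ((V x - E : ℝ) : ℂ) * conj (ψ x) with hv
    have hvc : Continuous v := (Complex.continuous_ofReal.comp (hV.sub continuous_const)).mul
      (Complex.continuous_conj.comp hψc)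
    have hlap : ∀ x, conj (∑ k, pd3 k (pd3 k ψ) x) = v x := by
      intro x
      have h1 : ∑ k, pd3 k (pd3 k ψ) x = ((V x - E : ℝ) : ℂ) * ψ x := by
        have := heq x
        push_cast
        linear_combination -this
      rw [h1, map_mul, Complex.conj_ofReal]
    have hv2 : MemLp v 2 volume := by
      refine hψ2.of_le_mul (c := B + |E|) hvc.aestronglyMeasurable (Eventually.of_forall fun x => ?_)
      rw [hv]
      simp only [norm_mul, Complex.norm_real, RCLike.norm_conj]
      refine mul_le_mul_of_nonneg_right ?_ (norm_nonneg _)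
      rw [Real.norm_eq_abs]
      exact (abs_sub _ _).trans (by have := hB x; linarith)
    have hgc2 : ∀ k, MemLp (fun x => conj (pd3 k ψ x)) 2 volume := fun k =>
      (hg2 k).of_le_mul (c := 1)
        (Complex.continuous_conj.comp (hgs k).continuous).aestronglyMeasurable
        (Eventually.of_forall fun x => by simp)
    have hψc2 : MemLp (fun x => conj (ψ x)) 2 volume :=
      hψ2.of_le_mul (c := 1) (Complex.continuous_conj.comp hψc).aestronglyMeasurable
        (Eventually.of_forall fun x => by simp)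
    -- the identity with a cutoff
    have hid : ∀ n : ℕ, (∫ x, φ x * (ct n x * v x)) +
        ∑ k, ∫ x, φ x * (dct' k n x * conj (pd3 k ψ x)) =
        -∑ k, ∫ x, h k x * (ct n x * conj (pd3 k ψ x)) := by
      intro n
      have e1 : ∀ k, (∫ x, φ x * (ct n x * conj (pd3 k (pd3 k ψ) x))) +
          ∫ x, φ x * (dct' k n x * conj (pd3 k ψ x)) =
          -∫ x, h k x * (ct n x * conj (pd3 k ψ x)) := by
        intro k
        have e2 := hw k _ (testFn_tf (hgs k) n)
        have e3 : ∀ x, φ x * fderiv ℝ (tf n (pd3 k ψ)) x (Pi.single k 1) =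
            φ x * (ct n x * conj (pd3 k (pd3 k ψ) x)) +
              φ x * (dct' k n x * conj (pd3 k ψ x)) := by
          intro x
          rw [fderiv_tf (hgs k) n k x, mul_add]
        simp only [e3] at e2
        rw [integral_add] at e2
        · exact e2
        · refine int_mul hφ2 (Continuous.memLp_of_hasCompactSupport ?_ ?_)
          · exact (continuous_ct n).mul
              (Complex.continuous_conj.comp (contDiff_pd3 (hgs k) k).continuous)
          · exact (compact_ct n).mul_right
        · refine int_mul hφ2 (Continuous.memLp_of_hasCompactSupport ?_ ?_)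
          · exact (continuous_dct k n).mul (Complex.continuous_conj.comp (hgs k).continuous)
          · exact (compact_dct k n).mul_right
      have e4 : ∑ k, ∫ x, φ x * (ct n x * conj (pd3 k (pd3 k ψ) x)) =
          ∫ x, φ x * (ct n x * v x) := by
        rw [← integral_finsetSum]
        · congr 1
          funext x
          rw [← hlap x, map_sum, Finset.mul_sum, Finset.mul_sum]
        · intro k _
          refine int_mul hφ2 (Continuous.memLp_of_hasCompactSupport ?_ ?_)
          · exact (continuous_ct n).mul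
              (Complex.continuous_conj.comp (contDiff_pd3 (hgs k) k).continuous)
          · exact (compact_ct n).mul_right
      rw [← e4, ← Finset.sum_add_distrib, ← Finset.sum_neg_distrib]
      exact Finset.sum_congr rfl fun k _ => e1 k
    -- the limits
    have hctM : ∀ n x, ‖ct n x‖ ≤ 1 := by
      intro n x
      unfold ct
      rw [Complex.norm_real, Real.norm_eq_abs, abs_of_nonneg (cut_mem n x).1]
      exact (cut_mem n x).2
    have hctl : ∀ x, Tendsto (fun n => ct n x) atTop (𝓝 ((fun _ : V3 => (1 : ℂ)) x)) := by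
      intro x
      apply tendsto_const_nhds.congr'
      filter_upwards [cut_eventually x] with n hn
      unfold ct
      rw [hn]
      simp
    obtain ⟨D, hD0, hD⟩ := cut_fderiv (V := V3)
    have hdM : ∀ k n x, ‖dct' k n x‖ ≤ D / ((n : ℝ) + 1) := by
      intro k n x
      unfold dct'
      rw [Complex.norm_real, Real.norm_eq_abs]
      refine (hD n x _).trans (le_of_eq ?_)
      rw [Pi.norm_single, norm_one, mul_one]
    have hdM' : ∀ k n x, ‖dct' k n x‖ ≤ D := by
      intro k n x
      refine (hdM k n x).trans ?_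
      apply div_le_self hD0
      have : (0 : ℝ) ≤ n := Nat.cast_nonneg n
      linarith
    have hdl : ∀ k x, Tendsto (fun n => dct' k n x) atTop (𝓝 ((fun _ : V3 => (0 : ℂ)) x)) := by
      intro k x
      refine squeeze_zero_norm (fun n => hdM k n x) ?_
      have := tendsto_one_div_add_atTop_nhds_zero_nat (𝕜 := ℝ)
      have h2 := this.const_mul D
      rw [mul_zero] at h2
      refine h2.congr fun n => ?_
      rw [mul_one_div]
    have hL1 := dct hφ2 hv2 ct (fun _ => 1) 1 continuous_ct hctM hctl
    have hL2 := fun k => dct hφ2 (hgc2 k) (dct' k) (fun _ => 0) D (continuous_dct k) (hdM' k)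
      (hdl k)
    have hL3 := fun k => dct (hh2 k) (hgc2 k) ct (fun _ => 1) 1 continuous_ct hctM hctl
    have hA := hL1.add (tendsto_finsetSum Finset.univ fun k _ => hL2 k)
    have hBt := (tendsto_finsetSum Finset.univ fun k _ => hL3 k).neg
    have hfin := tendsto_nhds_unique (hA.congr hid) hBt
    simp only [one_mul, zero_mul, mul_zero, integral_zero, Finset.sum_const_zero, add_zero] at hfin
    -- conjugate
    have hc := congrArg conj hfin
    rw [map_neg, map_sum, ← integral_conj] at hc
    have e5 : ∀ k, conj (∫ x, h k x * conj (pd3 k ψ x)) = ∫ x, conj (h k x) * grd ψ k x := by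
      intro k
      rw [← integral_conj]
      congr 1
      funext x
      rw [map_mul, Complex.conj_conj]
      rfl
    rw [Finset.sum_congr rfl fun k _ => e5 k] at hc
    have hφψ : Integrable (fun x => conj (φ x) * ψ x) volume := by
      have h1 : MemLp (fun x => conj (φ x)) 2 volume :=
        hφ2.of_le_mul (c := 1) (Complex.continuous_conj.comp_aestronglyMeasurable hφ2.1)
          (Eventually.of_forall fun x => by simp)
      exact int_mul h1 hψ2
    have hVφψ : Integrable (fun x => (V x : ℂ) * (conj (φ x) * ψ x)) volume := by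
      refine hφψ.bdd_mul (c := B) (Complex.continuous_ofReal.comp hV).aestronglyMeasurable ?_
      refine Eventually.of_forall fun x => ?_
      rw [Complex.norm_real, Real.norm_eq_abs]
      exact hB x
    have e6 : ∫ x, conj (φ x * v x) = (∫ x, (V x : ℂ) * (conj (φ x) * ψ x)) -
        E * ∫ x, conj (φ x) * ψ x := by
      rw [← integral_const_mul, ← integral_sub hVφψ (hφψ.const_mul _)]
      congr 1
      funext x
      rw [hv]
      simp only [map_mul, Complex.conj_conj, Complex.conj_ofReal]
      push_cast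
      ring
    rw [e6] at hc
    linear_combination hc

end Pool.Agent.RC
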